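import Pool.Agent.H702.CT.Dist

set_option autoImplicit false
set_option linter.unusedSectionVars false

/-!
# The geometric data for small and for large grids
-/

namespace Pool.Agent.H702.CT

open Finset

/-- Large grids: blocks. -/
theorem geom_large {n d m N : ℕ} {τ : ℝ} (hd : 1 ≤ d) (hτ : 0 < τ) (hτ1 : τ ≤ 1)
    (hm : 8 * (d : ℝ) ≤ m * τ) (hN : 1 ≤ N) (hn : 2 * N ≤ n) :
    Geom n d (n / N) m N (⌈2 / (m * (τ / (8 * d * N)))⌉₊ + 1) (τ / (8 * d * N)) τ := by
  have hdR : (1 : ℝ) ≤ d := by exact_mod_cast hd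
  have hNR : (1 : ℝ) ≤ N := by exact_mod_cast hN
  have hmpos : (0 : ℝ) < m := by
    by_contra h
    rw [not_lt] at h
    have : (m : ℝ) * τ ≤ 0 := mul_nonpos_of_nonpos_of_nonneg h hτ.le
    linarith
  have hn0 : 0 < n := by omega
  have hb : 0 < n / N := Nat.div_pos (by omega) (by omega)
  have hbR : (0 : ℝ) < ((n / N : ℕ) : ℝ) := by exact_mod_cast hb
  have hb1 : (1 : ℝ) ≤ ((n / N : ℕ) : ℝ) := by exact_mod_cast hb
  have hh : 0 < τ / (8 * d * N) := by positivity
  set b := n / N with hbdef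
  set h := τ / (8 * d * N) with hhdef
  have hNb : N * b ≤ n := Nat.mul_div_le n N
  have hdhN : d * h * N = τ / 8 := by rw [hhdef]; field_simp
  refine ⟨hn0, hb, hNb, hh, hτ, hτ1, ?_, ?_, ?_⟩
  · have h1 : n < N * (b + 1) := Nat.lt_mul_div_succ n (by omega)
    have h2 : (n : ℝ) ≤ N * (b + 1) := by exact_mod_cast h1.le
    have h3 : (n : ℝ) / b ≤ 2 * N := by
      rw [div_le_iff₀ hbR]
      nlinarith
    calc (d : ℝ) * (h / 2 * (n / b)) ≤ d * (h / 2 * (2 * N)) := by gcongr
      _ = d * h * N := by ring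
      _ ≤ τ / 8 := hdhN.le
  · intro f hf x hx
    obtain ⟨σ, hσ⟩ := hf.exists_supp (fine hn0 b x) (show 0 < τ / 8 by positivity)
    have hσb : ∀ i, b * |σ i| ≤ 2 / m := by
      intro i
      have h0 := fine_lt hNb hx i
      have h0' := mem_box.1 hx i
      have h1 : m * b ≤ (fine hn0 b x i : ℕ) := by
        rw [fine_val hn0 hNb hx i]
        have h2 : m ≤ (x.1 i).toNat := by omega
        have h3 : m * b ≤ (x.1 i).toNat * b := Nat.mul_le_mul_right b h2
        omega
      have h2 : (fine hn0 b x i : ℕ) + m * b < n := by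
        rw [fine_val hn0 hNb hx i]
        exact h0
      have h3 := slope_up hf.1 hσ i (m * b) h2
      have h4 := slope_down hf.1 hσ i (m * b) h1
      have h5 : |σ i * ((m * b : ℕ) : ℝ)| ≤ 2 := by
        rw [abs_le]; constructor <;> linarith
      rw [abs_mul, abs_of_nonneg (by positivity : (0 : ℝ) ≤ ((m * b : ℕ) : ℝ))] at h5
      rw [le_div_iff₀ hmpos]
      push_cast at h5
      linarith
    refine ⟨σ, hσ, fun i => ?_, ?_⟩
    · have h1 : b * |σ i| / h ≤ 2 / (m * h) := by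
        rw [div_le_iff₀ hh]
        have h2 : 2 / (m * h) * h = 2 / m := by field_simp
        rw [h2]
        exact hσb i
      have h2 := Nat.le_ceil (2 / ((m : ℝ) * h))
      push_cast
      linarith
    · have h1 : ∀ i ∈ (univ : Finset (Fin d)), |σ i| * ((b : ℝ) - 1) ≤ 2 / m := by
        intro i _
        have h2 := hσb i
        have h3 := abs_nonneg (σ i)
        linarith
      refine (sum_le_card_nsmul _ _ _ h1).trans ?_
      rw [card_univ, Fintype.card_fin, nsmul_eq_mul]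
      rw [mul_div_assoc', div_le_iff₀ hmpos]
      linarith
  · intro a ha s
    rw [abs_mul, abs_of_pos hh]
    set Λ := ⌈2 / ((m : ℝ) * h)⌉₊ + 1 with hΛ
    have h1 : |∑ i, (a i : ℝ) * (((s i : ℕ) : ℝ) / b)| ≤ d * Λ := by
      refine (abs_sum_le_sum_abs _ _).trans ?_
      have h2 : ∀ i ∈ (univ : Finset (Fin d)), |(a i : ℝ) * (((s i : ℕ) : ℝ) / b)| ≤ Λ := by
        intro i _
        rw [abs_mul]
        have h3 : |(a i : ℝ)| ≤ Λ := by exact_mod_cast ha i
        have h4 : |((s i : ℕ) : ℝ) / b| ≤ 1 := by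
          rw [abs_of_nonneg (by positivity), div_le_one hbR]
          exact_mod_cast (s i).2.le
        calc |(a i : ℝ)| * |((s i : ℕ) : ℝ) / b| ≤ Λ * 1 :=
              mul_le_mul h3 h4 (abs_nonneg _) (by positivity)
          _ = Λ := mul_one _
      refine (sum_le_card_nsmul _ _ _ h2).trans ?_
      rw [card_univ, Fintype.card_fin, nsmul_eq_mul]
    have h2 : h * Λ ≤ 2 / m + 2 * h := by
      have h3 := Nat.ceil_lt_add_one (show (0 : ℝ) ≤ 2 / ((m : ℝ) * h) by positivity)
      have h4 : (Λ : ℝ) ≤ 2 / (m * h) + 2 := by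
        rw [hΛ]; push_cast; linarith
      calc h * Λ ≤ h * (2 / (m * h) + 2) := by gcongr
        _ = 2 / m + 2 * h := by field_simp
    have h3 : (d : ℝ) * (2 / m) ≤ τ / 4 := by
      rw [mul_div_assoc', div_le_iff₀ hmpos]
      linarith
    have h4 : (d : ℝ) * h ≤ τ / 8 := by
      have : (d : ℝ) * h ≤ d * h * N := le_mul_of_one_le_right (by positivity) hNR
      linarith
    calc h * |∑ i, (a i : ℝ) * (((s i : ℕ) : ℝ) / b)| ≤ h * (d * Λ) := by gcongr
      _ = d * (h * Λ) := by ring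
      _ ≤ d * (2 / m + 2 * h) := by gcongr
      _ = d * (2 / m) + 2 * (d * h) := by ring
      _ ≤ τ := by linarith

/-- Small grids. -/
theorem geom_small {n d : ℕ} {τ : ℝ} (hd : 1 ≤ d) (hτ : 0 < τ) (hτ1 : τ ≤ 1) (hn : 1 ≤ n) :
    Geom n d 1 0 n (⌈(2 * d * n + 1) / (τ / (8 * d * n))⌉₊ + 1) (τ / (8 * d * n)) τ := by
  have hdR : (1 : ℝ) ≤ d := by exact_mod_cast hd
  have hnR : (1 : ℝ) ≤ n := by exact_mod_cast hn
  have hh : 0 < τ / (8 * d * n) := by positivity
  set h := τ / (8 * d * n) with hhdef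
  have hdhn : d * h * n = τ / 8 := by rw [hhdef]; field_simp
  refine ⟨hn, one_pos, by omega, hh, hτ, hτ1, ?_, ?_, ?_⟩
  · push_cast
    rw [div_one]
    have : (d : ℝ) * (h / 2 * n) = d * h * n / 2 := by ring
    rw [this, hdhn]
    linarith
  · intro f hf x hx
    obtain ⟨σ, hσ⟩ := hf.exists_supp (fine hn 1 x) (show 0 < τ / 8 by positivity)
    obtain ⟨σ', hσ'b, hσ'⟩ := clip_slope hf.1 (by positivity) (by linarith) hσ
    refine ⟨σ', hσ', fun i => ?_, ?_⟩
    · have h1 : (2 * (d : ℝ) * n + 1) / h ≤ ⌈(2 * (d : ℝ) * n + 1) / h⌉₊ := Nat.le_ceil _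
      have h2 : ((1 : ℕ) : ℝ) * |σ' i| / h ≤ (2 * (d : ℝ) * n + 1) / h := by
        have := hσ'b i
        push_cast
        rw [one_mul]
        gcongr
      push_cast at h2 ⊢
      linarith
    · have : ∑ i, |σ' i| * (((1 : ℕ) : ℝ) - 1) = 0 := by
        refine sum_eq_zero fun i _ => ?_
        push_cast
        ring
      rw [this]
      positivity
  · intro a _ s
    have : ∑ i, (a i : ℝ) * (((s i : ℕ) : ℝ) / ((1 : ℕ) : ℝ)) = 0 := by
      refine sum_eq_zero fun i _ => ?_
      have : (s i : ℕ) = 0 := by have := (s i).2; omega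
      rw [this]
      simp
    rw [this, mul_zero, abs_zero]
    exact hτ.le

end Pool.Agent.H702.CT
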