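import Pool.Agent.H702.CT.Sound2

set_option autoImplicit false
set_option linter.unusedSectionVars false

/-!
# Completeness and the abstract tester
-/

namespace Pool.Agent.H702.CT

open Finset

variable {d : ℕ} {O : Type} [Fintype O] [Nonempty O]

/-- The possible outcomes of runs if no plane search fails. -/
def OutOK (p : Par d) (f : Pt d O → ℝ) (ℓ : (Fin d → ℤ) → ℝ) : Out (Pt d O) → Prop
  | .ok => True
  | .bot => False
  | .viol u v => u.1 ∈ p.P ∧ v = f u ∧ v + p.τ < ℓ u.1

theorem check_sure (p : Par d) (f : Pt d O → ℝ) (ℓ : (Fin d → ℤ) → ℝ) (S : Finset (Pt d O))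
    (hS : S.Nonempty) (hSP : ∀ u ∈ S, u.1 ∈ p.P) (r : ℕ) :
    (check p.τ ℓ S hS r).Sure f (OutOK p f ℓ) := by
  classical
  induction r with
  | zero => exact trivial
  | succ r ih =>
    rw [check]
    refine Prog.Sure.bind (Prog.sure_unif (S := fun u => u.1 ∈ p.P) hSP) fun u hu => ?_
    simp only [Prog.Sure]
    split_ifs with h
    · exact ⟨hu, rfl, h⟩
    · exact ih

theorem run_sure (p : Par d) (PL : Pt d O → Prog (Pt d O) (Option (Fin d → ℤ)))
    (f : Pt d O → ℝ) (ℓ : (Fin d → ℤ) → ℝ) (thr : ℕ)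
    (h : (∀ w : Pt d O, w.1 ∈ p.P → (PL w).Sure f fun o => o ≠ none) ∨ p.P.card < thr) (t : ℕ) :
    ∀ A ⊆ p.P, (run p PL thr ℓ t A).Sure f (OutOK p f ℓ) := by
  classical
  induction t with
  | zero =>
    intro A hA
    rw [run]
    split_ifs with h1
    · exact check_sure p f ℓ _ _ (fun u hu => hA (mem_product.1 hu).1) _
    · exact trivial
  | succ t ih =>
    intro A hA
    rw [run]
    by_cases h1 : (A ×ˢ (univ : Finset O)).Nonempty
    · rw [dif_pos h1]
      refine Prog.Sure.bind (check_sure p f ℓ _ _ (fun u hu => hA (mem_product.1 hu).1) _)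
        fun o ho => ?_
      cases o with
      | ok =>
        by_cases h2 : A.card < thr
        · simp only [if_pos h2]; exact trivial
        · simp only [if_neg h2]
          rcases h with h | h
          · refine Prog.Sure.bind (Prog.sure_unif (S := fun u => u.1 ∈ p.P)
              fun u hu => hA (mem_product.1 hu).1) fun w hw => ?_
            simp only [Prog.Sure]
            refine Prog.Sure.bind (h w hw) fun o' ho' => ?_
            cases o' with
            | none => exact absurd rfl ho'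
            | some a => exact ih _ ((filter_subset _ _).trans hA)
          · exact absurd (lt_of_le_of_lt (card_le_card hA) h) h2
      | bot => exact ho.elim
      | viol u v => exact ho
    · rw [dif_neg h1]
      exact trivial

theorem many_sure {X : Type} (f : X → ℝ) (c : Prog X (Out X)) (S : Out X → Prop)
    (hok : S .ok) (h : c.Sure f S) (r : ℕ) : (many c r).Sure f S := by
  induction r with
  | zero => exact hok
  | succ r ih =>
    rw [many]
    refine Prog.Sure.bind h fun o ho => ?_
    cases o with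
    | ok => exact ih
    | bot => exact ho
    | viol u v => exact ho

theorem loop_sure (p : Par d) (hτ : 0 < p.τ) (PL : Pt d O → Prog (Pt d O) (Option (Fin d → ℤ)))
    (f : Pt d O → ℝ) (thr : ℕ) (z : Fin d → ℤ) (c : ℝ)
    (h : (∀ w : Pt d O, w.1 ∈ p.P → (PL w).Sure f fun o => o ≠ none) ∨ p.P.card < thr)
    (as : Fin d → ℤ) (has : ∀ u : Pt d O, u.1 ∈ p.P → pl p.h z c as u.1 ≤ f u + p.τ / 2)
    (t : ℕ) :
    ∀ Q : Finset (Fin d → ℤ), MidClosed Q → as ∈ Q → (Q.card : ℝ) * (1 - cc d) ^ t < 1 →
      (loop p PL thr z c t Q).Sure f fun o => o ≠ none := by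
  classical
  induction t with
  | zero =>
    intro Q _ h1 h2
    have : (1 : ℝ) ≤ Q.card := by exact_mod_cast card_pos.2 ⟨_, h1⟩
    simp only [pow_zero, mul_one] at h2
    linarith
  | succ t ih =>
    intro Q hQ has' hcard
    rw [loop]
    have hex : ∃ a, Deep Q a := exists_deep hQ ⟨_, has'⟩
    rw [dif_pos hex]
    refine Prog.Sure.bind (many_sure f _ (OutOK p f (pl p.h z c hex.choose)) trivial
      (run_sure p PL f _ thr h p.T p.P (Subset.refl _)) _) fun o ho => ?_
    cases o with
    | ok => exact Option.some_ne_none _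
    | bot => exact ho.elim
    | viol u v =>
      obtain ⟨hu, hv, hlt⟩ := ho
      have haff := isAff_pl_slope p.h z c (fun i => (u.1 i : ℝ))
      have hdeep := hex.choose_spec
      set a0 := hex.choose with ha0
      have h1 := hdeep.2 (fun a' => pl p.h z c a' u.1 - (v + p.τ))
        (haff.add_const (-(v + p.τ))) (by linarith)
      set Q' := Q.filter fun a' => pl p.h z c a' u.1 ≤ v + p.τ / 2 with hQ'
      have h2 : ((Q'.card : ℕ) : ℝ) ≤ (1 - cc d) * Q.card := by
        have h3 : (Q.filter fun a' => 0 ≤ pl p.h z c a' u.1 - (v + p.τ)).card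
            ≤ (Q.filter fun a' => ¬ pl p.h z c a' u.1 ≤ v + p.τ / 2).card := by
          refine card_le_card fun a' ha' => ?_
          rw [mem_filter] at ha' ⊢
          refine ⟨ha'.1, ?_⟩
          rw [not_le]
          linarith [ha'.2]
        have h4 : Q'.card + (Q.filter fun a' => ¬ pl p.h z c a' u.1 ≤ v + p.τ / 2).card
            = Q.card := card_filter_add_card_filter_not _
        have h5 : (Q'.card : ℝ)
            + ((Q.filter fun a' => ¬ pl p.h z c a' u.1 ≤ v + p.τ / 2).card : ℝ) = Q.card := by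
          exact_mod_cast h4
        have h6 : ((Q.filter fun a' => 0 ≤ pl p.h z c a' u.1 - (v + p.τ)).card : ℝ)
            ≤ ((Q.filter fun a' => ¬ pl p.h z c a' u.1 ≤ v + p.τ / 2).card : ℝ) := by
          exact_mod_cast h3
        have h7 : cc d * Q.card
            ≤ ((Q.filter fun a' => 0 ≤ pl p.h z c a' u.1 - (v + p.τ)).card : ℝ) := by
          convert h1 using 2
        linarith
      have h3 : MidClosed Q' := hQ.filter_le haff _
      have h4 : as ∈ Q' := by
        rw [hQ', mem_filter]
        exact ⟨has', by rw [hv]; exact has u hu⟩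
      have h5 : (Q'.card : ℝ) * (1 - cc d) ^ t < 1 := by
        have h6 : 0 ≤ 1 - cc d := by have := cc_le d; linarith
        calc (Q'.card : ℝ) * (1 - cc d) ^ t ≤ ((1 - cc d) * Q.card) * (1 - cc d) ^ t := by
              gcongr
          _ = Q.card * (1 - cc d) ^ (t + 1) := by ring
          _ < 1 := hcard
      have h6 := ih Q' h3 h4 h5
      convert h6 using 2

/-- The condition for completeness. -/
structure Par.Cmp (p : Par d) (f : Pt d O → ℝ) : Prop where
  hτ : 0 < p.τ
  hQ0 : ∀ x : Pt d O, MidClosed (p.Q0 x.1 (f x))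
  hcard : ∀ x : Pt d O, ((p.Q0 x.1 (f x)).card : ℝ) * (1 - cc d) ^ p.T1 < 1
  hsupp : ∀ x : Pt d O, x.1 ∈ p.P → ∃ a ∈ p.Q0 x.1 (f x), ∀ u : Pt d O, u.1 ∈ p.P →
    pl p.h x.1 (f x) a u.1 ≤ f u + p.τ / 2

theorem plane_sure (p : Par d) (f : Pt d O → ℝ) (H : p.Cmp f) (g : ℕ) :
    ∀ x : Pt d O, x.1 ∈ p.P → (plane p (g + 1) x).Sure f fun o => o ≠ none := by
  induction g with
  | zero =>
    intro x hx
    obtain ⟨a, ha, h⟩ := H.hsupp x hx
    rw [plane]
    simp only [Prog.Sure]
    exact loop_sure p H.hτ _ f _ _ _ (Or.inr (by simp [Par.thr])) a h _ _ (H.hQ0 x) ha (H.hcard x)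
  | succ g ih =>
    intro x hx
    obtain ⟨a, ha, h⟩ := H.hsupp x hx
    rw [plane]
    simp only [Prog.Sure]
    exact loop_sure p H.hτ _ f _ _ _ (Or.inl ih) a h _ _ (H.hQ0 x) ha (H.hcard x)

/-- The tester: search planes for random points, reject if this fails. -/
noncomputable def tst (p : Par d) (g : ℕ) (S : Finset (Pt d O)) (hS : S.Nonempty) :
    ℕ → Prog (Pt d O) Bool
  | 0 => .ret true
  | L + 1 => (Prog.unif S hS).bind fun x => (plane p (g + 1) x).bind fun o => match o with
      | none => .ret false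
      | some _ => tst p g S hS L

theorem tst_queriesLE (p : Par d) (g : ℕ) (S : Finset (Pt d O)) (hS : S.Nonempty) (L : ℕ) :
    (tst p g S hS L).QueriesLE (L * p.cost (g + 1)) := by
  induction L with
  | zero => trivial
  | succ L ih =>
    have h1 : (L + 1) * p.cost (g + 1) = 0 + (p.cost (g + 1) + L * p.cost (g + 1)) := by ring
    rw [tst, h1]
    refine Prog.QueriesLE.bind (fun x => ?_) (Prog.unif_queriesLE _ _)
    refine Prog.QueriesLE.bind (fun o => ?_) (plane_queriesLE p (g + 1) x)
    cases o with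
    | none => trivial
    | some a => exact ih

theorem tst_sure (p : Par d) (f : Pt d O → ℝ) (H : p.Cmp f) (g : ℕ) (S : Finset (Pt d O))
    (hS : S.Nonempty) (hSP : ∀ u ∈ S, u.1 ∈ p.P) (L : ℕ) :
    (tst p g S hS L).Sure f fun b => b = true := by
  induction L with
  | zero => exact rfl
  | succ L ih =>
    rw [tst]
    refine Prog.Sure.bind (Prog.sure_unif (S := fun u => u.1 ∈ p.P) hSP) fun x hx => ?_
    refine Prog.Sure.bind (plane_sure p f H g x hx) fun o ho => ?_
    cases o with
    | none => exact absurd rfl ho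
    | some a => exact ih

/-- The indicator of acceptance. -/
def accI (b : Bool) : ℝ := if b then 1 else 0

/-- The indicator of `some`. -/
def someI {α : Type} (o : Option α) : ℝ := o.elim 0 fun _ => 1

theorem expect_tst (p : Par d) (f : Pt d O → ℝ) (g : ℕ) (S : Finset (Pt d O))
    (hS : S.Nonempty) (L : ℕ) : (tst p g S hS L).expect f accI
      = ((∑ x ∈ S, (plane p (g + 1) x).expect f someI) / S.card) ^ L := by
  induction L with
  | zero => simp [tst, Prog.expect, accI]
  | succ L ih =>
    rw [tst, Prog.expect_bind, Prog.expect_unif, pow_succ, ← ih, ← mul_div_assoc, mul_sum]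
    congr 1
    refine sum_congr rfl fun x _ => ?_
    rw [Prog.expect_bind, ← Prog.expect_mul]
    congr 1
    funext o
    cases o with
    | none => simp [Prog.expect, accI, someI]
    | some a => simp [someI]

open Classical in
/-- **The abstract soundness of the tester.** -/
theorem tst_sound {p : Par d} {Gt : ℕ} {lam : ℝ} (H : p.Hyp Gt lam) (f : Pt d O → ℝ)
    (θ : ℝ) (hθ : p.τ ≤ θ) (L : ℕ) {β : ℝ} (hβ : 0 < β)
    (hη : (p.T1 * (7 / 8 : ℝ) ^ p.R1) ≤ 1 / 16) (hL : 2 ≤ (15 / 16 * β) * L)
    (hlam : p.K * p.T * (Gt * lam) ≤ 5 / 64 * β)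
    (hS : (p.P ×ˢ (univ : Finset O)).Nonempty)
    (hacc : 1 / 3 < (tst p Gt (p.P ×ˢ (univ : Finset O)) hS L).expect f accI) :
    ∃ (Bad : Finset (Pt d O)) (α : Pt d O → Fin d → ℤ),
      (Bad.card : ℝ) ≤ 2 * β * (p.P ×ˢ (univ : Finset O)).card ∧
      (∀ x ∈ p.P ×ˢ (univ : Finset O), x ∉ Bad → α x ∈ p.Q0 x.1 (f x)) ∧
      ∀ x ∈ p.P ×ˢ (univ : Finset O), x ∉ Bad → ∀ y ∈ p.P ×ˢ (univ : Finset O), y ∉ Bad →
        pl p.h x.1 (f x) (α x) y.1 ≤ f y + (θ + Gt * p.τ) := by
  set S := p.P ×ˢ (univ : Finset O) with hSdef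
  have hSpos : (0 : ℝ) < S.card := by exact_mod_cast hS.card_pos
  set Y := S.filter fun y => ∃ x a, GoodPl p f Gt x a ∧ Exc p f (θ + Gt * p.τ) y x a with hY
  obtain ⟨Gd, hGd⟩ : ∃ Gd : Pt d O → Prop, ∀ x, Gd x ↔ ∃ a ∈ p.Q0 x.1 (f x), GoodPl p f Gt x a :=
    ⟨_, fun _ => Iff.rfl⟩
  set B := S.filter fun x => ¬ Gd x with hB
  have hYcard : (Y.card : ℝ) ≤ β * S.card := by
    have h1 := card_exceeded_le H f θ hθ
    rw [← hSdef, ← hY] at h1
    have h2 : p.K * p.T * (Gt * (S.card * lam)) = (p.K * p.T * (Gt * lam)) * S.card := by ring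
    rw [h2] at h1
    have h3 : (p.K * p.T * (Gt * lam)) * S.card ≤ 5 / 64 * β * S.card := by gcongr
    linarith
  have hBcard : (B.card : ℝ) ≤ β * S.card := by
    by_contra hcon
    rw [not_le] at hcon
    have h1 : ∀ x ∈ S, (plane p (Gt + 1) x).expect f someI ≤ 1 - (if x ∈ B then 15 / 16 else 0) := by
      intro x _
      split_ifs with hx
      · have h2 := plane_good p f Gt x
        have h3 : (plane p (Gt + 1) x).expect f someI ≤ (plane p (Gt + 1) x).expect f
            (fun o => o.elim 0 fun a => if a ∈ p.Q0 x.1 (f x) ∧ GoodPl p f Gt x a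
              then (0 : ℝ) else 1) := by
          refine Prog.expect_mono _ _ fun o => ?_
          cases o with
          | none => exact le_refl _
          | some a =>
            simp only [someI, Option.elim]
            rw [if_neg]
            intro h4
            exact (mem_filter.1 hx).2 ((hGd x).2 ⟨a, h4.1, h4.2⟩)
        linarith
      · rw [sub_zero]
        refine Prog.expect_le _ _ fun o => ?_
        cases o <;> simp [someI]
    have h2 : (∑ x ∈ S, (plane p (Gt + 1) x).expect f someI) / S.card ≤ 1 - 15 / 16 * β := by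
      rw [div_le_iff₀ hSpos]
      refine (sum_le_sum h1).trans ?_
      rw [sum_sub_distrib, sum_const, nsmul_eq_mul, mul_one]
      have h3 : ∑ x ∈ S, (if x ∈ B then (15 / 16 : ℝ) else 0) = B.card * (15 / 16) := by
        rw [← sum_filter, sum_const, nsmul_eq_mul]
        congr 3
        ext w
        simp only [mem_filter]
        exact ⟨fun h => h.2, fun h => ⟨(mem_filter.1 h).1, h⟩⟩
      rw [h3]
      linarith
    rw [expect_tst] at hacc
    have h0 : 0 ≤ (∑ x ∈ S, (plane p (Gt + 1) x).expect f someI) / S.card := by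
      refine div_nonneg (sum_nonneg fun x _ => Prog.expect_nonneg _ _ fun o => ?_) hSpos.le
      cases o <;> simp [someI]
    set s := (∑ x ∈ S, (plane p (Gt + 1) x).expect f someI) / S.card with hs
    set q := 15 / 16 * β with hq
    have hqpos : 0 < q := by positivity
    have h3 : s ^ L * (1 + L * q) ≤ 1 := by
      have h4 : 1 + (L : ℝ) * q ≤ (1 + q) ^ L := one_add_mul_le_pow (by linarith) L
      have h5 : (s * (1 + q)) ^ L ≤ 1 := by
        refine pow_le_one₀ (by positivity) ?_
        calc s * (1 + q) ≤ (1 - q) * (1 + q) := by gcongr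
          _ ≤ 1 := by nlinarith
      calc s ^ L * (1 + L * q) ≤ s ^ L * (1 + q) ^ L := by gcongr
        _ = (s * (1 + q)) ^ L := by rw [mul_pow]
        _ ≤ 1 := h5
    have h6 : s ^ L * 3 ≤ s ^ L * (1 + L * q) := by
      have : 0 ≤ s ^ L := by positivity
      have h7 : (3 : ℝ) ≤ 1 + L * q := by linarith
      gcongr
    linarith
  have hex : ∀ x : Pt d O, ∃ a : Fin d → ℤ, x ∈ S → x ∉ B → a ∈ p.Q0 x.1 (f x) ∧
      GoodPl p f Gt x a := by
    intro x
    by_cases hx : x ∈ S ∧ x ∉ B
    · have h1 : ∃ a ∈ p.Q0 x.1 (f x), GoodPl p f Gt x a := by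
        by_contra h2
        exact hx.2 (mem_filter.2 ⟨hx.1, fun h => h2 ((hGd x).1 h)⟩)
      obtain ⟨a, ha, hg⟩ := h1
      exact ⟨a, fun _ _ => ⟨ha, hg⟩⟩
    · exact ⟨0, fun h1 h2 => absurd ⟨h1, h2⟩ hx⟩
  choose α hα using hex
  refine ⟨B ∪ Y, α, ?_, ?_, ?_⟩
  · have h1 : ((B ∪ Y).card : ℝ) ≤ B.card + Y.card := by exact_mod_cast card_union_le _ _
    linarith
  · intro x hx hxB
    exact (hα x hx fun h => hxB (mem_union_left _ h)).1
  · intro x hx hxB y hy hyB
    by_contra hcon
    rw [not_le] at hcon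
    exact hyB (mem_union_right _ (mem_filter.2 ⟨hy, x, α x,
      (hα x hx fun h => hxB (mem_union_left _ h)).2, hcon⟩))

end Pool.Agent.H702.CT
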