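import Mathlib

set_option autoImplicit false

/-!
# Deep points of sets of lattice points that are closed under integral midpoints
-/

namespace Pool.Agent.H702.CT

open Finset

variable {d : ℕ}

/-- `m` is the midpoint of `a` and `b`. -/
def IsMid (m a b : Fin d → ℤ) : Prop := ∀ i, 2 * m i = a i + b i

/-- Closed under integral midpoints. -/
def MidClosed (A : Finset (Fin d → ℤ)) : Prop := ∀ a ∈ A, ∀ b ∈ A, ∀ m, IsMid m a b → m ∈ A

/-- Midpoint-affine functions. -/
def IsAff (h : (Fin d → ℤ) → ℝ) : Prop := ∀ m a b, IsMid m a b → 2 * h m = h a + h b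

theorem IsAff.sub {h g : (Fin d → ℤ) → ℝ} (hh : IsAff h) (hg : IsAff g) :
    IsAff fun x => h x - g x := by
  intro m a b hm
  have := hh m a b hm
  have := hg m a b hm
  simp only
  linarith

theorem IsAff.add_const {h : (Fin d → ℤ) → ℝ} (hh : IsAff h) (r : ℝ) :
    IsAff fun x => h x + r := by
  intro m a b hm
  have := hh m a b hm
  simp only
  linarith

theorem MidClosed.filter_lt {A : Finset (Fin d → ℤ)} (hA : MidClosed A)
    {h : (Fin d → ℤ) → ℝ} (hh : IsAff h) (r : ℝ) : MidClosed (A.filter fun x => h x < r) := by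
  intro a ha b hb m hm
  simp only [mem_filter] at ha hb ⊢
  have := hh m a b hm
  exact ⟨hA a ha.1 b hb.1 m hm, by linarith [ha.2, hb.2]⟩

theorem MidClosed.filter_le {A : Finset (Fin d → ℤ)} (hA : MidClosed A)
    {h : (Fin d → ℤ) → ℝ} (hh : IsAff h) (r : ℝ) : MidClosed (A.filter fun x => h x ≤ r) := by
  intro a ha b hb m hm
  simp only [mem_filter] at ha hb ⊢
  have := hh m a b hm
  exact ⟨hA a ha.1 b hb.1 m hm, by linarith [ha.2, hb.2]⟩

/-- The proportion of points which every half-space containing a deep point must contain. -/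
noncomputable def cc (d : ℕ) : ℝ := (1 / 2) ^ (d + 2)

theorem cc_pos (d : ℕ) : 0 < cc d := by unfold cc; positivity

theorem cc_le (d : ℕ) : cc d ≤ 1 / 4 := by
  unfold cc
  rw [pow_add]
  have : ((1 : ℝ) / 2) ^ d ≤ 1 := pow_le_one₀ (by norm_num) (by norm_num)
  nlinarith

/-- `w` is a deep point of `A`: every half-space that contains `w` contains at least the proportion
`cc d` of the points of `A`. -/
def Deep (A : Finset (Fin d → ℤ)) (w : Fin d → ℤ) : Prop :=
  w ∈ A ∧ ∀ h : (Fin d → ℤ) → ℝ, IsAff h → 0 ≤ h w →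
    cc d * A.card ≤ (A.filter fun x => 0 ≤ h x).card

theorem card_pairs (A : Finset (Fin d → ℤ)) :
    (A.card : ℝ) ^ 2 ≤ 2 ^ d *
      ((A ×ˢ A).filter fun p => ∀ i, ((p.1 i : ZMod 2)) = (p.2 i : ZMod 2)).card := by
  classical
  set par : (Fin d → ℤ) → (Fin d → ZMod 2) := fun a i => (a i : ZMod 2) with hpar
  have h1 : ((A ×ˢ A).filter fun p => ∀ i, ((p.1 i : ZMod 2)) = (p.2 i : ZMod 2)).card
      = ∑ κ : Fin d → ZMod 2, (A.filter fun a => par a = κ).card ^ 2 := by
    rw [card_eq_sum_card_fiberwise (f := fun p => par p.1) (t := univ) (by intro _ _; simp)]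
    refine sum_congr rfl fun κ _ => ?_
    rw [sq, ← card_product]
    congr 1
    ext p
    simp only [mem_filter, mem_product, hpar]
    constructor
    · rintro ⟨⟨⟨h1, h2⟩, h3⟩, h4⟩
      refine ⟨⟨h1, h4⟩, h2, ?_⟩
      rw [← h4]; funext i; exact (h3 i).symm
    · rintro ⟨⟨h1, h4⟩, h2, h5⟩
      refine ⟨⟨⟨h1, h2⟩, fun i => ?_⟩, h4⟩
      exact (congrFun h4 i).trans (congrFun h5 i).symm
  have h2 : A.card = ∑ κ : Fin d → ZMod 2, (A.filter fun a => par a = κ).card :=
    card_eq_sum_card_fiberwise (f := par) (t := univ) (by intro _ _; simp)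
  have h3 := sq_sum_le_card_mul_sum_sq (s := (univ : Finset (Fin d → ZMod 2)))
    (f := fun κ => ((A.filter fun a => par a = κ).card : ℝ))
  have h4 : (univ : Finset (Fin d → ZMod 2)).card = 2 ^ d := by
    simp [ZMod.card]
  rw [h4] at h3
  rw [h1]
  push_cast at h3 ⊢
  calc (A.card : ℝ) ^ 2 = (∑ κ : Fin d → ZMod 2, ((A.filter fun a => par a = κ).card : ℝ)) ^ 2 := by
        rw [h2]; push_cast; rfl
    _ ≤ _ := h3

open Classical in
/-- **Deep points.** At least the proportion `2 cc d` of the points of a finite set that is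
closed under integral midpoints are deep. -/
theorem card_deep {A : Finset (Fin d → ℤ)} (hA : MidClosed A) :
    2 * cc d * A.card ≤ (A.filter fun w => Deep A w).card := by
  rcases A.eq_empty_or_nonempty with h0 | hne
  · subst h0; simp
  set N : ℝ := (A.card : ℝ) with hN
  have hNpos : 0 < N := by simpa [hN] using hne.card_pos
  set D := A.filter fun w => Deep A w with hD
  set E := A.filter fun w => ¬ Deep A w with hE
  set Q := (A ×ˢ A).filter fun p => ∀ i, ((p.1 i : ZMod 2)) = (p.2 i : ZMod 2) with hQ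
  -- the midpoint
  set mid : (Fin d → ℤ) × (Fin d → ℤ) → (Fin d → ℤ) := fun p i => (p.1 i + p.2 i) / 2 with hmid
  have hmidp : ∀ p ∈ Q, IsMid (mid p) p.1 p.2 := by
    intro p hp i
    have h1 := (mem_filter.1 hp).2 i
    have h2 : ((p.1 i + p.2 i : ℤ) : ZMod 2) = 0 := by
      push_cast
      rw [h1]
      exact CharTwo.add_self_eq_zero _
    have h3 : (2 : ℤ) ∣ p.1 i + p.2 i := by
      have := (ZMod.intCast_zmod_eq_zero_iff_dvd (p.1 i + p.2 i) 2).1 h2
      exact_mod_cast this
    simp only [hmid]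
    omega
  have hmidA : ∀ p ∈ Q, mid p ∈ A := by
    intro p hp
    have h1 := mem_product.1 (mem_filter.1 hp).1
    exact hA _ h1.1 _ h1.2 _ (hmidp p hp)
  -- pairs determined by midpoint and one end
  have hfib1 : ∀ m : Fin d → ℤ, Set.InjOn (fun p : (Fin d → ℤ) × (Fin d → ℤ) => p.1)
      (Q.filter fun p => mid p = m : Finset _) := by
    intro m p hp q hq hpq
    simp only [coe_filter, Set.mem_ofPred_eq] at hp hq
    have h1 := hmidp p hp.1
    have h2 := hmidp q hq.1
    rw [hp.2] at h1
    rw [hq.2] at h2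
    ext i
    · exact congrFun hpq i
    · have := h1 i; have := h2 i; have := congrFun hpq i; simp only at this; omega
  have hfib2 : ∀ m : Fin d → ℤ, Set.InjOn (fun p : (Fin d → ℤ) × (Fin d → ℤ) => p.2)
      (Q.filter fun p => mid p = m : Finset _) := by
    intro m p hp q hq hpq
    simp only [coe_filter, Set.mem_ofPred_eq] at hp hq
    have h1 := hmidp p hp.1
    have h2 := hmidp q hq.1
    rw [hp.2] at h1
    rw [hq.2] at h2
    ext i
    · have := h1 i; have := h2 i; have := congrFun hpq i; simp only at this; omega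
    · exact congrFun hpq i
  -- fibers over arbitrary points
  have hall : ∀ m, ((Q.filter fun p => mid p = m).card : ℝ) ≤ N := by
    intro m
    have : (Q.filter fun p => mid p = m).card ≤ A.card := by
      refine card_le_card_of_injOn (fun p => p.1) ?_ (hfib1 m)
      intro p hp
      have h1 := mem_product.1 (mem_filter.1 (mem_filter.1 hp).1).1
      exact h1.1
    rw [hN]
    exact_mod_cast this
  -- fibers over shallow points
  have hshallow : ∀ m ∈ E, ((Q.filter fun p => mid p = m).card : ℝ) ≤ 2 * cc d * N := by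
    intro m hm
    have h1 := (mem_filter.1 hm)
    have h2 : ∃ h : (Fin d → ℤ) → ℝ, IsAff h ∧ 0 ≤ h m ∧
        ((A.filter fun x => 0 ≤ h x).card : ℝ) < cc d * A.card := by
      by_contra hcon
      push Not at hcon
      exact h1.2 ⟨h1.1, hcon⟩
    obtain ⟨h, haff, h0, hlt⟩ := h2
    have h3 : (Q.filter fun p => mid p = m).card ≤
        (A.filter fun x => 0 ≤ h x).card + (A.filter fun x => 0 ≤ h x).card := by
      have hsub : (Q.filter fun p => mid p = m) ⊆
          ((Q.filter fun p => mid p = m).filter fun p => 0 ≤ h p.1) ∪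
          ((Q.filter fun p => mid p = m).filter fun p => 0 ≤ h p.2) := by
        intro p hp
        have hp' := mem_filter.1 hp
        have h4 := haff _ _ _ (hmidp p hp'.1)
        rw [hp'.2] at h4
        rcases le_or_gt 0 (h p.1) with h5 | h5
        · exact mem_union_left _ (mem_filter.2 ⟨hp, h5⟩)
        · exact mem_union_right _ (mem_filter.2 ⟨hp, by linarith⟩)
      refine (card_le_card hsub).trans ((card_union_le _ _).trans (add_le_add ?_ ?_))
      · refine card_le_card_of_injOn (fun p => p.1) ?_ ((hfib1 m).mono ?_)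
        · intro p hp
          have h4 := mem_filter.1 hp
          have h5 := mem_product.1 (mem_filter.1 (mem_filter.1 h4.1).1).1
          exact mem_filter.2 ⟨h5.1, h4.2⟩
        · intro p hp
          exact (mem_filter.1 hp).1
      · refine card_le_card_of_injOn (fun p => p.2) ?_ ((hfib2 m).mono ?_)
        · intro p hp
          have h4 := mem_filter.1 hp
          have h5 := mem_product.1 (mem_filter.1 (mem_filter.1 h4.1).1).1
          exact mem_filter.2 ⟨h5.2, h4.2⟩
        · intro p hp
          exact (mem_filter.1 hp).1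
    have h4 : ((Q.filter fun p => mid p = m).card : ℝ) ≤
        (A.filter fun x => 0 ≤ h x).card + (A.filter fun x => 0 ≤ h x).card := by
      exact_mod_cast h3
    linarith
  have hQsum : (Q.card : ℝ) = ∑ m ∈ A, ((Q.filter fun p => mid p = m).card : ℝ) := by
    rw [card_eq_sum_card_fiberwise (f := mid) (t := A) hmidA]
    push_cast; rfl
  have hsplit : ∑ m ∈ A, ((Q.filter fun p => mid p = m).card : ℝ)
      = ∑ m ∈ D, ((Q.filter fun p => mid p = m).card : ℝ)
        + ∑ m ∈ E, ((Q.filter fun p => mid p = m).card : ℝ) := by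
    rw [hD, hE, sum_filter_add_sum_filter_not]
  have h5 : ∑ m ∈ D, ((Q.filter fun p => mid p = m).card : ℝ) ≤ D.card * N := by
    refine (sum_le_card_nsmul _ _ _ fun m _ => hall m).trans ?_
    rw [nsmul_eq_mul]
  have h6 : ∑ m ∈ E, ((Q.filter fun p => mid p = m).card : ℝ) ≤ N * (2 * cc d * N) := by
    refine (sum_le_card_nsmul _ _ _ fun m hm => hshallow m hm).trans ?_
    rw [nsmul_eq_mul]
    have : (E.card : ℝ) ≤ N := by
      have := card_le_card (filter_subset (fun w => ¬ Deep A w) A)
      rw [hN]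
      exact_mod_cast this
    have h7 : 0 ≤ 2 * cc d * N := by have := cc_pos d; positivity
    nlinarith
  have h7 := card_pairs A
  have h8 : (2 : ℝ) ^ d * cc d = 1 / 4 := by
    unfold cc
    rw [pow_add, ← mul_assoc, ← mul_pow]
    norm_num
  have h9 : (0 : ℝ) < 2 ^ d := by positivity
  -- N^2 ≤ 2^d * Q ≤ 2^d (D N + 2 c N^2)
  have h10 : N ^ 2 ≤ 2 ^ d * (D.card * N + N * (2 * cc d * N)) := by
    refine h7.trans ?_
    rw [← hQ, hQsum, hsplit]
    gcongr
  have h11 : N ^ 2 ≤ 2 ^ d * D.card * N + N ^ 2 / 2 := by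
    have : 2 ^ d * (N * (2 * cc d * N)) = N ^ 2 / 2 := by
      calc 2 ^ d * (N * (2 * cc d * N)) = 2 * (2 ^ d * cc d) * N ^ 2 := by ring
        _ = N ^ 2 / 2 := by rw [h8]; ring
    nlinarith
  have h12 : N ≤ 2 * 2 ^ d * D.card := by
    have : N * N ≤ (2 * 2 ^ d * D.card) * N := by nlinarith
    exact le_of_mul_le_mul_right this hNpos
  have h13 : 2 * cc d * N ≤ 2 * cc d * (2 * 2 ^ d * D.card) := by
    have := cc_pos d
    gcongr
  calc 2 * cc d * N ≤ 2 * cc d * (2 * 2 ^ d * D.card) := h13
    _ = 4 * (2 ^ d * cc d) * D.card := by ring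
    _ = D.card := by rw [h8]; ring

theorem exists_deep {A : Finset (Fin d → ℤ)} (hA : MidClosed A) (hne : A.Nonempty) :
    ∃ w, Deep A w := by
  classical
  have h1 := card_deep hA
  have h2 : 0 < (A.filter fun w => Deep A w).card := by
    have h3 : (0 : ℝ) < 2 * cc d * A.card := by
      have := cc_pos d
      have : (0 : ℝ) < A.card := by exact_mod_cast hne.card_pos
      positivity
    have : (0 : ℝ) < (A.filter fun w => Deep A w).card := by
      refine lt_of_lt_of_le h3 ?_
      convert h1 using 2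
    exact_mod_cast this
  obtain ⟨w, hw⟩ := card_pos.1 h2
  exact ⟨w, (mem_filter.1 hw).2⟩

end Pool.Agent.H702.CT
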