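import Pool.Agent.H702.CT.Prog
import Pool.Agent.H702.CT.Deep

set_option autoImplicit false

/-!
# The plane finding program
-/

namespace Pool.Agent.H702.CT

open Finset

namespace Prog

variable {X α β : Type}

/-- All possible results on the input function `f` satisfy `S`. -/
def Sure (f : X → ℝ) : Prog X α → (α → Prop) → Prop
  | ret a, S => S a
  | query x k, S => (k (f x)).Sure f S
  | toss _ k, S => ∀ i, (k i).Sure f S

theorem Sure.mono {f : X → ℝ} {c : Prog X α} {S S' : α → Prop} (h : c.Sure f S)
    (hS : ∀ a, S a → S' a) : c.Sure f S' := by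
  induction c with
  | ret a => exact hS _ h
  | query x k ih => exact ih _ h
  | toss m k ih => exact fun i => ih i (h i)

theorem Sure.bind {f : X → ℝ} {c : Prog X α} {g : α → Prog X β} {S : α → Prop} {S' : β → Prop}
    (h : c.Sure f S) (hg : ∀ a, S a → (g a).Sure f S') : (c.bind g).Sure f S' := by
  induction c with
  | ret a => exact hg _ h
  | query x k ih => exact ih _ h
  | toss m k ih => exact fun i => ih i (h i)

theorem sure_unif {f : X → ℝ} {s : Finset α} {hs : s.Nonempty} {S : α → Prop}
    (h : ∀ a ∈ s, S a) : (unif s hs : Prog X α).Sure f S :=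
  fun _ => h _ (Subtype.prop _)

theorem Sure.and {f : X → ℝ} {c : Prog X α} {S S' : α → Prop} (h : c.Sure f S)
    (h' : c.Sure f S') : c.Sure f fun a => S a ∧ S' a := by
  induction c with
  | ret a => exact ⟨h, h'⟩
  | query x k ih => exact ih _ h h'
  | toss m k ih => exact fun i => ih i (h i) (h' i)

theorem sure_true (f : X → ℝ) (c : Prog X α) : c.Sure f fun _ => True := by
  induction c with
  | ret a => trivial
  | query x k ih => exact ih _
  | toss m k ih => exact fun i => ih i

theorem Sure.expect_mono {f : X → ℝ} {c : Prog X α} {S : α → Prop} (h : c.Sure f S)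
    {φ ψ : α → ℝ} (hS : ∀ a, S a → φ a ≤ ψ a) : c.expect f φ ≤ c.expect f ψ := by
  induction c with
  | ret a => exact hS _ h
  | query x k ih => exact ih _ h
  | toss m k ih =>
    simp only [expect]
    gcongr with i
    exact ih i (h i)

end Prog

variable {d : ℕ} {O : Type}

/-- Points: a lattice point and an offset. -/
abbrev Pt (d : ℕ) (O : Type) : Type := (Fin d → ℤ) × O

/-- The affine function with slopes `h a` and the value `c` at `z`. -/
noncomputable def plR (h : ℝ) (z : Fin d → ℤ) (c : ℝ) (a : Fin d → ℤ) (x : Fin d → ℝ) : ℝ :=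
  c + h * ∑ i, (a i : ℝ) * (x i - z i)

/-- The same function on lattice points. -/
noncomputable def pl (h : ℝ) (z : Fin d → ℤ) (c : ℝ) (a k : Fin d → ℤ) : ℝ :=
  plR h z c a fun i => (k i : ℝ)

theorem pl_self (h : ℝ) (z : Fin d → ℤ) (c : ℝ) (a : Fin d → ℤ) : pl h z c a z = c := by
  simp [pl, plR]

theorem isAff_pl (h : ℝ) (z : Fin d → ℤ) (c : ℝ) (a : Fin d → ℤ) : IsAff (pl h z c a) := by
  intro m x y hm
  have h1 : ∀ i, (2 : ℝ) * m i = x i + y i := fun i => by exact_mod_cast hm i
  have h2 : 2 * ∑ i, (a i : ℝ) * ((m i : ℝ) - z i)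
      = ∑ i, (a i : ℝ) * ((x i : ℝ) - z i) + ∑ i, (a i : ℝ) * ((y i : ℝ) - z i) := by
    rw [mul_sum, ← sum_add_distrib]
    refine sum_congr rfl fun i _ => ?_
    linear_combination (a i : ℝ) * h1 i
  simp only [pl, plR]
  linear_combination h * h2

theorem isAff_pl_slope (h : ℝ) (z : Fin d → ℤ) (c : ℝ) (x : Fin d → ℝ) :
    IsAff fun a => plR h z c a x := by
  intro m a b hm
  have h1 : ∀ i, (2 : ℝ) * m i = a i + b i := fun i => by exact_mod_cast hm i
  have h2 : 2 * ∑ i, (m i : ℝ) * (x i - z i)
      = ∑ i, (a i : ℝ) * (x i - z i) + ∑ i, (b i : ℝ) * (x i - z i) := by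
    rw [mul_sum, ← sum_add_distrib]
    refine sum_congr rfl fun i _ => ?_
    linear_combination (x i - z i) * h1 i
  simp only [plR]
  linear_combination h * h2

/-- The parameters of the program. -/
structure Par (d : ℕ) where
  /-- the lattice points -/
  P : Finset (Fin d → ℤ)
  /-- the candidates for slopes at a lattice point with a given value -/
  Q0 : (Fin d → ℤ) → ℝ → Finset (Fin d → ℤ)
  /-- the unit of the slopes -/
  h : ℝ
  /-- the tolerance -/
  τ : ℝ
  /-- the ratio of the thresholds of successive generations -/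
  K : ℕ
  /-- samples per set -/
  R : ℕ
  /-- repetitions of a run -/
  R1 : ℕ
  /-- stages of a run -/
  T : ℕ
  /-- number of candidates which are tried -/
  T1 : ℕ

/-- The threshold of the generation `g + 1`. -/
def Par.thr (p : Par d) (g : ℕ) : ℕ := p.P.card / p.K ^ g + 1

/-- The outcome of a run. -/
inductive Out (X : Type) : Type
  | ok : Out X
  | bot : Out X
  | viol (u : X) (v : ℝ) : Out X

open Classical in
/-- Check the function `ℓ` at `r` random points of `S`. -/
noncomputable def check (τ : ℝ) (ℓ : (Fin d → ℤ) → ℝ) (S : Finset (Pt d O)) (hS : S.Nonempty) :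
    ℕ → Prog (Pt d O) (Out (Pt d O))
  | 0 => .ret .ok
  | r + 1 => (Prog.unif S hS).bind fun u => .query u fun v =>
      if v + τ < ℓ u.1 then .ret (.viol u v) else check τ ℓ S hS r

variable [Fintype O]

open Classical in
/-- A run: `ℓ` is checked at random points of the nested sets. -/
noncomputable def run (p : Par d) (PL : Pt d O → Prog (Pt d O) (Option (Fin d → ℤ))) (thr : ℕ)
    (ℓ : (Fin d → ℤ) → ℝ) : ℕ → Finset (Fin d → ℤ) → Prog (Pt d O) (Out (Pt d O))
  | 0, A => if hA : (A ×ˢ (univ : Finset O)).Nonempty then check p.τ ℓ _ hA p.R else .ret .ok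
  | t + 1, A => if hA : (A ×ˢ (univ : Finset O)).Nonempty then
      (check p.τ ℓ _ hA p.R).bind fun o => match o with
        | .ok => if A.card < thr then .ret .ok else
            (Prog.unif _ hA).bind fun w => .query w fun c => (PL w).bind fun o' => match o' with
              | none => .ret .bot
              | some a => run p PL thr ℓ t (A.filter fun v => pl p.h w.1 c a v < ℓ v - p.τ)
        | .bot => .ret .bot
        | .viol u v => .ret (.viol u v)
    else .ret .ok

/-- Repeat until the outcome is not `ok`. -/
def many {X : Type} (c : Prog X (Out X)) : ℕ → Prog X (Out X)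
  | 0 => .ret .ok
  | r + 1 => c.bind fun o => match o with
      | .ok => many c r
      | .bot => .ret .bot
      | .viol u v => .ret (.viol u v)

open Classical in
/-- Search for a slope. -/
noncomputable def loop (p : Par d) (PL : Pt d O → Prog (Pt d O) (Option (Fin d → ℤ))) (thr : ℕ)
    (z : Fin d → ℤ) (c : ℝ) : ℕ → Finset (Fin d → ℤ) → Prog (Pt d O) (Option (Fin d → ℤ))
  | 0, _ => .ret none
  | t + 1, Q => if hQ : ∃ a, Deep Q a then
      (many (run p PL thr (pl p.h z c hQ.choose) p.T p.P) p.R1).bind fun o => match o with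
        | .ok => .ret (some hQ.choose)
        | .bot => .ret none
        | .viol u v => loop p PL thr z c t (Q.filter fun a' => pl p.h z c a' u.1 ≤ v + p.τ / 2)
    else .ret none

/-- The plane finding program of generation `g`. -/
noncomputable def plane (p : Par d) : ℕ → Pt d O → Prog (Pt d O) (Option (Fin d → ℤ))
  | 0, _ => .ret none
  | g + 1, x => .query x fun c => loop p (plane p g) (p.thr g) x.1 c p.T1 (p.Q0 x.1 c)

/-! ### Numbers of queries -/

theorem check_queriesLE (τ : ℝ) (ℓ : (Fin d → ℤ) → ℝ) (S : Finset (Pt d O)) (hS : S.Nonempty)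
    (r : ℕ) : (check τ ℓ S hS r).QueriesLE r := by
  induction r with
  | zero => trivial
  | succ r ih =>
    rw [check]
    have h1 : r + 1 = 0 + (r + 1) := by omega
    rw [h1]
    refine Prog.QueriesLE.bind (fun u => ?_) (Prog.unif_queriesLE _ _)
    intro v
    beta_reduce
    split_ifs
    · trivial
    · exact ih

theorem run_queriesLE (p : Par d) {PL : Pt d O → Prog (Pt d O) (Option (Fin d → ℤ))} {q : ℕ}
    (hPL : ∀ w, (PL w).QueriesLE q) (thr : ℕ) (ℓ : (Fin d → ℤ) → ℝ) (t : ℕ) :
    ∀ A, (run p PL thr ℓ t A).QueriesLE (p.R + t * (p.R + 1 + q)) := by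
  induction t with
  | zero =>
    intro A
    rw [run]
    split_ifs
    · simpa using check_queriesLE _ _ _ _ _
    · trivial
  | succ t ih =>
    intro A
    rw [run]
    by_cases hA : (A ×ˢ (univ : Finset O)).Nonempty
    · rw [dif_pos hA]
      refine Prog.QueriesLE.bind (q' := (t + 1) * (p.R + 1 + q)) (fun o => ?_)
        (check_queriesLE _ _ _ _ _)
      cases o with
      | ok =>
        simp only
        split_ifs
        · trivial
        · have h1 : (t + 1) * (p.R + 1 + q) = 0 + ((t + 1) * (p.R + 1 + q) - 1 + 1) := by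
            have : 1 ≤ (t + 1) * (p.R + 1 + q) := Nat.one_le_iff_ne_zero.2 (by positivity)
            omega
          rw [h1]
          refine Prog.QueriesLE.bind (fun w => ?_) (Prog.unif_queriesLE _ _)
          intro c
          have h2 : (t + 1) * (p.R + 1 + q) - 1 = q + (p.R + t * (p.R + 1 + q)) := by
            have : (t + 1) * (p.R + 1 + q) = t * (p.R + 1 + q) + (p.R + 1 + q) := by ring
            omega
          rw [h2]
          refine Prog.QueriesLE.bind (fun o' => ?_) (hPL w)
          cases o' with
          | none => trivial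
          | some a => exact ih _
      | bot => trivial
      | viol u v => trivial
    · rw [dif_neg hA]
      trivial

theorem many_queriesLE {X : Type} {c : Prog X (Out X)} {q : ℕ} (hc : c.QueriesLE q) (r : ℕ) :
    (many c r).QueriesLE (r * q) := by
  induction r with
  | zero => trivial
  | succ r ih =>
    have h1 : (r + 1) * q = q + r * q := by ring
    rw [many, h1]
    refine Prog.QueriesLE.bind (fun o => ?_) hc
    cases o with
    | ok => exact ih
    | bot => trivial
    | viol u v => trivial

theorem loop_queriesLE (p : Par d) {PL : Pt d O → Prog (Pt d O) (Option (Fin d → ℤ))} {q : ℕ}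
    (hPL : ∀ w, (PL w).QueriesLE q) (thr : ℕ) (z : Fin d → ℤ) (c : ℝ) (t : ℕ) :
    ∀ Q, (loop p PL thr z c t Q).QueriesLE (t * (p.R1 * (p.R + p.T * (p.R + 1 + q)))) := by
  induction t with
  | zero => intro Q; trivial
  | succ t ih =>
    intro Q
    rw [loop]
    split_ifs with hQ
    · have h1 : (t + 1) * (p.R1 * (p.R + p.T * (p.R + 1 + q)))
          = p.R1 * (p.R + p.T * (p.R + 1 + q)) + t * (p.R1 * (p.R + p.T * (p.R + 1 + q))) := by
        ring
      rw [h1]
      refine Prog.QueriesLE.bind (fun o => ?_) (many_queriesLE (run_queriesLE p hPL _ _ _ _) _)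
      cases o with
      | ok => trivial
      | bot => trivial
      | viol u v => exact ih _
    · trivial

/-- The bound for the number of queries of the plane finding program. -/
def Par.cost (p : Par d) : ℕ → ℕ
  | 0 => 0
  | g + 1 => p.T1 * (p.R1 * (p.R + p.T * (p.R + 1 + p.cost g))) + 1

theorem plane_queriesLE (p : Par d) (g : ℕ) (x : Pt d O) :
    (plane p g x).QueriesLE (p.cost g) := by
  induction g generalizing x with
  | zero => trivial
  | succ g ih =>
    intro v
    exact loop_queriesLE p ih _ _ _ _ _

end Pool.Agent.H702.CT
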