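import Mathlib

set_option autoImplicit false

/-!
# Definitions: randomized adaptive query programs and testing of convexity in the `L1` distance
-/

namespace Pool.Agent.H702.CT

/-- A randomized adaptive query program with query points in `X` and results in `α`: it stops with
a result, or it asks for the value of the input function at a point and continues depending on this
real number, or it tosses a fair die with `m + 1` sides and continues depending on the outcome. -/
inductive Prog (X α : Type) : Type
  | ret (a : α) : Prog X α
  | query (x : X) (next : ℝ → Prog X α) : Prog X α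
  | toss (m : ℕ) (next : Fin (m + 1) → Prog X α) : Prog X α

namespace Prog

variable {X α : Type}

/-- The expectation of `φ (result)` on the input function `f`. -/
noncomputable def expect (f : X → ℝ) : Prog X α → (α → ℝ) → ℝ
  | ret a, φ => φ a
  | query x k, φ => (k (f x)).expect f φ
  | toss m k, φ => (∑ i, (k i).expect f φ) / ((m : ℝ) + 1)

/-- The program makes at most `q` queries, whatever the answers and the outcomes of the tosses. -/
def QueriesLE : Prog X α → ℕ → Prop
  | ret _, _ => True
  | query _ _, 0 => False
  | query _ k, q + 1 => ∀ v, (k v).QueriesLE q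
  | toss _ k, q => ∀ i, (k i).QueriesLE q

/-- The probability that the program returns `b` on the input function `f`. -/
noncomputable def prob (T : Prog X Bool) (f : X → ℝ) (b : Bool) : ℝ :=
  T.expect f fun r => if r = b then 1 else 0

end Prog

variable {n d : ℕ}

/-- Convex functions on the grid `[n]^d` with values in `[0,1]`; the element `x` of
`Fin d → Fin n` stands for the point `(x i + 1)_i` of `[n]^d`. -/
def ConvexFn (f : (Fin d → Fin n) → ℝ) : Prop :=
  (∀ x, 0 ≤ f x ∧ f x ≤ 1) ∧ ∃ F : (Fin d → ℝ) → ℝ,
    ConvexOn ℝ (Set.Icc (fun _ => (1 : ℝ)) (fun _ => (n : ℝ))) F ∧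
    ∀ x, f x = F fun i => ((x i : ℕ) : ℝ) + 1

/-- The normalized `L1` distance. -/
noncomputable def dist1 (f g : (Fin d → Fin n) → ℝ) : ℝ := (∑ x, |f x - g x|) / (n : ℝ) ^ d

/-- `f` is `ε`-far from the convex functions. -/
def Far (ε : ℝ) (f : (Fin d → Fin n) → ℝ) : Prop := ∀ g, ConvexFn g → ε ≤ dist1 f g

/-- `T` is an `L1` tester for convexity with parameter `ε` and one-sided error: every convex
function with values in `[0,1]` is accepted with probability `1`, and every function with values in
`[0,1]` which is `ε`-far from convex is rejected with probability at least `2 / 3`. -/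
def IsOneSidedTester (ε : ℝ) (T : Prog (Fin d → Fin n) Bool) : Prop :=
  (∀ f, ConvexFn f → T.prob f true = 1) ∧
    ∀ f, (∀ x, 0 ≤ f x ∧ f x ≤ 1) → Far ε f → 2 / 3 ≤ T.prob f false

end Pool.Agent.H702.CT
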