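import Pool.Agent.H702.CT.Geo

set_option autoImplicit false
set_option linter.unusedSectionVars false

/-!
# From the abstract tester to the grid
-/

namespace Pool.Agent.H702.CT

open Finset

variable {n d : ℕ}

theorem convexOn_affine (D : Set (Fin d → ℝ)) (hD : Convex ℝ D) (r : ℝ) (w : Fin d → ℝ) :
    ConvexOn ℝ D fun v => r + ∑ i, w i * v i := by
  refine ⟨hD, fun x _ y _ a b _ _ hab => le_of_eq ?_⟩
  simp only [Pi.add_apply, Pi.smul_apply, smul_eq_mul]
  have h1 : ∑ i, w i * (a * x i + b * y i) = a * ∑ i, w i * x i + b * ∑ i, w i * y i := by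
    rw [mul_sum, mul_sum, ← sum_add_distrib]
    exact sum_congr rfl fun i _ => by ring
  rw [h1]
  linear_combination (-r) * hab

/-- The maximum of finitely many convex functions and zero. -/
theorem exists_max {ι : Type} (D : Set (Fin d → ℝ)) (hD : Convex ℝ D) (s : Finset ι)
    (φ : ι → (Fin d → ℝ) → ℝ) (hφ : ∀ i ∈ s, ConvexOn ℝ D (φ i)) :
    ∃ Φ : (Fin d → ℝ) → ℝ, ConvexOn ℝ D Φ ∧ (∀ v, 0 ≤ Φ v) ∧ (∀ i ∈ s, ∀ v, φ i v ≤ Φ v) ∧
      ∀ v B, 0 ≤ B → (∀ i ∈ s, φ i v ≤ B) → Φ v ≤ B := by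
  classical
  induction s using Finset.induction_on with
  | empty =>
    exact ⟨fun _ => 0, convexOn_const 0 hD, fun _ => le_refl _, by simp, fun v B hB _ => hB⟩
  | insert i s hi ih =>
    obtain ⟨Φ, h1, h2, h3, h4⟩ := ih fun j hj => hφ j (mem_insert_of_mem hj)
    refine ⟨fun v => max (φ i v) (Φ v), ?_, fun v => ?_, fun j hj v => ?_, fun v B hB h => ?_⟩
    · exact (hφ i (mem_insert_self _ _)).sup h1
    · exact le_max_of_le_right (h2 v)
    · rcases mem_insert.1 hj with h | h
      · subst h; exact le_max_left _ _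
      · exact le_max_of_le_right (h3 j h v)
    · exact max_le (h i (mem_insert_self _ _)) (h4 v B hB fun j hj => h j (mem_insert_of_mem hj))

/-- The tester on the grid. -/
theorem tester_works {b m N Λ Gt L : ℕ} {lam ε : ℝ} (p : Par d)
    (H : Geom n d b m N Λ p.h p.τ) (hP : p.P = box d m N)
    (hQ : p.Q0 = fun k c => slopes n d b Λ p.h p.τ k c)
    (HH : p.Hyp Gt lam) (hε : 0 < ε) (hε1 : ε < 1)
    (hT1 : (((2 * Λ + 1) ^ d : ℕ) : ℝ) * (1 - cc d) ^ p.T1 < 1)
    (hη : (p.T1 * (7 / 8 : ℝ) ^ p.R1) ≤ 1 / 16) (hL : 2 ≤ (15 / 16 * (ε / 8)) * L)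
    (hlam : p.K * p.T * (Gt * lam) ≤ 5 / 64 * (ε / 8))
    (hτ : p.τ ≤ ε / 2 - Gt * p.τ) (hτ2 : 4 * p.τ ≤ ε)
    (hout : (1 - ε / 8) * (n : ℝ) ^ d ≤ (((N - 2 * m) * b) ^ d : ℕ)) :
    ∃ Te : Prog (Fin d → Fin n) Bool, Te.QueriesLE (L * p.cost (Gt + 1)) ∧
      (∀ f, ConvexFn f → Te.expect f accI = 1) ∧
      ∀ f, (∀ x, 0 ≤ f x ∧ f x ≤ 1) → Far ε f → Te.expect f accI ≤ 1 / 3 := by
  classical
  have hbpos := H.hb
  have hbR : (0 : ℝ) < b := by exact_mod_cast H.hb
  have : Nonempty (Fin d → Fin b) := ⟨fun _ => ⟨0, hbpos⟩⟩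
  set S : Finset (Pt d (Fin d → Fin b)) := p.P ×ˢ (univ : Finset (Fin d → Fin b)) with hSdef
  have hS : S.Nonempty := nonempty_prod HH.hPne
  have hSbox : ∀ u ∈ S, u.1 ∈ box d m N := by
    intro u hu
    rw [← hP]
    exact (mem_product.1 hu).1
  have hScard : S.card = ((N - 2 * m) * b) ^ d := by
    rw [hSdef, card_product, hP, card_box, card_univ, Fintype.card_pi]
    simp only [Fintype.card_fin, prod_const, card_univ]
    rw [mul_pow]
  refine ⟨(tst p Gt S hS L).mapQ (fine H.hn b), (tst_queriesLE p Gt S hS L).mapQ _, ?_, ?_⟩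
  · intro f hf
    rw [Prog.expect_mapQ]
    have hCmp : p.Cmp (fun y : Pt d (Fin d → Fin b) => f (fine H.hn b y)) := by
      refine ⟨H.hτ, fun x => ?_, fun x => ?_, fun x hx => ?_⟩
      · rw [hQ]; exact midClosed_slopes
      · rw [hQ]
        have h1 : ((slopes n d b Λ p.h p.τ x.1 (f (fine H.hn b x))).card : ℝ)
            ≤ (((2 * Λ + 1) ^ d : ℕ) : ℝ) := by exact_mod_cast card_slopes_le
        have h2 : 0 ≤ (1 - cc d) ^ p.T1 := by
          have : 0 ≤ 1 - cc d := by have := cc_le d; linarith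
          positivity
        exact lt_of_le_of_lt (mul_le_mul_of_nonneg_right h1 h2) hT1
      · rw [hP] at hx
        obtain ⟨a, ha, h⟩ := H.exists_candidate hf x hx
        refine ⟨a, ?_, fun u hu => ?_⟩
        · rw [hQ]; exact ha
        · rw [hP] at hu
          exact h u hu
    have h1 := tst_sure p _ hCmp Gt S hS (fun u hu => (mem_product.1 hu).1) L
    refine le_antisymm (Prog.expect_le _ _ fun a => ?_) ?_
    · unfold accI; split_ifs <;> norm_num
    · have h2 := Prog.Sure.expect_mono h1 (φ := fun _ => 1) (ψ := accI)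
        (fun a ha => by rw [ha]; simp [accI])
      rw [Prog.expect_const] at h2
      exact h2
  · intro f hf hfar
    rw [Prog.expect_mapQ]
    by_contra hcon
    rw [not_le] at hcon
    set g : Pt d (Fin d → Fin b) → ℝ := fun y => f (fine H.hn b y) with hg
    obtain ⟨Bad, α, hBad, hα, hpl⟩ := tst_sound HH g (ε / 2 - Gt * p.τ) hτ L
      (β := ε / 8) (by positivity) hη hL hlam hS hcon
    have hθ : ε / 2 - Gt * p.τ + Gt * p.τ = ε / 2 := by ring
    rw [hθ] at hpl
    set Good := S \ Bad with hGood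
    have hGoodmem : ∀ u, u ∈ Good ↔ u ∈ S ∧ u ∉ Bad := fun u => mem_sdiff
    set D : Set (Fin d → ℝ) := Set.Icc (fun _ => (1 : ℝ)) (fun _ => (n : ℝ)) with hD
    have hDc : Convex ℝ D := convex_Icc _ _
    set φ : Pt d (Fin d → Fin b) → (Fin d → ℝ) → ℝ := fun y v =>
      plR p.h y.1 (g y) (α y) (fun i => (v i - 1) / b) - p.τ with hφ
    have hφc : ∀ y ∈ Good, ConvexOn ℝ D (φ y) := by
      intro y _
      have h1 := convexOn_affine D hDc
        (g y - p.τ - p.h * ∑ i, (α y i : ℝ) * (1 / b + y.1 i)) (fun i => p.h * (α y i / b))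
      have h2 : φ y = fun v => g y - p.τ - p.h * ∑ i, (α y i : ℝ) * (1 / b + y.1 i)
          + ∑ i, p.h * (α y i / b) * v i := by
        funext v
        simp only [hφ, plR]
        rw [mul_sum, mul_sum]
        have h3 : ∑ i, p.h * ((α y i : ℝ) * ((v i - 1) / b - (y.1 i : ℝ)))
            = ∑ i, p.h * (α y i / b) * v i - ∑ i, p.h * ((α y i : ℝ) * (1 / b + y.1 i)) := by
          rw [← sum_sub_distrib]
          exact sum_congr rfl fun i _ => by ring
        rw [h3]
        ring
      rw [h2]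
      exact h1
    obtain ⟨Φ, hΦc, hΦ0, hΦge, hΦle⟩ := exists_max D hDc Good φ hφc
    set G : (Fin d → Fin n) → ℝ := fun x => Φ fun i => ((x i : ℕ) : ℝ) + 1 with hG
    have hφx : ∀ y (x : Fin d → Fin n), φ y (fun i => ((x i : ℕ) : ℝ) + 1)
        = plR p.h y.1 (g y) (α y) (fun i => ((x i : ℕ) : ℝ) / b) - p.τ := by
      intro y x
      simp only [hφ, add_sub_cancel_right]
    have hGconv : ConvexFn G := by
      refine ⟨fun x => ⟨hΦ0 _, ?_⟩, Φ, hΦc, fun x => rfl⟩
      refine hΦle _ 1 zero_le_one fun y hy => ?_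
      rw [hφx]
      have hy' := (hGoodmem y).1 hy
      have h1 := hα y hy'.1 hy'.2
      rw [hQ] at h1
      have h2 := (mem_slopes.1 h1).2 x
      linarith
    -- values at good points
    have hval : ∀ y ∈ Good, ∀ u ∈ Good,
        |φ y (fun i => ((fine H.hn b u i : ℕ) : ℝ) + 1)
          - (pl p.h y.1 (g y) (α y) u.1 - p.τ)| ≤ p.τ := by
      intro y hy u hu
      have hy' := (hGoodmem y).1 hy
      have hu' := (hGoodmem u).1 hu
      rw [hφx]
      have h1 := hα y hy'.1 hy'.2
      rw [hQ] at h1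
      have h2 := H.hs (α y) (mem_slopes.1 h1).1 u.2
      have h3 : plR p.h y.1 (g y) (α y) (fun i => ((fine H.hn b u i : ℕ) : ℝ) / b) - p.τ
          - (pl p.h y.1 (g y) (α y) u.1 - p.τ)
          = p.h * ∑ i, (α y i : ℝ) * (((u.2 i : ℕ) : ℝ) / b) := by
        have h4 : ∀ i, ((fine H.hn b u i : ℕ) : ℝ) / b = (u.1 i : ℝ) + ((u.2 i : ℕ) : ℝ) / b := by
          intro i
          rw [fine_cast H.hn H.hNb (hSbox u hu'.1) i]
          field_simp
        simp only [pl, plR, h4]
        have h5 : ∑ i, (α y i : ℝ) * ((u.1 i : ℝ) + ((u.2 i : ℕ) : ℝ) / b - (y.1 i : ℝ))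
            = ∑ i, (α y i : ℝ) * ((u.1 i : ℝ) - (y.1 i : ℝ))
              + ∑ i, (α y i : ℝ) * (((u.2 i : ℕ) : ℝ) / b) := by
          rw [← sum_add_distrib]
          exact sum_congr rfl fun i _ => by ring
        rw [h5]
        ring
      rw [h3]
      exact h2
    have herr : ∀ u ∈ Good, |f (fine H.hn b u) - G (fine H.hn b u)| ≤ ε / 2 := by
      intro u hu
      have hu' := (hGoodmem u).1 hu
      have hupper : G (fine H.hn b u) ≤ g u + ε / 2 := by
        refine hΦle _ _ ?_ fun y hy => ?_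
        · have := (hf (fine H.hn b u)).1
          simp only [hg]
          linarith
        · have hy' := (hGoodmem y).1 hy
          have h1 := (abs_le.1 (hval y hy u hu)).2
          have h2 := hpl y hy'.1 hy'.2 u hu'.1 hu'.2
          linarith
      have hlower : g u - 2 * p.τ ≤ G (fine H.hn b u) := by
        have h1 := hΦge u hu (fun i => ((fine H.hn b u i : ℕ) : ℝ) + 1)
        have h2 := (abs_le.1 (hval u hu u hu)).1
        rw [pl_self] at h2
        simp only [hG]
        linarith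
      rw [abs_le]
      simp only [hg] at hupper hlower
      constructor <;> linarith
    -- the distance
    have hdist := hfar G hGconv
    have hnR : (0 : ℝ) < (n : ℝ) ^ d := by
      have : (0 : ℝ) < n := by exact_mod_cast H.hn
      positivity
    set I := Good.image (fine H.hn b) with hI
    have hIcard : I.card = Good.card := by
      refine card_image_of_injOn fun u hu v hv huv => ?_
      have hu' := (hGoodmem u).1 hu
      have hv' := (hGoodmem v).1 hv
      exact fine_inj H.hn H.hNb (hSbox u hu'.1) (hSbox v hv'.1) huv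
    have hGcard : (1 - ε / 4) * (S.card : ℝ) ≤ Good.card := by
      have h1 : S.card ≤ Good.card + Bad.card := by
        rw [hGood]
        have := card_le_card_sdiff_add_card (s := S) (t := Bad)
        omega
      have h2 : (S.card : ℝ) ≤ Good.card + Bad.card := by exact_mod_cast h1
      have h3 : (Bad.card : ℝ) ≤ 2 * (ε / 8) * S.card := hBad
      linarith
    have hIge : (1 - ε / 4) * ((1 - ε / 8) * (n : ℝ) ^ d) ≤ I.card := by
      rw [hIcard]
      refine le_trans ?_ hGcard
      have h1 : (1 - ε / 8) * (n : ℝ) ^ d ≤ S.card := by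
        rw [hScard]; exact hout
      have h2 : 0 ≤ 1 - ε / 4 := by linarith
      exact mul_le_mul_of_nonneg_left h1 h2
    have hsum : ∑ x, |f x - G x| ≤ (n : ℝ) ^ d - (1 - ε / 2) * I.card := by
      have h1 : ∀ x ∈ (univ : Finset (Fin d → Fin n)),
          |f x - G x| ≤ 1 - (if x ∈ I then 1 - ε / 2 else 0) := by
        intro x _
        split_ifs with hx
        · obtain ⟨u, hu, rfl⟩ := mem_image.1 hx
          have := herr u hu
          linarith
        · rw [sub_zero, abs_le]
          have h2 := hf x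
          have h3 := hGconv.1 x
          constructor <;> linarith
      refine (sum_le_sum h1).trans ?_
      rw [sum_sub_distrib, sum_const, card_univ, Fintype.card_pi]
      simp only [Fintype.card_fin, prod_const, card_univ, nsmul_eq_mul, mul_one]
      rw [← sum_filter, sum_const, nsmul_eq_mul]
      have h2 : (univ.filter fun x => x ∈ I) = I := by
        ext x; simp
      rw [h2]
      push_cast
      linarith
    have hle : dist1 f G < ε := by
      unfold dist1
      rw [div_lt_iff₀ hnR]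
      have h1 : (1 - ε / 2) * ((1 - ε / 4) * ((1 - ε / 8) * (n : ℝ) ^ d)) ≤ (1 - ε / 2) * I.card := by
        have : 0 ≤ 1 - ε / 2 := by linarith
        exact mul_le_mul_of_nonneg_left hIge this
      have h2 : (n : ℝ) ^ d - (1 - ε / 2) * ((1 - ε / 4) * ((1 - ε / 8) * (n : ℝ) ^ d))
          < ε * (n : ℝ) ^ d := by
        have h3 : (n : ℝ) ^ d - (1 - ε / 2) * ((1 - ε / 4) * ((1 - ε / 8) * (n : ℝ) ^ d))
            = (1 - (1 - ε / 2) * ((1 - ε / 4) * (1 - ε / 8))) * (n : ℝ) ^ d := by ring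
        rw [h3]
        refine mul_lt_mul_of_pos_right ?_ hnR
        nlinarith [mul_pos hε hε, mul_pos (mul_pos hε hε) hε]
      linarith
    linarith

end Pool.Agent.H702.CT
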