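import Pool.Agent.H702.CT.Params2

set_option autoImplicit false
set_option linter.unusedSectionVars false
set_option maxHeartbeats 1000000

/-!
# Testers with few queries
-/

namespace Pool.Agent.H702.CT

open Finset

/-- The proportion of points outside of the blocks is small. -/
theorem outside_le {n d m N : ℕ} {ε : ℝ} (hε : 0 < ε) (hε1 : ε < 1) (hd : 1 ≤ d) (hm : 1 ≤ m)
    (hN : 32 * d * m * (1 / ε) ≤ (N : ℝ)) (hn : 16 * d * N * (1 / ε) ≤ (n : ℝ)) :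
    (1 - ε / 8) * (n : ℝ) ^ d ≤ (((N - 2 * m) * (n / N)) ^ d : ℕ) := by
  have hdR : (1 : ℝ) ≤ d := by exact_mod_cast hd
  have hmR : (1 : ℝ) ≤ m := by exact_mod_cast hm
  have hE1 : 1 ≤ 1 / ε := by rw [le_div_iff₀ hε]; linarith
  have h32 : 32 * (m : ℝ) ≤ N := by
    have h1 : (m : ℝ) ≤ d * m * (1 / ε) := by
      have h2 : (1 : ℝ) ≤ d * (1 / ε) := one_le_mul_of_one_le_of_one_le hdR hE1
      nlinarith
    linarith
  have h32' : 32 * m ≤ N := by exact_mod_cast h32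
  have hNpos : 0 < N := by omega
  have hNR : (0 : ℝ) < N := by exact_mod_cast hNpos
  have hNn : (N : ℝ) ≤ n := by
    have h1 : (N : ℝ) ≤ d * N * (1 / ε) := by
      have h2 : (1 : ℝ) ≤ d * (1 / ε) := one_le_mul_of_one_le_of_one_le hdR hE1
      nlinarith
    linarith
  have hnR : (0 : ℝ) < n := by linarith
  obtain ⟨b, hb⟩ : ∃ b : ℕ, b = n / N := ⟨_, rfl⟩
  rw [← hb]
  have h1 : n < N * (b + 1) := by rw [hb]; exact Nat.lt_mul_div_succ n hNpos
  have h2 : (n : ℝ) ≤ N * (b + 1) := by exact_mod_cast h1.le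
  have h3 : N * b ≤ n := by rw [hb]; exact Nat.mul_div_le n N
  have h3' : (N : ℝ) * b ≤ n := by exact_mod_cast h3
  have hcast : ((N - 2 * m : ℕ) : ℝ) = N - 2 * m := by
    rw [Nat.cast_sub (by omega)]; push_cast; ring
  push_cast
  rw [hcast]
  -- (N - 2m) b ≥ n - N - 2 m n / N
  have h4 : (b : ℝ) ≤ n / N := by rw [le_div_iff₀ hNR]; linarith
  have h5 : (1 - ε / (8 * d)) * n ≤ ((N : ℝ) - 2 * m) * b := by
    have h6 : (N : ℝ) ≤ ε / (16 * d) * n := by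
      have : ε / (16 * d) * (16 * d * N * (1 / ε)) = N := by field_simp
      rw [← this]
      gcongr
    have h7 : 2 * (m : ℝ) * b ≤ ε / (16 * d) * n := by
      have h8 : 2 * (m : ℝ) ≤ ε / (16 * d) * N := by
        have : ε / (16 * d) * (32 * d * m * (1 / ε)) = 2 * m := by field_simp; norm_num
        rw [← this]
        gcongr
      calc 2 * (m : ℝ) * b ≤ ε / (16 * d) * N * b := by gcongr
        _ = ε / (16 * d) * (N * b) := by ring
        _ ≤ ε / (16 * d) * n := by gcongr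
    have h8 : (1 - ε / (8 * d)) * n = n - ε / (16 * d) * n - ε / (16 * d) * n := by
      field_simp; ring
    rw [h8]
    nlinarith
  have h6 : 0 ≤ 1 - ε / (8 * d) := by
    have : ε / (8 * d) ≤ 1 := by
      rw [div_le_one (by positivity)]; linarith
    linarith
  have h7 : 1 - ε / 8 ≤ (1 - ε / (8 * d)) ^ d := by
    have h8 := one_add_mul_le_pow (a := -(ε / (8 * d))) (by linarith) d
    have h9 : 1 + (d : ℝ) * (-(ε / (8 * d))) = 1 - ε / 8 := by field_simp; ring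
    rw [h9] at h8
    have h10 : 1 + -(ε / (8 * (d : ℝ))) = 1 - ε / (8 * d) := by ring
    rw [h10] at h8
    exact h8
  calc (1 - ε / 8) * (n : ℝ) ^ d ≤ (1 - ε / (8 * d)) ^ d * n ^ d := by gcongr
    _ = ((1 - ε / (8 * d)) * n) ^ d := by rw [mul_pow]
    _ ≤ (((N : ℝ) - 2 * m) * b) ^ d := pow_le_pow_left₀ (by positivity) h5 d

/-- **Testers.** -/
theorem exists_testers (d s : ℕ) (hd : 1 ≤ d) (hs : 1 ≤ s) :
    ∃ C : ℝ, ∀ ε : ℝ, 0 < ε → ε < 1 → ∀ n : ℕ, 1 ≤ n →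
      ∃ (Te : Prog (Fin d → Fin n) Bool) (q : ℕ), Te.QueriesLE q ∧
        (q : ℝ) ≤ C * (1 / ε) ^ (2 + 2 / (s : ℝ)) ∧
        (∀ f, ConvexFn f → Te.expect f accI = 1) ∧
        ∀ f, (∀ x, 0 ≤ f x ∧ f x ≤ 1) → Far ε f → Te.expect f accI ≤ 1 / 3 := by
  obtain ⟨G, hG⟩ : ∃ G : ℕ, G = s * (3 * d + 1) + 1 := ⟨_, rfl⟩
  have hG1 : 1 ≤ G := by omega
  have hGR : (1 : ℝ) ≤ G := by exact_mod_cast hG1
  have hdR : (1 : ℝ) ≤ d := by exact_mod_cast hd
  have hd1 : ∀ k : ℕ, (1 : ℝ) ≤ (d : ℝ) ^ k := fun k => one_le_pow₀ hdR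
  have hGp : ∀ k : ℕ, (1 : ℝ) ≤ (G : ℝ) ^ k := fun k => one_le_pow₀ hGR
  obtain ⟨C, hC⟩ := exists_tester d s G hd hs hG (17424 * d ^ 3 * G) (10 ^ 11 * d ^ 8 * G ^ 3)
    (by
      have := one_le_mul_of_one_le_of_one_le (hd1 3) hGR
      linarith)
    (by
      have := one_le_mul_of_one_le_of_one_le (hd1 8) (hGp 3)
      linarith)
  refine ⟨C, fun ε hε hε1 n hn => ?_⟩
  have hC' := hC ε hε hε1
  have hτ : 0 < ε / (4 * G) := by positivity
  have hτ1 : ε / (4 * G) ≤ 1 := by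
    rw [div_le_one (by positivity)]; linarith
  obtain ⟨E, hE⟩ : ∃ E : ℝ, E = 1 / ε := ⟨_, rfl⟩
  have hE1 : 1 ≤ E := by rw [hE, le_div_iff₀ hε]; linarith
  have hEpos : 0 < E := by linarith
  have hEp : ∀ k : ℕ, (1 : ℝ) ≤ E ^ k := fun k => one_le_pow₀ hE1
  rw [← hE] at hC' ⊢
  have hτE : ε / (4 * G) = 1 / (4 * G * E) := by rw [hE]; field_simp
  -- the margin
  obtain ⟨m, hmge, hmle⟩ : ∃ m : ℕ, 32 * d * G * E ≤ (m : ℝ) ∧ (m : ℝ) ≤ 33 * d * G * E := by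
    refine ⟨⌈32 * d * G * E⌉₊, Nat.le_ceil _, ?_⟩
    have h1 := Nat.ceil_lt_add_one (show (0 : ℝ) ≤ 32 * d * G * E by positivity)
    have h2 : 1 ≤ d * G * E :=
      one_le_mul_of_one_le_of_one_le (one_le_mul_of_one_le_of_one_le hdR hGR) hE1
    linarith
  have hdGE : 1 ≤ (d : ℝ) * G * E :=
    one_le_mul_of_one_le_of_one_le (one_le_mul_of_one_le_of_one_le hdR hGR) hE1
  have hm1 : (1 : ℝ) ≤ m := by linarith
  have hm1' : 1 ≤ m := by exact_mod_cast hm1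
  -- the number of blocks
  have hdmE : 1 ≤ (d : ℝ) * m * E :=
    one_le_mul_of_one_le_of_one_le (one_le_mul_of_one_le_of_one_le hdR hm1) hE1
  obtain ⟨N, hNge, hNle⟩ : ∃ N : ℕ, 32 * d * m * E ≤ (N : ℝ) ∧ (N : ℝ) ≤ 33 * d * m * E := by
    refine ⟨⌈32 * d * m * E⌉₊, Nat.le_ceil _, ?_⟩
    have h1 := Nat.ceil_lt_add_one (show (0 : ℝ) ≤ 32 * d * m * E by positivity)
    linarith
  have hNR : (1 : ℝ) ≤ N := by linarith
  have hN1 : 1 ≤ N := by exact_mod_cast hNR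
  have hN2 : (N : ℝ) ≤ 1089 * d ^ 2 * G * E ^ 2 := by
    calc (N : ℝ) ≤ 33 * d * m * E := hNle
      _ ≤ 33 * d * (33 * d * G * E) * E := by gcongr
      _ = _ := by ring
  have hdE : 1 ≤ (d : ℝ) * E := one_le_mul_of_one_le_of_one_le hdR hE1
  by_cases hcase : 16 * d * N * E ≤ (n : ℝ)
  · -- large grids
    have h32 : 32 * (m : ℝ) ≤ N := by nlinarith
    have h32' : 32 * m ≤ N := by exact_mod_cast h32
    have h2N : 2 * N ≤ n := by
      have : 2 * (N : ℝ) ≤ n := by nlinarith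
      exact_mod_cast this
    have hmτ : 8 * (d : ℝ) ≤ m * (ε / (4 * G)) := by
      rw [hτE, mul_one_div, le_div_iff₀ (by positivity)]
      linarith
    have hgeom := geom_large hd hτ hτ1 hmτ hN1 h2N
    refine hC' n _ m N _ _ hgeom (by omega) ?_ ?_ ?_
    · have h1 : ((N - 2 * m : ℕ) : ℝ) ≤ N := by
        have : N - 2 * m ≤ N := Nat.sub_le _ _
        exact_mod_cast this
      refine h1.trans (hN2.trans ?_)
      have h2 : (d : ℝ) ^ 2 ≤ d ^ 3 := pow_le_pow_right₀ hdR (by norm_num)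
      have h3 : E ^ 2 ≤ E ^ 3 := pow_le_pow_right₀ hE1 (by norm_num)
      have h4 : (0 : ℝ) ≤ d ^ 3 * G * E ^ 3 := by positivity
      calc 1089 * (d : ℝ) ^ 2 * G * E ^ 2 ≤ 1089 * d ^ 3 * G * E ^ 3 := by gcongr
        _ ≤ 17424 * d ^ 3 * G * E ^ 3 := by nlinarith
    · have h1 : 2 / ((m : ℝ) * (ε / (4 * G) / (8 * d * N))) ≤ 64 * d * N * G * E := by
        rw [hτE]
        rw [div_le_iff₀ (by positivity)]
        have h2 : 64 * d * N * G * E * ((m : ℝ) * (1 / (4 * G * E) / (8 * d * N))) = 2 * m := by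
          field_simp
          norm_num
        rw [h2]
        linarith
      have h3 := Nat.ceil_lt_add_one
        (show (0 : ℝ) ≤ 2 / ((m : ℝ) * (ε / (4 * G) / (8 * d * N))) by positivity)
      have h4 : 64 * d * N * G * E ≤ 69696 * (d ^ 3 * G ^ 2 * E ^ 3) := by
        calc 64 * d * N * G * E ≤ 64 * d * (1089 * d ^ 2 * G * E ^ 2) * G * E := by gcongr
          _ = _ := by ring
      have h5 : (d : ℝ) ^ 3 * G ^ 2 * E ^ 3 ≤ d ^ 8 * G ^ 3 * E ^ 7 := by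
        have h6 : (d : ℝ) ^ 3 ≤ d ^ 8 := pow_le_pow_right₀ hdR (by norm_num)
        have h7 : (G : ℝ) ^ 2 ≤ G ^ 3 := pow_le_pow_right₀ hGR (by norm_num)
        have h8 : E ^ 3 ≤ E ^ 7 := pow_le_pow_right₀ hE1 (by norm_num)
        gcongr
      have h9 : 1 ≤ (d : ℝ) ^ 8 * G ^ 3 * E ^ 7 :=
        one_le_mul_of_one_le_of_one_le (one_le_mul_of_one_le_of_one_le (hd1 8) (hGp 3)) (hEp 7)
      push_cast
      nlinarith
    · have hNge' : 32 * d * m * (1 / ε) ≤ (N : ℝ) := by rw [← hE]; exact hNge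
      have hcase' : 16 * d * N * (1 / ε) ≤ (n : ℝ) := by rw [← hE]; exact hcase
      exact outside_le hε hε1 hd hm1' hNge' hcase'
  · -- small grids
    rw [not_le] at hcase
    have hnR : (1 : ℝ) ≤ n := by exact_mod_cast hn
    have hn3 : (n : ℝ) ≤ 17424 * d ^ 3 * G * E ^ 3 := by
      refine hcase.le.trans ?_
      calc 16 * d * N * E ≤ 16 * d * (1089 * d ^ 2 * G * E ^ 2) * E := by gcongr
        _ = _ := by ring
    refine hC' n 1 0 n _ _ (geom_small hd hτ hτ1 hn) (by omega) ?_ ?_ ?_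
    · simpa using hn3
    · have h1 : (2 * (d : ℝ) * n + 1) / (ε / (4 * G) / (8 * d * n)) ≤ 96 * d ^ 2 * n ^ 2 * G * E := by
        rw [hτE]
        rw [div_le_iff₀ (by positivity)]
        have h2 : 96 * (d : ℝ) ^ 2 * n ^ 2 * G * E * (1 / (4 * G * E) / (8 * d * n)) = 3 * d * n := by
          field_simp
          norm_num
        rw [h2]
        have h3 : 1 ≤ (d : ℝ) * n := one_le_mul_of_one_le_of_one_le hdR hnR
        linarith
      have h3 := Nat.ceil_lt_add_one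
        (show (0 : ℝ) ≤ (2 * (d : ℝ) * n + 1) / (ε / (4 * G) / (8 * d * n)) by positivity)
      have h4 : 96 * (d : ℝ) ^ 2 * n ^ 2 * G * E
          ≤ 96 * (303595776 * (d ^ 8 * G ^ 3 * E ^ 7)) := by
        calc 96 * (d : ℝ) ^ 2 * n ^ 2 * G * E
            ≤ 96 * (d : ℝ) ^ 2 * (17424 * d ^ 3 * G * E ^ 3) ^ 2 * G * E := by gcongr
          _ = _ := by ring
      have h9 : 1 ≤ (d : ℝ) ^ 8 * G ^ 3 * E ^ 7 :=
        one_le_mul_of_one_le_of_one_le (one_le_mul_of_one_le_of_one_le (hd1 8) (hGp 3)) (hEp 7)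
      push_cast
      nlinarith
    · have h1 : (((n - 2 * 0) * 1) ^ d : ℕ) = n ^ d := by simp
      rw [h1]
      push_cast
      have h2 : (0 : ℝ) ≤ (n : ℝ) ^ d := by positivity
      nlinarith

end Pool.Agent.H702.CT
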