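import Pool.Agent.H702.CT.Plane2
import Pool.Agent.H702.CT.Complete

set_option autoImplicit false
set_option linter.unusedSectionVars false

/-!
# Grids, blocks and the candidates for slopes
-/

namespace Pool.Agent.H702.CT

open Finset

variable {n d : ℕ}

theorem ConvexFn.exists_supp {f : (Fin d → Fin n) → ℝ} (hf : ConvexFn f) (z : Fin d → Fin n)
    {e : ℝ} (he : 0 < e) : ∃ σ : Fin d → ℝ, Supp f z e σ := by
  obtain ⟨h01, F, hF, hfF⟩ := hf
  obtain ⟨σ, hσ⟩ := exists_slope (fun (x : Fin d → Fin n) i => ((x i : ℕ) : ℝ) + 1) f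
    (fun x => (h01 x).2) _ F hF (fun x => by
      constructor
      · intro i
        simp only
        have : (0 : ℝ) ≤ ((x i : ℕ) : ℝ) := by positivity
        linarith
      · intro i
        simp only
        have : (x i : ℕ) + 1 ≤ n := (x i).2
        exact_mod_cast this) hfF z he
  refine ⟨σ, fun x => ?_⟩
  have h := hσ x
  simp only [add_sub_add_right_eq_sub] at h
  exact h

/-- The box of coarse points. -/
noncomputable def box (d m N : ℕ) : Finset (Fin d → ℤ) :=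
  Fintype.piFinset fun _ => Finset.Icc (m : ℤ) ((N : ℤ) - 1 - m)

theorem mem_box {m N : ℕ} {k : Fin d → ℤ} :
    k ∈ box d m N ↔ ∀ i, (m : ℤ) ≤ k i ∧ k i ≤ (N : ℤ) - 1 - m := by
  simp [box, Fintype.mem_piFinset]

theorem midClosed_box (m N : ℕ) : MidClosed (box d m N) := by
  intro a ha b hb k hk
  rw [mem_box] at ha hb ⊢
  intro i
  have h1 := ha i
  have h2 := hb i
  have h3 := hk i
  omega

theorem card_box (m N : ℕ) : (box d m N).card = (N - 2 * m) ^ d := by
  unfold box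
  rw [Fintype.card_piFinset]
  simp only [Int.card_Icc, prod_const, card_univ, Fintype.card_fin]
  congr 1
  omega

/-- The grid point that belongs to a coarse point and an offset. -/
def fine (hn : 0 < n) (b : ℕ) (x : Pt d (Fin d → Fin b)) : Fin d → Fin n := fun i =>
  ⟨((x.1 i).toNat * b + (x.2 i : ℕ)) % n, Nat.mod_lt _ hn⟩

section

variable {b m N : ℕ} (hn : 0 < n) (hNb : N * b ≤ n)

include hNb

theorem fine_lt {x : Pt d (Fin d → Fin b)} (hx : x.1 ∈ box d m N) (i : Fin d) :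
    (x.1 i).toNat * b + (x.2 i : ℕ) + m * b < n := by
  rw [mem_box] at hx
  have h1 := hx i
  have h2 : (x.1 i).toNat + 1 + m ≤ N := by omega
  have h3 : ((x.1 i).toNat + 1 + m) * b ≤ N * b := Nat.mul_le_mul_right b h2
  have h4 := (x.2 i).2
  have h5 : ((x.1 i).toNat + 1 + m) * b = (x.1 i).toNat * b + b + m * b := by ring
  omega

theorem fine_val {x : Pt d (Fin d → Fin b)} (hx : x.1 ∈ box d m N) (i : Fin d) :
    (fine hn b x i : ℕ) = (x.1 i).toNat * b + (x.2 i : ℕ) := by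
  have := fine_lt hNb hx i
  exact Nat.mod_eq_of_lt (by omega)

theorem fine_cast {x : Pt d (Fin d → Fin b)} (hx : x.1 ∈ box d m N) (i : Fin d) :
    ((fine hn b x i : ℕ) : ℝ) = b * (x.1 i : ℝ) + ((x.2 i : ℕ) : ℝ) := by
  rw [fine_val hn hNb hx i]
  rw [mem_box] at hx
  have h1 := hx i
  have h2 : ((x.1 i).toNat : ℤ) = x.1 i := Int.toNat_of_nonneg (by omega)
  have h3 : (((x.1 i).toNat : ℕ) : ℝ) = (x.1 i : ℝ) := by exact_mod_cast h2
  push_cast
  rw [h3]
  ring

theorem fine_inj {x y : Pt d (Fin d → Fin b)} (hx : x.1 ∈ box d m N) (hy : y.1 ∈ box d m N)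
    (h : fine hn b x = fine hn b y) : x = y := by
  have h1 : ∀ i, (x.1 i).toNat * b + (x.2 i : ℕ) = (y.1 i).toNat * b + (y.2 i : ℕ) := by
    intro i
    rw [← fine_val hn hNb hx i, ← fine_val hn hNb hy i, h]
  have h2 : ∀ i, (x.1 i).toNat = (y.1 i).toNat ∧ (x.2 i : ℕ) = (y.2 i : ℕ) := by
    intro i
    have hbpos : 0 < b := lt_of_le_of_lt (Nat.zero_le _) (x.2 i).2
    have h3 := h1 i
    have h4 : ((x.1 i).toNat * b + (x.2 i : ℕ)) / b = (x.1 i).toNat := by
      rw [mul_comm, Nat.mul_add_div hbpos, Nat.div_eq_of_lt (x.2 i).2, add_zero]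
    have h5 : ((y.1 i).toNat * b + (y.2 i : ℕ)) / b = (y.1 i).toNat := by
      rw [mul_comm, Nat.mul_add_div hbpos, Nat.div_eq_of_lt (y.2 i).2, add_zero]
    have h6 : (x.1 i).toNat = (y.1 i).toNat := by rw [← h4, ← h5, h3]
    refine ⟨h6, ?_⟩
    rw [h6] at h3
    omega
  rw [mem_box] at hx hy
  refine Prod.ext ?_ ?_
  · funext i
    have h3 := (h2 i).1
    have h4 := hx i
    have h5 := hy i
    omega
  · funext i
    exact Fin.ext (h2 i).2

end

open Classical in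
/-- The candidates for slopes. -/
noncomputable def slopes (n d b Λ : ℕ) (h τ : ℝ) (k : Fin d → ℤ) (c : ℝ) :
    Finset (Fin d → ℤ) :=
  (Fintype.piFinset fun _ => Finset.Icc (-(Λ : ℤ)) Λ).filter fun a =>
    ∀ x : Fin d → Fin n, plR h k c a (fun i => ((x i : ℕ) : ℝ) / b) ≤ 1 + τ

theorem mem_slopes {b Λ : ℕ} {h τ : ℝ} {k : Fin d → ℤ} {c : ℝ} {a : Fin d → ℤ} :
    a ∈ slopes n d b Λ h τ k c ↔ (∀ i, |a i| ≤ (Λ : ℤ)) ∧
      ∀ x : Fin d → Fin n, plR h k c a (fun i => ((x i : ℕ) : ℝ) / b) ≤ 1 + τ := by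
  simp [slopes, Fintype.mem_piFinset, abs_le]

theorem midClosed_slopes {b Λ : ℕ} {h τ : ℝ} {k : Fin d → ℤ} {c : ℝ} :
    MidClosed (slopes n d b Λ h τ k c) := by
  intro a ha a' ha' q hq
  rw [mem_slopes] at ha ha' ⊢
  refine ⟨fun i => ?_, fun x => ?_⟩
  · have h1 := abs_le.1 (ha.1 i)
    have h2 := abs_le.1 (ha'.1 i)
    have h3 := hq i
    rw [abs_le]
    omega
  · have h1 := ha.2 x
    have h2 := ha'.2 x
    have h3 := isAff_pl_slope h k c (fun i => ((x i : ℕ) : ℝ) / b) q a a' hq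
    linarith

theorem card_slopes_le {b Λ : ℕ} {h τ : ℝ} {k : Fin d → ℤ} {c : ℝ} :
    (slopes n d b Λ h τ k c).card ≤ (2 * Λ + 1) ^ d := by
  classical
  unfold slopes
  refine (card_le_card (filter_subset _ _)).trans ?_
  rw [Fintype.card_piFinset]
  simp only [Int.card_Icc, prod_const, card_univ, Fintype.card_fin]
  refine Nat.pow_le_pow_left ?_ d
  omega

/-- The geometric data. -/
structure Geom (n d b m N Λ : ℕ) (h τ : ℝ) : Prop where
  hn : 0 < n
  hb : 0 < b
  hNb : N * b ≤ n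
  hh : 0 < h
  hτ : 0 < τ
  hτ1 : τ ≤ 1
  hW : d * (h / 2 * (n / b)) ≤ τ / 8
  hsl : ∀ f : (Fin d → Fin n) → ℝ, ConvexFn f → ∀ x : Pt d (Fin d → Fin b), x.1 ∈ box d m N →
    ∃ σ : Fin d → ℝ, Supp f (fine hn b x) (τ / 8) σ ∧ (∀ i, b * |σ i| / h + 1 ≤ Λ) ∧
      ∑ i, |σ i| * ((b : ℝ) - 1) ≤ τ / 4
  hs : ∀ a : Fin d → ℤ, (∀ i, |a i| ≤ (Λ : ℤ)) → ∀ s : Fin d → Fin b,
    |h * ∑ i, (a i : ℝ) * (((s i : ℕ) : ℝ) / b)| ≤ τ

theorem Geom.exists_candidate {b m N Λ : ℕ} {h τ : ℝ} (H : Geom n d b m N Λ h τ)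
    {f : (Fin d → Fin n) → ℝ} (hf : ConvexFn f) (x : Pt d (Fin d → Fin b))
    (hx : x.1 ∈ box d m N) :
    ∃ a ∈ slopes n d b Λ h τ x.1 (f (fine H.hn b x)), ∀ u : Pt d (Fin d → Fin b),
      u.1 ∈ box d m N →
        pl h x.1 (f (fine H.hn b x)) a u.1 ≤ f (fine H.hn b u) + τ / 2 := by
  obtain ⟨σ, hσ, hσb, hσs⟩ := H.hsl f hf x hx
  have hh := H.hh
  have hτ := H.hτ
  have hbR : (0 : ℝ) < b := by exact_mod_cast H.hb
  have hb1 : (1 : ℝ) ≤ b := by exact_mod_cast H.hb
  have hnR : (0 : ℝ) < n := by exact_mod_cast H.hn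
  set c := f (fine H.hn b x) with hc
  have hW0 : (0 : ℝ) ≤ (n : ℝ) / b := by positivity
  have hNW : (N : ℝ) ≤ n / b := by
    rw [le_div_iff₀ hbR]; exact_mod_cast H.hNb
  have hxk := mem_box.1 hx
  -- offsets
  have hoff : ∀ (y : Pt d (Fin d → Fin b)) (i : Fin d), 0 ≤ ((y.2 i : ℕ) : ℝ) ∧
      ((y.2 i : ℕ) : ℝ) ≤ b - 1 := by
    intro y i
    refine ⟨by positivity, ?_⟩
    have : (y.2 i : ℕ) + 1 ≤ b := (y.2 i).2
    have : (((y.2 i : ℕ) : ℝ)) + 1 ≤ b := by exact_mod_cast this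
    linarith
  have hkR : ∀ i, (0 : ℝ) ≤ (x.1 i : ℝ) ∧ (x.1 i : ℝ) ≤ N := by
    intro i
    have := hxk i
    constructor
    · have : (0 : ℤ) ≤ x.1 i := by omega
      exact_mod_cast this
    · have : x.1 i ≤ (N : ℤ) := by omega
      exact_mod_cast this
  refine ⟨fun i => round (b * σ i / h), ?_, ?_⟩
  · rw [mem_slopes]
    refine ⟨fun i => ?_, fun y => ?_⟩
    · have h1 := hσb i
      have h2 := abs_sub_round (b * σ i / h)
      have h3 : |(round (b * σ i / h) : ℝ)| ≤ |b * σ i / h| + 1 / 2 := by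
        have := abs_sub_abs_le_abs_sub ((round (b * σ i / h) : ℤ) : ℝ) (b * σ i / h)
        rw [abs_sub_comm] at this
        linarith
      have h4 : |b * σ i / h| = b * |σ i| / h := by
        rw [abs_div, abs_mul, abs_of_pos hh, abs_of_pos hbR]
      have h5 : |(round (b * σ i / h) : ℝ)| ≤ Λ := by rw [h4] at h3; linarith
      have h6 : ((|round (b * σ i / h)| : ℤ) : ℝ) ≤ ((Λ : ℤ) : ℝ) := by
        push_cast
        exact h5
      exact_mod_cast h6
    · have h1 := plR_round h hh b σ x.1 c (fun i => ((y i : ℕ) : ℝ) / b) (n / b) (by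
        intro i
        have h2 := hkR i
        have h3 : (0 : ℝ) ≤ ((y i : ℕ) : ℝ) / b := by positivity
        have h4 : ((y i : ℕ) : ℝ) / b ≤ n / b := by
          have : ((y i : ℕ) : ℝ) ≤ n := by exact_mod_cast (y i).2.le
          gcongr
        rw [abs_le]
        constructor <;> linarith)
      have h2 := (abs_le.1 h1).2
      have h3 := H.hW
      have h4 := hσ y
      have h5 := (hf.1 y).2
      have h6 : ∑ i, σ i * (b * (((y i : ℕ) : ℝ) / b) - b * (x.1 i : ℝ))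
          ≤ ∑ i, σ i * (((y i : ℕ) : ℝ) - ((fine H.hn b x i : ℕ) : ℝ)) + τ / 4 := by
        refine le_trans ?_ (add_le_add_right hσs _)
        rw [← sum_add_distrib]
        refine sum_le_sum fun i _ => ?_
        rw [fine_cast H.hn H.hNb hx i, mul_div_cancel₀ _ hbR.ne']
        have h7 := hoff x i
        have h8 : σ i * ((x.2 i : ℕ) : ℝ) ≤ |σ i| * ((b : ℝ) - 1) := by
          calc σ i * ((x.2 i : ℕ) : ℝ) ≤ |σ i| * ((x.2 i : ℕ) : ℝ) :=
                mul_le_mul_of_nonneg_right (le_abs_self _) h7.1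
            _ ≤ _ := mul_le_mul_of_nonneg_left h7.2 (abs_nonneg _)
        nlinarith
      linarith
  · intro u hu
    have huk := mem_box.1 hu
    have h1 := plR_round h hh b σ x.1 c (fun i => (u.1 i : ℝ)) (n / b) (by
      intro i
      have h2 := hkR i
      have h3 := huk i
      have h4 : (0 : ℝ) ≤ (u.1 i : ℝ) := by
        have : (0 : ℤ) ≤ u.1 i := by omega
        exact_mod_cast this
      have h5 : (u.1 i : ℝ) ≤ N := by
        have : u.1 i ≤ (N : ℤ) := by omega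
        exact_mod_cast this
      rw [abs_le]
      constructor <;> linarith)
    have h2 := (abs_le.1 h1).2
    have h3 := H.hW
    have h4 := hσ (fine H.hn b u)
    have h6 : ∑ i, σ i * (b * (u.1 i : ℝ) - b * (x.1 i : ℝ))
        ≤ ∑ i, σ i * (((fine H.hn b u i : ℕ) : ℝ) - ((fine H.hn b x i : ℕ) : ℝ)) + τ / 4 := by
      refine le_trans ?_ (add_le_add_right hσs _)
      rw [← sum_add_distrib]
      refine sum_le_sum fun i _ => ?_
      rw [fine_cast H.hn H.hNb hx i, fine_cast H.hn H.hNb hu i]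
      have h7 := hoff x i
      have h7' := hoff u i
      have h8 : σ i * (((x.2 i : ℕ) : ℝ) - ((u.2 i : ℕ) : ℝ)) ≤ |σ i| * ((b : ℝ) - 1) := by
        refine (le_abs_self _).trans ?_
        rw [abs_mul]
        refine mul_le_mul_of_nonneg_left ?_ (abs_nonneg _)
        rw [abs_le]
        constructor <;> linarith
      nlinarith
    unfold pl
    linarith

end Pool.Agent.H702.CT
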