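import Pool.Agent.H702.CT.Cases

set_option autoImplicit false
set_option linter.unusedSectionVars false

/-!
# The choice of the parameters and the number of queries
-/

namespace Pool.Agent.H702.CT

open Finset

theorem Par.cost_le {d : ℕ} (p : Par d) (g : ℕ) :
    p.cost g + (p.R + 2) ≤ (p.T1 * p.R1 * (p.T + 1) + 2) ^ g * (p.R + 2) := by
  induction g with
  | zero => simp [Par.cost]
  | succ g ih =>
    set W := p.T1 * p.R1 * (p.T + 1) + 2 with hW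
    set x := p.cost g + (p.R + 2) with hx
    have h1 : p.R + p.T * (p.R + 1 + p.cost g) ≤ (p.T + 1) * x := by
      have h2 : p.R + 1 + p.cost g ≤ x := by omega
      have h3 : p.T * (p.R + 1 + p.cost g) ≤ p.T * x := Nat.mul_le_mul_left _ h2
      have h4 : (p.T + 1) * x = p.T * x + x := by ring
      omega
    have h2 : p.T1 * (p.R1 * (p.R + p.T * (p.R + 1 + p.cost g)))
        ≤ p.T1 * p.R1 * (p.T + 1) * x := by
      calc p.T1 * (p.R1 * (p.R + p.T * (p.R + 1 + p.cost g)))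
          ≤ p.T1 * (p.R1 * ((p.T + 1) * x)) :=
            Nat.mul_le_mul_left _ (Nat.mul_le_mul_left _ h1)
        _ = _ := by ring
    calc p.cost (g + 1) + (p.R + 2)
        = p.T1 * (p.R1 * (p.R + p.T * (p.R + 1 + p.cost g))) + 1 + (p.R + 2) := rfl
      _ ≤ p.T1 * p.R1 * (p.T + 1) * x + 2 * x := by omega
      _ = W * x := by rw [hW]; ring
      _ ≤ W * (W ^ g * (p.R + 2)) := Nat.mul_le_mul_left _ ih
      _ = W ^ (g + 1) * (p.R + 2) := by ring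

theorem one_sub_pow_le_exp {x : ℝ} (hx1 : x ≤ 1) (k : ℕ) :
    (1 - x) ^ k ≤ Real.exp (-(x * k)) := by
  have h1 : 1 - x ≤ Real.exp (-x) := Real.one_sub_le_exp_neg x
  calc (1 - x) ^ k ≤ (Real.exp (-x)) ^ k := pow_le_pow_left₀ (by linarith) h1 k
    _ = Real.exp (-(x * k)) := by rw [← Real.exp_nat_mul]; ring_nf

theorem seven_eighths_pow (R : ℕ) (hR : 0 < R) : ((7 : ℝ) / 8) ^ R ≤ 8 / R := by
  have hRR : (0 : ℝ) < R := by exact_mod_cast hR
  have h1 : 1 + (R : ℝ) * (1 / 8) ≤ (1 + 1 / 8) ^ R := one_add_mul_le_pow (by norm_num) R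
  have h2 : ((7 : ℝ) / 8) ^ R * (1 + 1 / 8) ^ R ≤ 1 := by
    rw [← mul_pow]
    exact pow_le_one₀ (by norm_num) (by norm_num)
  have h3 : (0 : ℝ) ≤ (7 / 8) ^ R := by positivity
  rw [le_div_iff₀ hRR]
  have h4 : ((7 : ℝ) / 8) ^ R * (R * (1 / 8)) ≤ (7 / 8) ^ R * (1 + 1 / 8) ^ R := by
    refine mul_le_mul_of_nonneg_left ?_ h3
    linarith
  nlinarith

theorem log_pow_le {ε : ℝ} (hε : 0 < ε) (hε1 : ε < 1) (s k : ℕ) (hs : 1 ≤ s) :
    (1 + Real.log (1 / ε)) ^ k ≤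
      ((s : ℝ) ^ k * k.factorial * Real.exp (1 / s)) * (1 / ε) ^ (1 / (s : ℝ)) := by
  have hsR : (0 : ℝ) < s := by exact_mod_cast hs
  have hlog : 0 ≤ Real.log (1 / ε) := Real.log_nonneg (by rw [le_div_iff₀ hε]; linarith)
  set l := 1 + Real.log (1 / ε) with hl
  have h1 := Real.pow_div_factorial_le_exp (l / s) (by positivity) k
  rw [div_le_iff₀ (by positivity)] at h1
  have h2 : l ^ k = (s : ℝ) ^ k * (l / s) ^ k := by
    rw [← mul_pow]; congr 1; field_simp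
  have h3 : Real.exp (l / s) = Real.exp (1 / s) * (1 / ε) ^ (1 / (s : ℝ)) := by
    rw [Real.rpow_def_of_pos (by positivity), ← Real.exp_add]
    congr 1
    rw [hl]; ring
  rw [h2]
  calc (s : ℝ) ^ k * (l / s) ^ k ≤ s ^ k * (Real.exp (l / s) * k.factorial) := by gcongr
    _ = _ := by rw [h3]; ring

/-- The parameters of the plane finding program. -/
noncomputable def mkPar (n d b m N Λ : ℕ) (h τ : ℝ) (T K : ℕ) (lam : ℝ) : Par d where
  P := box d m N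
  Q0 := fun k c => slopes n d b Λ h τ k c
  h := h
  τ := τ
  K := K
  R := ⌈3 / lam⌉₊
  R1 := 128 * T * T
  T := T
  T1 := T

/-- The number of stages. -/
theorem exists_T {c C0 l E : ℝ} {D0 : ℕ} (hc : 0 < c) (hc1 : c ≤ 1 / 4) (hC0 : 1 ≤ C0)
    (hE : 1 ≤ E) (hl : l = 1 + Real.log E) :
    ∃ T : ℕ, (1 : ℝ) ≤ T ∧ (T : ℝ) ≤ ((C0 + D0) / c ^ 2 + 1) * l ∧
      (1 - c ^ 2) ^ T ≤ 1 / (C0 * E ^ D0) ∧ (1 - c) ^ T ≤ 1 / (C0 * E ^ D0) ∧ 1 ≤ c * T := by
  have hlog : 0 ≤ Real.log E := Real.log_nonneg hE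
  have hEpos : 0 < E := by linarith
  have hl1 : 1 ≤ l := by linarith
  have hD : (0 : ℝ) ≤ D0 := by positivity
  obtain ⟨A, hA⟩ : ∃ A : ℝ, A = C0 + D0 := ⟨_, rfl⟩
  have hA1 : 1 ≤ A := by linarith
  rw [← hA]
  have hexp : C0 * E ^ D0 ≤ Real.exp (A * l) := by
    have h1 : C0 ≤ Real.exp C0 := by
      have := Real.add_one_le_exp C0
      linarith
    have h2 : E ^ D0 = Real.exp (D0 * Real.log E) := by
      rw [Real.exp_nat_mul, Real.exp_log hEpos]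
    calc C0 * E ^ D0 ≤ Real.exp C0 * Real.exp (D0 * Real.log E) := by
          rw [h2]; gcongr
      _ = Real.exp (C0 + D0 * Real.log E) := by rw [← Real.exp_add]
      _ ≤ Real.exp (A * l) := by
          apply Real.exp_le_exp.2
          rw [hA, hl]
          nlinarith
  have hTge : A * l / c ^ 2 ≤ (⌈A * l / c ^ 2⌉₊ : ℝ) := Nat.le_ceil _
  have hTle := Nat.ceil_lt_add_one (show (0 : ℝ) ≤ A * l / c ^ 2 by positivity)
  have hTpos : 0 < ⌈A * l / c ^ 2⌉₊ := Nat.ceil_pos.2 (by positivity)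
  obtain ⟨T, hT⟩ : ∃ T : ℕ, T = ⌈A * l / c ^ 2⌉₊ := ⟨_, rfl⟩
  rw [← hT] at hTge hTle hTpos
  have hT1 : (1 : ℝ) ≤ T := by exact_mod_cast hTpos
  have hTc : A * l ≤ c ^ 2 * T := by
    rw [div_le_iff₀ (by positivity)] at hTge
    linarith
  have hpowT : (1 - c ^ 2) ^ T ≤ 1 / (C0 * E ^ D0) := by
    have h1 := one_sub_pow_le_exp (x := c ^ 2) (by nlinarith) T
    refine h1.trans ?_
    rw [Real.exp_neg, ← one_div]
    exact one_div_le_one_div_of_le (by positivity) (hexp.trans (Real.exp_le_exp.2 hTc))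
  refine ⟨T, hT1, ?_, hpowT, ?_, ?_⟩
  · have h2 : (A / c ^ 2 + 1) * l = A * l / c ^ 2 + l := by ring
    rw [h2]
    linarith
  · refine le_trans (pow_le_pow_left₀ (by linarith) ?_ T) hpowT
    nlinarith
  · have h1 : 1 ≤ A * l := by nlinarith
    have h2 : c ^ 2 * T ≤ c * T := by
      have : c ^ 2 ≤ c := by nlinarith
      gcongr
    linarith

/-- The ratio of the thresholds. -/
theorem exists_K {κ E : ℝ} (hκ : 1 ≤ κ) (hE : 1 ≤ E) {s : ℕ} (hs : 1 ≤ s) :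
    ∃ K : ℕ, (1 : ℝ) ≤ K ∧ κ * E ≤ (K : ℝ) ^ s ∧ (K : ℝ) ≤ 2 * (κ * E ^ (1 / (s : ℝ))) := by
  have hsR : (1 : ℝ) ≤ s := by exact_mod_cast hs
  have hκE : 1 ≤ κ * E := by nlinarith
  obtain ⟨y, hy⟩ : ∃ y : ℝ, y = (κ * E) ^ (1 / (s : ℝ)) := ⟨_, rfl⟩
  have hy1 : 1 ≤ y := by rw [hy]; exact Real.one_le_rpow hκE (by positivity)
  have hys : y ^ s = κ * E := by
    rw [hy, ← Real.rpow_natCast, ← Real.rpow_mul (by positivity)]
    rw [one_div_mul_cancel (by positivity), Real.rpow_one]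
  have hyle : y ≤ κ * E ^ (1 / (s : ℝ)) := by
    rw [hy, Real.mul_rpow (by linarith) (by linarith)]
    have h1 : κ ^ (1 / (s : ℝ)) ≤ κ := by
      calc κ ^ (1 / (s : ℝ)) ≤ κ ^ (1 : ℝ) := by
            apply Real.rpow_le_rpow_of_exponent_le hκ
            rw [div_le_one (by linarith)]; exact hsR
        _ = κ := Real.rpow_one κ
    gcongr
  have hKy : y ≤ (⌈y⌉₊ : ℝ) := Nat.le_ceil _
  have hKle := Nat.ceil_lt_add_one (show (0 : ℝ) ≤ y by linarith)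
  refine ⟨⌈y⌉₊, hy1.trans hKy, ?_, by linarith⟩
  rw [← hys]
  exact pow_le_pow_left₀ (by linarith) hKy s

theorem exp_neg_three : Real.exp (-3) ≤ 1 / 8 := by
  rw [Real.exp_neg, ← one_div]
  refine one_div_le_one_div_of_le (by norm_num) ?_
  have h3 : (2 : ℝ) ≤ Real.exp 1 := by
    have := Real.add_one_le_exp 1
    linarith
  have h4 : Real.exp 3 = Real.exp 1 ^ 3 := by
    rw [← Real.exp_nat_mul]; norm_num
  rw [h4]
  calc (8 : ℝ) = 2 ^ 3 := by norm_num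
    _ ≤ Real.exp 1 ^ 3 := pow_le_pow_left₀ (by norm_num) h3 3

theorem eta_le (T : ℕ) (hT1 : (1 : ℝ) ≤ T) :
    (T : ℝ) * (T * (7 / 8 : ℝ) ^ (128 * T * T)) ≤ 1 / 16 := by
  have hT : 0 < T := by
    have : (0 : ℝ) < T := by linarith
    exact_mod_cast this
  have h1 := seven_eighths_pow (128 * T * T) (by positivity)
  calc (T : ℝ) * (T * (7 / 8 : ℝ) ^ (128 * T * T)) ≤ T * (T * (8 / ((128 * T * T : ℕ) : ℝ))) := by
        gcongr
    _ = 1 / 16 := by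
        push_cast
        field_simp
        norm_num

/-- The hypotheses for the soundness hold. -/
theorem mkPar_hyp {d n b m N Λ T K Gt : ℕ} {h τ lam : ℝ} (hNm : 1 ≤ N - 2 * m)
    (hlam0 : 0 < lam) (hlamc : lam ≤ cc d) (hτ : 0 ≤ τ)
    (hT1 : (1 : ℝ) ≤ T) (hK1 : (1 : ℝ) ≤ K)
    (hM : (1 - cc d ^ 2) ^ T * (((N - 2 * m) ^ d : ℕ) : ℝ) ≤ 1 / 8)
    (htop : (((N - 2 * m) ^ d : ℕ) : ℝ) < (K : ℝ) ^ Gt) :
    (mkPar n d b m N Λ h τ T K lam).Hyp Gt lam := by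
  have hcard : (mkPar n d b m N Λ h τ T K lam).P.card = (N - 2 * m) ^ d := card_box m N
  refine ⟨midClosed_box m N, ?_, hlam0.le, hlamc, ?_, ?_, eta_le T hT1, hτ, ?_, ?_⟩
  · rw [← card_pos, hcard]
    have : 0 < N - 2 * m := hNm
    positivity
  · change (1 - lam) ^ ⌈3 / lam⌉₊ ≤ 1 / 8
    have hc4 := cc_le d
    refine (one_sub_pow_le_exp (by linarith) _).trans ?_
    have h1 : 3 ≤ lam * ⌈3 / lam⌉₊ := by
      have := Nat.le_ceil (3 / lam)
      rw [div_le_iff₀ hlam0] at this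
      linarith
    exact (Real.exp_le_exp.2 (by linarith)).trans exp_neg_three
  · rw [hcard]
    exact hM
  · change 1 ≤ K
    exact_mod_cast hK1
  · rw [hcard]
    change (N - 2 * m) ^ d < K ^ Gt
    exact_mod_cast htop

/-- The bound for the number of queries. -/
theorem mkPar_cost {d n b m N Λ T K G : ℕ} {h τ ε : ℝ} (hε : 0 < ε) (hε1 : ε < 1)
    (hT1 : (1 : ℝ) ≤ T) (hK1 : (1 : ℝ) ≤ K) (hG1 : (1 : ℝ) ≤ G) :
    ((mkPar n d b m N Λ h τ T K (ε / (128 * G * T * K))).cost G : ℝ)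
      ≤ (258 * (T : ℝ) ^ 4) ^ G * (387 * G * T * K * (1 / ε)) := by
  set lam : ℝ := ε / (128 * G * T * K) with hlam
  have hTpos : (0 : ℝ) < T := by linarith
  have hKpos : (0 : ℝ) < K := by linarith
  have hGpos : (0 : ℝ) < G := by linarith
  have hlampos : 0 < lam := by positivity
  have hE1 : 1 ≤ 1 / ε := by rw [le_div_iff₀ hε]; linarith
  have h1 := (mkPar n d b m N Λ h τ T K lam).cost_le G
  have h2 : ((mkPar n d b m N Λ h τ T K lam).cost G : ℝ)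
      ≤ ((T : ℝ) * (128 * T * T) * (T + 1) + 2) ^ G * (⌈3 / lam⌉₊ + 2) := by
    have h3 : ((mkPar n d b m N Λ h τ T K lam).cost G : ℝ) + (⌈3 / lam⌉₊ + 2)
        ≤ ((T : ℝ) * (128 * T * T) * (T + 1) + 2) ^ G * (⌈3 / lam⌉₊ + 2) := by
      exact_mod_cast h1
    have h4 : (0 : ℝ) ≤ (⌈3 / lam⌉₊ : ℝ) + 2 := by positivity
    linarith
  refine h2.trans ?_
  have h3 : (T : ℝ) * (128 * T * T) * (T + 1) + 2 ≤ 258 * (T : ℝ) ^ 4 := by
    have h4 : (1 : ℝ) ≤ T ^ 4 := one_le_pow₀ hT1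
    have h5 : (T : ℝ) ^ 3 ≤ T ^ 4 := pow_le_pow_right₀ hT1 (by norm_num)
    have h6 : (T : ℝ) * (128 * T * T) * (T + 1) = 128 * T ^ 4 + 128 * T ^ 3 := by ring
    rw [h6]
    linarith
  have h4 : (⌈3 / lam⌉₊ : ℝ) + 2 ≤ 387 * G * T * K * (1 / ε) := by
    have h5 := Nat.ceil_lt_add_one (show (0 : ℝ) ≤ 3 / lam by positivity)
    have h6 : 3 / lam = 384 * (G * T * K * (1 / ε)) := by
      rw [hlam]; field_simp; norm_num
    have h7 : 1 ≤ (G : ℝ) * T * K * (1 / ε) := by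
      have h8 : 1 ≤ (G : ℝ) * T := one_le_mul_of_one_le_of_one_le hG1 hT1
      have h9 : 1 ≤ (G : ℝ) * T * K := one_le_mul_of_one_le_of_one_le h8 hK1
      exact one_le_mul_of_one_le_of_one_le h9 hE1
    linarith
  gcongr

end Pool.Agent.H702.CT
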