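import Pool.Agent.H702.CT.Params

set_option autoImplicit false
set_option linter.unusedSectionVars false
set_option maxHeartbeats 1000000

/-!
# The tester from the geometric data
-/

namespace Pool.Agent.H702.CT

open Finset

/-- The number of queries. -/
theorem queries_le {ε l z κ a1 F : ℝ} {s G T K : ℕ} {q : ℝ} {L : ℝ} (hε : 0 < ε)
    (hκ : 1 ≤ κ) (ha1 : 0 < a1) (hz : z = (1 / ε) ^ (1 / (s : ℝ)))
    (hT : (T : ℝ) ≤ a1 * l) (hK : (K : ℝ) ≤ 2 * (κ * z)) (hl : l ^ (4 * G + 1) ≤ F * z)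
    (hL : L ≤ 19 * (1 / ε)) (hq0 : 0 ≤ q)
    (hq : q ≤ (258 * (T : ℝ) ^ 4) ^ G * (387 * G * T * K * (1 / ε))) :
    L * q ≤ (19 * 387 * 2 * G * 258 ^ G * κ * a1 ^ (4 * G + 1) * F)
      * (1 / ε) ^ (2 + 2 / (s : ℝ)) := by
  obtain ⟨E, hE⟩ : ∃ E : ℝ, E = 1 / ε := ⟨_, rfl⟩
  have hEpos : 0 < E := by rw [hE]; positivity
  rw [← hE] at hz hL hq ⊢
  have hzpos : 0 < z := by rw [hz]; positivity
  have hrp : E ^ (2 + 2 / (s : ℝ)) = E ^ 2 * (z * z) := by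
    rw [hz, ← Real.rpow_add hEpos, ← Real.rpow_natCast E 2, ← Real.rpow_add hEpos]
    congr 1
    push_cast
    ring
  calc L * q ≤ (19 * E) * ((258 * (T : ℝ) ^ 4) ^ G * (387 * G * T * K * E)) := by gcongr
    _ ≤ (19 * E) * ((258 * (T : ℝ) ^ 4) ^ G * (387 * G * T * (2 * (κ * z)) * E)) := by gcongr
    _ = (19 * 387 * 2) * G * 258 ^ G * κ * T ^ (4 * G + 1) * (E ^ 2 * z) := by
        rw [mul_pow, ← pow_mul]; ring
    _ ≤ (19 * 387 * 2) * G * 258 ^ G * κ * (a1 * l) ^ (4 * G + 1) * (E ^ 2 * z) := by gcongr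
    _ = (19 * 387 * 2) * G * 258 ^ G * κ * a1 ^ (4 * G + 1) * (E ^ 2 * z) * l ^ (4 * G + 1) := by
        rw [mul_pow]; ring
    _ ≤ (19 * 387 * 2) * G * 258 ^ G * κ * a1 ^ (4 * G + 1) * (E ^ 2 * z) * (F * z) := by gcongr
    _ = _ := by rw [hrp]; ring

theorem exists_tester (d s G : ℕ) (hd : 1 ≤ d) (hs : 1 ≤ s) (hG : G = s * (3 * d + 1) + 1)
    (κ κ' : ℝ) (hκ : 1 ≤ κ) (hκ' : 1 ≤ κ') :
    ∃ C : ℝ, ∀ ε : ℝ, 0 < ε → ε < 1 → ∀ (n b m N Λ : ℕ) (h : ℝ),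
      Geom n d b m N Λ h (ε / (4 * G)) → 1 ≤ N - 2 * m →
      (((N - 2 * m : ℕ)) : ℝ) ≤ κ * (1 / ε) ^ 3 → (((2 * Λ + 1 : ℕ)) : ℝ) ≤ κ' * (1 / ε) ^ 7 →
      (1 - ε / 8) * (n : ℝ) ^ d ≤ (((N - 2 * m) * b) ^ d : ℕ) →
      ∃ (Te : Prog (Fin d → Fin n) Bool) (q : ℕ), Te.QueriesLE q ∧
        (q : ℝ) ≤ C * (1 / ε) ^ (2 + 2 / (s : ℝ)) ∧
        (∀ f, ConvexFn f → Te.expect f accI = 1) ∧
        ∀ f, (∀ x, 0 ≤ f x ∧ f x ≤ 1) → Far ε f → Te.expect f accI ≤ 1 / 3 := by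
  have hcpos : 0 < cc d := cc_pos d
  have hc4 : cc d ≤ 1 / 4 := cc_le d
  have hsR : (1 : ℝ) ≤ s := by exact_mod_cast hs
  have hG1 : 1 ≤ G := by omega
  have hGR : (1 : ℝ) ≤ G := by exact_mod_cast hG1
  obtain ⟨C0, hC0⟩ : ∃ C0 : ℝ, C0 = 8 * κ ^ d + 2 * κ' ^ d := ⟨_, rfl⟩
  obtain ⟨D0, hD0⟩ : ∃ D0 : ℕ, D0 = 7 * d := ⟨_, rfl⟩
  have hκd : (1 : ℝ) ≤ κ ^ d := one_le_pow₀ hκ
  have hκ'd : (1 : ℝ) ≤ κ' ^ d := one_le_pow₀ hκ'
  have hC01 : 1 ≤ C0 := by linarith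
  obtain ⟨a1, ha1⟩ : ∃ a1 : ℝ, a1 = (C0 + D0) / cc d ^ 2 + 1 := ⟨_, rfl⟩
  have ha1pos : 0 < a1 := by rw [ha1]; positivity
  refine ⟨19 * 387 * 2 * G * 258 ^ G * κ * a1 ^ (4 * G + 1)
    * ((s : ℝ) ^ (4 * G + 1) * (4 * G + 1).factorial * Real.exp (1 / s)), ?_⟩
  intro ε hε hε1 n b m N Λ h H hNm hNmκ hΛκ hout
  obtain ⟨E, hE⟩ : ∃ E : ℝ, E = 1 / ε := ⟨_, rfl⟩
  rw [← hE] at hNmκ hΛκ
  have hE1' : 1 < E := by rw [hE, lt_div_iff₀ hε]; linarith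
  have hE1 : 1 ≤ E := hE1'.le
  have hEpos : 0 < E := by linarith
  obtain ⟨l, hl⟩ : ∃ l : ℝ, l = 1 + Real.log E := ⟨_, rfl⟩
  obtain ⟨T, hT1, hTle, hpowT, hpowT1, hcT⟩ := exists_T (D0 := D0) hcpos hc4 hC01 hE1 hl
  rw [← ha1] at hTle
  obtain ⟨K, hK1, hKs, hKle⟩ := exists_K hκ hE1 hs
  have hTpos : (0 : ℝ) < T := by linarith
  have hKpos : (0 : ℝ) < K := by linarith
  have hGpos : (0 : ℝ) < G := by linarith
  have hlampos : 0 < ε / (128 * G * T * K) := by positivity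
  have hlamc : ε / (128 * G * T * K) ≤ cc d := by
    rw [div_le_iff₀ (by positivity)]
    have h2 : 1 ≤ G * (cc d * T) * K :=
      one_le_mul_of_one_le_of_one_le (one_le_mul_of_one_le_of_one_le hGR hcT) hK1
    have h3 : cc d * (128 * G * T * K) = 128 * (G * (cc d * T) * K) := by ring
    rw [h3]
    linarith
  have hMle : (((N - 2 * m) ^ d : ℕ) : ℝ) ≤ κ ^ d * E ^ (3 * d) := by
    rw [Nat.cast_pow, pow_mul, ← mul_pow]
    exact pow_le_pow_left₀ (by positivity) hNmκ d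
  have hC0E : 0 < C0 * E ^ D0 := by positivity
  have hED : 0 < E ^ D0 := by positivity
  have h8M : 8 * (((N - 2 * m) ^ d : ℕ) : ℝ) ≤ C0 * E ^ D0 := by
    have h1 : E ^ (3 * d) ≤ E ^ D0 := pow_le_pow_right₀ hE1 (by omega)
    have h4 : κ ^ d * E ^ (3 * d) ≤ κ ^ d * E ^ D0 := by gcongr
    have h5 : 0 ≤ 2 * κ' ^ d * E ^ D0 := by positivity
    have h6 : C0 * E ^ D0 = 8 * (κ ^ d * E ^ D0) + 2 * κ' ^ d * E ^ D0 := by rw [hC0]; ring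
    rw [h6]
    linarith
  have hM : (1 - cc d ^ 2) ^ T * (((N - 2 * m) ^ d : ℕ) : ℝ) ≤ 1 / 8 := by
    calc (1 - cc d ^ 2) ^ T * (((N - 2 * m) ^ d : ℕ) : ℝ)
        ≤ 1 / (C0 * E ^ D0) * (((N - 2 * m) ^ d : ℕ) : ℝ) := by gcongr
      _ ≤ 1 / 8 := by
        rw [one_div_mul_eq_div, div_le_iff₀ hC0E]
        linarith
  have htop : (((N - 2 * m) ^ d : ℕ) : ℝ) < (K : ℝ) ^ (s * (3 * d + 1)) := by
    have h1 : (κ * E) ^ (3 * d + 1) ≤ (K : ℝ) ^ (s * (3 * d + 1)) := by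
      rw [pow_mul]
      exact pow_le_pow_left₀ (by positivity) hKs _
    have h2 : κ ^ d * E ^ (3 * d) < (κ * E) ^ (3 * d + 1) := by
      rw [mul_pow]
      have h3 : κ ^ d ≤ κ ^ (3 * d + 1) := pow_le_pow_right₀ hκ (by omega)
      have h4 : E ^ (3 * d) < E ^ (3 * d + 1) := pow_lt_pow_right₀ hE1' (by omega)
      have h5 : (0 : ℝ) < κ ^ (3 * d + 1) := by positivity
      calc κ ^ d * E ^ (3 * d) ≤ κ ^ (3 * d + 1) * E ^ (3 * d) := by gcongr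
        _ < κ ^ (3 * d + 1) * E ^ (3 * d + 1) := mul_lt_mul_of_pos_left h4 h5
    linarith
  have hHyp := mkPar_hyp (n := n) (b := b) (Λ := Λ) (h := h) (τ := ε / (4 * G)) hNm hlampos hlamc
    H.hτ.le hT1 hK1 hM htop
  have hGt : ((s * (3 * d + 1) : ℕ) : ℝ) = G - 1 := by
    rw [hG]; push_cast; ring
  have hηT := eta_le T hT1
  obtain ⟨Te, hTe1, hTe2, hTe3⟩ := tester_works (b := b) (m := m) (N := N) (Λ := Λ)
    (Gt := s * (3 * d + 1)) (L := ⌈18 * E⌉₊) (lam := ε / (128 * G * T * K)) (ε := ε)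
    (mkPar n d b m N Λ h (ε / (4 * G)) T K (ε / (128 * G * T * K))) H rfl rfl hHyp hε hε1
    (by
      change (((2 * Λ + 1) ^ d : ℕ) : ℝ) * (1 - cc d) ^ T < 1
      have h1 : (((2 * Λ + 1) ^ d : ℕ) : ℝ) ≤ κ' ^ d * E ^ D0 := by
        rw [Nat.cast_pow, hD0, pow_mul, ← mul_pow]
        exact pow_le_pow_left₀ (by positivity) hΛκ d
      have h2 : κ' ^ d * E ^ D0 < C0 * E ^ D0 := by
        refine mul_lt_mul_of_pos_right ?_ hED
        linarith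
      have h7 : (0 : ℝ) ≤ (1 - cc d) ^ T := by
        have : 0 ≤ 1 - cc d := by linarith
        positivity
      calc (((2 * Λ + 1) ^ d : ℕ) : ℝ) * (1 - cc d) ^ T
          ≤ (κ' ^ d * E ^ D0) * (1 / (C0 * E ^ D0)) := by gcongr
        _ < 1 := by
            rw [mul_one_div, div_lt_one hC0E]
            exact h2)
    (by
      change (T : ℝ) * (7 / 8 : ℝ) ^ (128 * T * T) ≤ 1 / 16
      have h1 : 0 ≤ (T : ℝ) * (7 / 8 : ℝ) ^ (128 * T * T) := by positivity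
      nlinarith)
    (by
      have h1 := Nat.le_ceil (18 * E)
      have h2 : 15 / 16 * (ε / 8) * (18 * E) = 15 * 18 / 128 := by
        rw [hE]; field_simp; norm_num
      have h3 : 15 / 16 * (ε / 8) * (18 * E) ≤ 15 / 16 * (ε / 8) * (⌈18 * E⌉₊ : ℝ) := by
        gcongr
      rw [h2] at h3
      linarith)
    (by
      change (K : ℝ) * T * (((s * (3 * d + 1) : ℕ) : ℝ) * (ε / (128 * G * T * K)))
        ≤ 5 / 64 * (ε / 8)
      rw [hGt]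
      have h1 : (K : ℝ) * T * ((G - 1) * (ε / (128 * G * T * K))) = (G - 1) / G * (ε / 128) := by
        field_simp
      rw [h1]
      have h2 : ((G : ℝ) - 1) / G ≤ 1 := by
        rw [div_le_one (by linarith)]; linarith
      have h3 : ((G : ℝ) - 1) / G * (ε / 128) ≤ 1 * (ε / 128) := by gcongr
      linarith)
    (by
      change ε / (4 * G) ≤ ε / 2 - ((s * (3 * d + 1) : ℕ) : ℝ) * (ε / (4 * G))
      rw [hGt]
      have h1 : ((G : ℝ) - 1) * (ε / (4 * G)) = ε / 4 - ε / (4 * G) := by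
        field_simp
      rw [h1]
      linarith)
    (by
      change 4 * (ε / (4 * G)) ≤ ε
      have h1 : 4 * (ε / (4 * (G : ℝ))) = ε / G := by field_simp
      rw [h1]
      exact div_le_self hε.le hGR)
    hout
  refine ⟨Te, _, hTe1, ?_, hTe2, hTe3⟩
  have hLle : ((⌈18 * E⌉₊ : ℕ) : ℝ) ≤ 19 * (1 / ε) := by
    have := Nat.ceil_lt_add_one (show (0 : ℝ) ≤ 18 * E by positivity)
    rw [← hE]
    linarith
  have hlp := log_pow_le hε hε1 s (4 * G + 1) hs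
  rw [← hE, ← hl] at hlp
  rw [Nat.cast_mul, ← hG]
  refine queries_le (s := s) (T := T) (K := K) (l := l) (z := (1 / ε) ^ (1 / (s : ℝ))) hε hκ
    ha1pos rfl hTle ?_ ?_ hLle (by positivity)
    (mkPar_cost hε hε1 hT1 hK1 hGR)
  · rw [← hE]; exact hKle
  · rw [← hE]; exact hlp

end Pool.Agent.H702.CT
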