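import Mathlib

set_option autoImplicit false

/-!
# Supporting planes of convex functions on finite sets
-/

namespace Pool.Agent.H702.CT

open Finset

/-- Supporting planes, up to a small error. -/
theorem exists_slope {ι κ : Type} [Fintype ι] [DecidableEq ι] [Finite κ] (ξ : κ → ι → ℝ)
    (f : κ → ℝ) (hf1 : ∀ x, f x ≤ 1) (D : Set (ι → ℝ)) (F : (ι → ℝ) → ℝ)
    (hF : ConvexOn ℝ D F) (hD : ∀ x, ξ x ∈ D) (hFf : ∀ x, f x = F (ξ x))
    (z : κ) {e : ℝ} (he : 0 < e) :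
    ∃ σ : ι → ℝ, ∀ x, f z - e + ∑ i, σ i * (ξ x i - ξ z i) ≤ f x := by
  set S : Set ((ι → ℝ) × ℝ) := Set.range (fun x => (ξ x, f x)) ∪ Set.range (fun x => (ξ x, (2 : ℝ)))
    with hS
  have hfin : S.Finite := (Set.finite_range _).union (Set.finite_range _)
  have hsub : convexHull ℝ S ⊆ {p : (ι → ℝ) × ℝ | p.1 ∈ D ∧ F p.1 ≤ p.2} := by
    refine convexHull_min ?_ hF.convex_epigraph
    rintro p (⟨x, rfl⟩ | ⟨x, rfl⟩)
    · exact ⟨hD x, (hFf x).symm.le⟩
    · refine ⟨hD x, ?_⟩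
      simp only
      rw [← hFf x]
      linarith [hf1 x]
  have hnot : (ξ z, f z - e) ∉ convexHull ℝ S := by
    intro h
    have h1 := (hsub h).2
    simp only at h1
    rw [← hFf z] at h1
    linarith
  obtain ⟨φ, u, hφ1, hφ2⟩ := geometric_hahn_banach_point_closed (convex_convexHull ℝ S)
    (hfin.isClosed_convexHull (𝕜 := ℝ)) hnot
  set c := φ (0, 1) with hc
  set s : ι → ℝ := fun i => φ (Pi.single i 1, 0) with hs
  have hφ : ∀ v t, φ (v, t) = ∑ i, v i * s i + t * c := by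
    intro v t
    have h1 : ((v, t) : (ι → ℝ) × ℝ) = ∑ i, v i • ((Pi.single i 1, 0) : (ι → ℝ) × ℝ)
        + t • ((0, 1) : (ι → ℝ) × ℝ) := by
      refine Prod.ext ?_ ?_
      · simp only [Prod.fst_add, Prod.fst_sum, Prod.smul_fst, smul_zero, add_zero]
        funext j
        simp [Finset.sum_apply, Pi.single_apply]
      · simp [Prod.snd_sum]
    rw [h1, map_add, map_sum]
    simp only [map_smul, smul_eq_mul]
    rfl
  have hmem1 : ∀ x, ((ξ x, f x) : (ι → ℝ) × ℝ) ∈ convexHull ℝ S := fun x =>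
    subset_convexHull ℝ S (Or.inl ⟨x, rfl⟩)
  have hmem2 : ∀ x, ((ξ x, (2 : ℝ)) : (ι → ℝ) × ℝ) ∈ convexHull ℝ S := fun x =>
    subset_convexHull ℝ S (Or.inr ⟨x, rfl⟩)
  have h1 := hφ2 _ (hmem2 z)
  rw [hφ] at hφ1 h1
  have hcpos : 0 < c := by
    have h2 : (f z - e) * c < 2 * c := by linarith
    have h3 : 0 < (2 - (f z - e)) * c := by linarith
    have h4 : 0 < 2 - (f z - e) := by linarith [hf1 z]
    exact (mul_pos_iff_of_pos_left h4).1 h3
  refine ⟨fun i => - s i / c, fun x => ?_⟩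
  have h2 := hφ2 _ (hmem1 x)
  rw [hφ] at h2
  have h3 : ∑ i, (- s i / c) * (ξ x i - ξ z i)
      = (∑ i, ξ z i * s i - ∑ i, ξ x i * s i) / c := by
    rw [← sum_sub_distrib, sum_div]
    refine sum_congr rfl fun i _ => ?_
    ring
  rw [h3]
  have h4 : (∑ i, ξ z i * s i - ∑ i, ξ x i * s i) / c ≤ f x - (f z - e) := by
    rw [div_le_iff₀ hcpos]
    linarith
  linarith

end Pool.Agent.H702.CT
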