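import Pool.Agent.H702.CT.Plane
import Pool.Agent.H702.CT.Core

set_option autoImplicit false

/-!
# Slopes of supporting planes on grids: bounds, clipping and rounding
-/

namespace Pool.Agent.H702.CT

open Finset

variable {n d : ℕ}

/-- The plane with slopes `σ` through the point `f z - e` at `z` supports `f`. -/
def Supp (f : (Fin d → Fin n) → ℝ) (z : Fin d → Fin n) (e : ℝ) (σ : Fin d → ℝ) : Prop :=
  ∀ x : Fin d → Fin n, f z - e + ∑ i, σ i * (((x i : ℕ) : ℝ) - ((z i : ℕ) : ℝ)) ≤ f x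

theorem slope_up {f : (Fin d → Fin n) → ℝ} (hf : ∀ x, 0 ≤ f x ∧ f x ≤ 1) {z : Fin d → Fin n}
    {e : ℝ} {σ : Fin d → ℝ} (hσ : Supp f z e σ) (i : Fin d) (r : ℕ) (hr : (z i : ℕ) + r < n) :
    σ i * r ≤ 1 + e := by
  have h1 := hσ (Function.update z i ⟨(z i : ℕ) + r, hr⟩)
  have h2 : ∑ j, σ j * ((((Function.update z i ⟨(z i : ℕ) + r, hr⟩ : Fin d → Fin n) j : ℕ) : ℝ)
      - ((z j : ℕ) : ℝ)) = σ i * r := by
    rw [sum_eq_single i]
    · simp
    · intro j _ hj
      rw [Function.update_of_ne hj]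
      ring
    · intro h; exact absurd (mem_univ _) h
  rw [h2] at h1
  have h3 := (hf (Function.update z i ⟨(z i : ℕ) + r, hr⟩)).2
  have h4 := (hf z).1
  linarith

theorem slope_down {f : (Fin d → Fin n) → ℝ} (hf : ∀ x, 0 ≤ f x ∧ f x ≤ 1) {z : Fin d → Fin n}
    {e : ℝ} {σ : Fin d → ℝ} (hσ : Supp f z e σ) (i : Fin d) (r : ℕ) (hr : r ≤ (z i : ℕ)) :
    -(σ i * r) ≤ 1 + e := by
  have hlt : (z i : ℕ) - r < n := lt_of_le_of_lt (Nat.sub_le _ _) (z i).2
  have h1 := hσ (Function.update z i ⟨(z i : ℕ) - r, hlt⟩)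
  have h2 : ∑ j, σ j * ((((Function.update z i ⟨(z i : ℕ) - r, hlt⟩ : Fin d → Fin n) j : ℕ) : ℝ)
      - ((z j : ℕ) : ℝ)) = -(σ i * r) := by
    rw [sum_eq_single i]
    · rw [Function.update_self]
      simp only
      rw [Nat.cast_sub hr]
      ring
    · intro j _ hj
      rw [Function.update_of_ne hj]
      ring
    · intro h; exact absurd (mem_univ _) h
  rw [h2] at h1
  have h3 := (hf (Function.update z i ⟨(z i : ℕ) - r, hlt⟩)).2
  have h4 := (hf z).1
  linarith

/-- Clipping of slopes. -/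
theorem clip_slope {f : (Fin d → Fin n) → ℝ} (hf : ∀ x, 0 ≤ f x ∧ f x ≤ 1) {z : Fin d → Fin n}
    {e : ℝ} (he : 0 ≤ e) (he1 : e ≤ 1) {σ : Fin d → ℝ} (hσ : Supp f z e σ) :
    ∃ σ' : Fin d → ℝ, (∀ i, |σ' i| ≤ 2 * d * n + 1) ∧ Supp f z e σ' := by
  classical
  rcases Nat.eq_zero_or_pos d with hd | hd
  · subst hd
    exact ⟨σ, fun i => i.elim0, hσ⟩
  have hn : 1 ≤ n := by
    have := (z ⟨0, hd⟩).2
    omega
  have hdR : (1 : ℝ) ≤ d := by exact_mod_cast hd
  have hnR : (1 : ℝ) ≤ n := by exact_mod_cast hn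
  set B : ℝ := 2 * d * n + 1 with hB
  have hB2 : 2 ≤ B := by
    have : (1 : ℝ) ≤ d * n := by nlinarith
    rw [hB]
    nlinarith
  set σ' : Fin d → ℝ := fun i => max (-B) (min (σ i) B) with hσ'
  refine ⟨σ', fun i => ?_, fun x => ?_⟩
  · rw [abs_le]
    refine ⟨le_max_left _ _, max_le (by linarith) (min_le_right _ _)⟩
  have hup : ∀ j, ((z j : ℕ) : ℝ) < ((x j : ℕ) : ℝ) → σ j ≤ 2 := by
    intro j hj
    have hj' : (z j : ℕ) < (x j : ℕ) := by exact_mod_cast hj
    have := slope_up hf hσ j 1 (by have := (x j).2; omega)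
    push_cast at this
    linarith
  have hdown : ∀ j, ((x j : ℕ) : ℝ) < ((z j : ℕ) : ℝ) → -2 ≤ σ j := by
    intro j hj
    have hj' : (x j : ℕ) < (z j : ℕ) := by exact_mod_cast hj
    have := slope_down hf hσ j 1 (by omega)
    push_cast at this
    linarith
  have hdist : ∀ j, |((x j : ℕ) : ℝ) - ((z j : ℕ) : ℝ)| ≤ n := by
    intro j
    have h1 : ((x j : ℕ) : ℝ) ≤ n := by exact_mod_cast (x j).2.le
    have h2 : ((z j : ℕ) : ℝ) ≤ n := by exact_mod_cast (z j).2.le
    have h3 : (0 : ℝ) ≤ ((x j : ℕ) : ℝ) := by positivity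
    have h4 : (0 : ℝ) ≤ ((z j : ℕ) : ℝ) := by positivity
    rw [abs_le]
    constructor <;> linarith
  have hterm : ∀ j, σ' j * (((x j : ℕ) : ℝ) - ((z j : ℕ) : ℝ)) ≤ 2 * n := by
    intro j
    have hj := abs_le.1 (hdist j)
    rcases lt_trichotomy ((z j : ℕ) : ℝ) ((x j : ℕ) : ℝ) with h | h | h
    · have h1 : σ' j ≤ 2 := max_le (by linarith) ((min_le_left _ _).trans (hup j h))
      have h2 : 0 < ((x j : ℕ) : ℝ) - ((z j : ℕ) : ℝ) := by linarith
      nlinarith
    · rw [h, sub_self, mul_zero]; positivity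
    · have h1 : -2 ≤ σ' j := le_max_of_le_right (le_min (hdown j h) (by linarith))
      have h2 : ((x j : ℕ) : ℝ) - ((z j : ℕ) : ℝ) < 0 := by linarith
      nlinarith
  by_cases hex : ∃ i, ((x i : ℕ) : ℝ) ≠ ((z i : ℕ) : ℝ) ∧ σ' i ≠ σ i
  · obtain ⟨i, hi, hi'⟩ := hex
    have hti : σ' i * (((x i : ℕ) : ℝ) - ((z i : ℕ) : ℝ)) ≤ -B := by
      rcases lt_or_gt_of_ne hi with h | h
      · -- x i < z i, so the slope is at least -2, so it was clipped from above
        have h1 := hdown i h
        have h2 : B < σ i := by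
          by_contra h3
          rw [not_lt] at h3
          apply hi'
          simp only [hσ']
          rw [min_eq_left h3, max_eq_right (by linarith)]
        have h3 : σ' i = B := by
          simp only [hσ']
          rw [min_eq_right h2.le, max_eq_right (by linarith)]
        rw [h3]
        have h4 : ((x i : ℕ) : ℝ) + 1 ≤ ((z i : ℕ) : ℝ) := by
          have : (x i : ℕ) < (z i : ℕ) := by exact_mod_cast h
          exact_mod_cast this
        nlinarith
      · have h1 := hup i h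
        have h2 : σ i < -B := by
          by_contra h3
          rw [not_lt] at h3
          apply hi'
          simp only [hσ']
          rw [min_eq_left (by linarith), max_eq_right h3]
        have h3 : σ' i = -B := by
          simp only [hσ']
          rw [min_eq_left (by linarith), max_eq_left h2.le]
        rw [h3]
        have h4 : ((z i : ℕ) : ℝ) + 1 ≤ ((x i : ℕ) : ℝ) := by
          have : (z i : ℕ) < (x i : ℕ) := by exact_mod_cast h
          exact_mod_cast this
        nlinarith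
    have hsum : ∑ j, σ' j * (((x j : ℕ) : ℝ) - ((z j : ℕ) : ℝ)) ≤ -B + 2 * d * n := by
      rw [← add_sum_erase univ _ (mem_univ i)]
      refine add_le_add hti ?_
      refine (sum_le_card_nsmul _ _ (2 * n : ℝ) fun j _ => hterm j).trans ?_
      rw [nsmul_eq_mul]
      have h1 : ((univ.erase i : Finset (Fin d)).card : ℝ) ≤ d := by
        have := card_le_card (erase_subset i (univ : Finset (Fin d)))
        rw [card_univ, Fintype.card_fin] at this
        exact_mod_cast this
      nlinarith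
    have h1 := (hf z).2
    have h2 := (hf x).1
    rw [hB] at hsum
    linarith
  · have h1 : ∑ i, σ' i * (((x i : ℕ) : ℝ) - ((z i : ℕ) : ℝ))
        = ∑ i, σ i * (((x i : ℕ) : ℝ) - ((z i : ℕ) : ℝ)) := by
      refine sum_congr rfl fun i _ => ?_
      by_cases h2 : ((x i : ℕ) : ℝ) = ((z i : ℕ) : ℝ)
      · rw [h2, sub_self, mul_zero, mul_zero]
      · have h3 : σ' i = σ i := by
          by_contra h4
          exact hex ⟨i, h2, h4⟩
        rw [h3]
    rw [h1]
    exact hσ x

/-- Comparison of a plane with rounded slopes with the original plane. -/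
theorem plR_round (h : ℝ) (hh : 0 < h) (b : ℝ) (σ : Fin d → ℝ) (k : Fin d → ℤ)
    (c : ℝ) (y : Fin d → ℝ) (W : ℝ) (hW : ∀ i, |y i - k i| ≤ W) :
    |plR h k c (fun i => round (b * σ i / h)) y - (c + ∑ i, σ i * (b * y i - b * k i))|
      ≤ d * (h / 2 * W) := by
  have h1 : plR h k c (fun i => round (b * σ i / h)) y - (c + ∑ i, σ i * (b * y i - b * k i))
      = ∑ i, (h * round (b * σ i / h) - b * σ i) * (y i - k i) := by
    unfold plR
    rw [mul_sum]
    rw [add_sub_add_left_eq_sub, ← sum_sub_distrib]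
    refine sum_congr rfl fun i _ => ?_
    ring
  rw [h1]
  refine (abs_sum_le_sum_abs _ _).trans ?_
  have h2 : ∀ i ∈ (univ : Finset (Fin d)),
      |(h * round (b * σ i / h) - b * σ i) * (y i - k i)| ≤ h / 2 * W := by
    intro i _
    rw [abs_mul]
    have h3 : |h * round (b * σ i / h) - b * σ i| ≤ h / 2 := by
      have h4 := abs_sub_round (b * σ i / h)
      have h5 : h * round (b * σ i / h) - b * σ i
          = -(h * (b * σ i / h - round (b * σ i / h))) := by
        field_simp
        ring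
      rw [h5, abs_neg, abs_mul, abs_of_pos hh]
      nlinarith
    exact mul_le_mul h3 (hW i) (abs_nonneg _) (by positivity)
  refine (sum_le_card_nsmul _ _ _ h2).trans ?_
  rw [card_univ, Fintype.card_fin, nsmul_eq_mul]

end Pool.Agent.H702.CT
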