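import Pool.Agent.H702.CT.Defs

set_option autoImplicit false

/-!
# Randomized adaptive query programs
-/

namespace Pool.Agent.H702.CT

open Finset

namespace Prog

variable {X Y α β : Type}

/-- Sequential composition. -/
def bind : Prog X α → (α → Prog X β) → Prog X β
  | ret a, g => g a
  | query x k, g => query x fun v => (k v).bind g
  | toss m k, g => toss m fun i => (k i).bind g

/-- Renaming the query points. -/
def mapQ (π : X → Y) : Prog X α → Prog Y α
  | ret a => ret a
  | query x k => query (π x) fun v => (k v).mapQ π
  | toss m k => toss m fun i => (k i).mapQ π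

theorem expect_ret (f : X → ℝ) (a : α) (φ : α → ℝ) : (ret a : Prog X α).expect f φ = φ a := rfl

theorem expect_query (f : X → ℝ) (x : X) (k : ℝ → Prog X α) (φ : α → ℝ) :
    (query x k).expect f φ = (k (f x)).expect f φ := rfl

theorem expect_bind (f : X → ℝ) (c : Prog X α) (g : α → Prog X β) (φ : β → ℝ) :
    (c.bind g).expect f φ = c.expect f fun a => (g a).expect f φ := by
  induction c with
  | ret a => rfl
  | query x k ih => exact ih _
  | toss m k ih => simp only [bind, expect, ih]

theorem expect_mapQ (π : X → Y) (f : Y → ℝ) (c : Prog X α) (φ : α → ℝ) :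
    (c.mapQ π).expect f φ = c.expect (fun x => f (π x)) φ := by
  induction c with
  | ret a => rfl
  | query x k ih => exact ih _
  | toss m k ih => simp only [mapQ, expect, ih]

theorem expect_mono (f : X → ℝ) (c : Prog X α) {φ ψ : α → ℝ} (h : ∀ a, φ a ≤ ψ a) :
    c.expect f φ ≤ c.expect f ψ := by
  induction c with
  | ret a => exact h a
  | query x k ih => exact ih _
  | toss m k ih =>
    simp only [expect]
    gcongr with i
    exact ih i

theorem expect_const (f : X → ℝ) (c : Prog X α) (r : ℝ) : (c.expect f fun _ => r) = r := by
  induction c with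
  | ret a => rfl
  | query x k ih => exact ih _
  | toss m k ih =>
    simp only [expect, ih, sum_const, card_univ, Fintype.card_fin, nsmul_eq_mul]
    push_cast
    field_simp

theorem expect_add (f : X → ℝ) (c : Prog X α) (φ ψ : α → ℝ) :
    (c.expect f fun a => φ a + ψ a) = c.expect f φ + c.expect f ψ := by
  induction c with
  | ret a => rfl
  | query x k ih => exact ih _
  | toss m k ih =>
    simp only [expect, ih, sum_add_distrib, add_div]

theorem expect_mul (f : X → ℝ) (c : Prog X α) (r : ℝ) (φ : α → ℝ) :
    (c.expect f fun a => r * φ a) = r * c.expect f φ := by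
  induction c with
  | ret a => rfl
  | query x k ih => exact ih _
  | toss m k ih =>
    simp only [expect, ih, ← mul_sum, mul_div_assoc]

theorem expect_sum {ι : Type} (f : X → ℝ) (c : Prog X α) (s : Finset ι) (φ : ι → α → ℝ) :
    (c.expect f fun a => ∑ i ∈ s, φ i a) = ∑ i ∈ s, c.expect f (φ i) := by
  classical
  induction s using Finset.induction_on with
  | empty => simpa using expect_const f c 0
  | insert i s hi ih =>
    simp only [sum_insert hi]
    rw [expect_add, ih]

theorem expect_nonneg (f : X → ℝ) (c : Prog X α) {φ : α → ℝ} (h : ∀ a, 0 ≤ φ a) :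
    0 ≤ c.expect f φ := by
  have := expect_mono f c (φ := fun _ => 0) (ψ := φ) h
  rwa [expect_const] at this

theorem expect_le (f : X → ℝ) (c : Prog X α) {φ : α → ℝ} {r : ℝ} (h : ∀ a, φ a ≤ r) :
    c.expect f φ ≤ r := by
  have := expect_mono f c (φ := φ) (ψ := fun _ => r) h
  rwa [expect_const] at this

theorem QueriesLE.mono {c : Prog X α} : ∀ {q q' : ℕ}, c.QueriesLE q → q ≤ q' → c.QueriesLE q' := by
  induction c with
  | ret a => intro q q' _ _; trivial
  | query x k ih =>
    intro q q' h hq
    cases q with
    | zero => exact h.elim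
    | succ q =>
      cases q' with
      | zero => omega
      | succ q' => exact fun v => ih v (h v) (by omega)
  | toss m k ih => intro q q' h hq; exact fun i => ih i (h i) hq

theorem QueriesLE.bind {c : Prog X α} {g : α → Prog X β} {q' : ℕ} (hg : ∀ a, (g a).QueriesLE q') :
    ∀ {q : ℕ}, c.QueriesLE q → (c.bind g).QueriesLE (q + q') := by
  induction c with
  | ret a => intro q _; exact (hg a).mono (by omega)
  | query x k ih =>
    intro q h
    cases q with
    | zero => exact h.elim
    | succ q =>
      have : q + 1 + q' = (q + q') + 1 := by omega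
      rw [this]
      exact fun v => ih v (h v)
  | toss m k ih => intro q h; exact fun i => ih i (h i)

theorem QueriesLE.mapQ (π : X → Y) {c : Prog X α} : ∀ {q : ℕ}, c.QueriesLE q →
    (c.mapQ π).QueriesLE q := by
  induction c with
  | ret a => intro q _; trivial
  | query x k ih =>
    intro q h
    cases q with
    | zero => exact h.elim
    | succ q => exact fun v => ih v (h v)
  | toss m k ih => intro q h; exact fun i => ih i (h i)

/-- A uniformly random element of a nonempty finite set. -/
noncomputable def unif (s : Finset α) (hs : s.Nonempty) : Prog X α :=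
  toss (s.card - 1) fun i => ret (s.equivFin.symm (Fin.cast
    (by have := hs.card_pos; omega) i)).1

theorem expect_unif (f : X → ℝ) (s : Finset α) (hs : s.Nonempty) (φ : α → ℝ) :
    (unif s hs : Prog X α).expect f φ = (∑ a ∈ s, φ a) / s.card := by
  have hc : s.card - 1 + 1 = s.card := by have := hs.card_pos; omega
  simp only [unif, expect]
  have h1 : ((s.card - 1 : ℕ) : ℝ) + 1 = s.card := by exact_mod_cast hc
  rw [h1]
  congr 1
  have h2 : ∑ a ∈ s, φ a = ∑ a : s, φ a.1 := by rw [← sum_coe_sort]
  rw [h2]
  exact Fintype.sum_equiv ((finCongr hc).trans s.equivFin.symm) _ _ (fun i => rfl)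

theorem unif_queriesLE (s : Finset α) (hs : s.Nonempty) : (unif s hs : Prog X α).QueriesLE 0 :=
  fun _ => trivial

end Prog

end Pool.Agent.H702.CT
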