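import Pool.Agent.H702.CT.Val2

set_option autoImplicit false
set_option linter.unusedSectionVars false

/-!
# Soundness: the planes which pass rarely exceed the function
-/

namespace Pool.Agent.H702.CT

open Finset

variable {d : ℕ} {O : Type} [Fintype O] [Nonempty O]

theorem expect_many {X : Type} (f : X → ℝ) (c : Prog X (Out X)) (r : ℕ) :
    (many c r).expect f okI = (c.expect f okI) ^ r := by
  induction r with
  | zero => simp [many, Prog.expect, okI]
  | succ r ih =>
    rw [many, Prog.expect_bind]
    have h : (fun o : Out X => (match o with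
      | Out.ok => many c r
      | Out.bot => Prog.ret Out.bot
      | Out.viol u v => Prog.ret (Out.viol u v) : Prog X (Out X)).expect f okI)
        = fun o => (c.expect f okI) ^ r * okI o := by
      funext o
      cases o with
      | ok => simp [ih, okI]
      | bot => simp [Prog.expect, okI]
      | viol u v => simp [Prog.expect, okI]
    refine (congrArg _ h).trans ?_
    rw [Prog.expect_mul, pow_succ]

/-- The run for the plane through `(x, f x)` with slope `a` accepts with high probability. -/
def GoodPl (p : Par d) (f : Pt d O → ℝ) (g : ℕ) (x : Pt d O) (a : Fin d → ℤ) : Prop :=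
  7 / 8 ≤ okp p (plane p g) f (pl p.h x.1 (f x) a) (p.thr g) p.T p.P

open Classical in
theorem loop_good (p : Par d) (PL : Pt d O → Prog (Pt d O) (Option (Fin d → ℤ)))
    (f : Pt d O → ℝ) (thr : ℕ) (z : Fin d → ℤ) (c : ℝ) (t : ℕ) :
    ∀ Q : Finset (Fin d → ℤ), (loop p PL thr z c t Q).expect f (fun o => o.elim 0 fun a =>
      if a ∈ Q ∧ 7 / 8 ≤ okp p PL f (pl p.h z c a) thr p.T p.P then 0 else 1)
      ≤ t * (7 / 8) ^ p.R1 := by
  induction t with
  | zero => intro Q; simp [loop, Prog.expect]
  | succ t ih =>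
    intro Q
    rw [loop]
    by_cases hQ : ∃ a, Deep Q a
    · rw [dif_pos hQ, Prog.expect_bind]
      set a0 := hQ.choose with ha0
      have hdeep : Deep Q a0 := hQ.choose_spec
      set r : ℝ := if 7 / 8 ≤ okp p PL f (pl p.h z c a0) thr p.T p.P then 0 else 1 with hr
      have hr0 : 0 ≤ r := by rw [hr]; split_ifs <;> norm_num
      have hpow : (0 : ℝ) ≤ t * (7 / 8) ^ p.R1 := by positivity
      have h1 : ∀ o : Out (Pt d O), (match o with
        | Out.ok => Prog.ret (some a0)
        | Out.bot => Prog.ret none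
        | Out.viol u v => loop p PL thr z c t
            (Q.filter fun a' => pl p.h z c a' u.1 ≤ v + p.τ / 2) :
            Prog (Pt d O) (Option (Fin d → ℤ))).expect f (fun o => o.elim 0 fun a =>
          if a ∈ Q ∧ 7 / 8 ≤ okp p PL f (pl p.h z c a) thr p.T p.P then 0 else 1)
          ≤ r * okI o + t * (7 / 8) ^ p.R1 := by
        intro o
        cases o with
        | ok =>
          simp only [Prog.expect, Option.elim, okI, mul_one, hdeep.1, true_and]
          rw [← hr]
          linarith
        | bot =>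
          simp only [Prog.expect, Option.elim, okI, mul_zero, zero_add]
          exact hpow
        | viol u v =>
          simp only [okI, mul_zero, zero_add]
          refine le_trans (Prog.expect_mono _ _ fun o => ?_) (ih _)
          cases o with
          | none => exact le_refl _
          | some a =>
            simp only [Option.elim]
            split_ifs with h2 h3 h3
            · exact le_refl _
            · norm_num
            · exact absurd ⟨(mem_filter.1 h3.1).1, h3.2⟩ h2
            · exact le_refl _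
      refine (Prog.expect_mono _ _ h1).trans ?_
      rw [Prog.expect_add, Prog.expect_mul, Prog.expect_const, expect_many]
      have h2 : r * ((run p PL thr (pl p.h z c a0) p.T p.P).expect f okI) ^ p.R1
          ≤ (7 / 8) ^ p.R1 := by
        rw [hr]
        split_ifs with h3
        · rw [zero_mul]; positivity
        · rw [one_mul]
          have h4 := okp_nonneg p PL f (pl p.h z c a0) thr p.T p.P
          exact pow_le_pow_left₀ h4 (not_le.1 h3).le _
      push_cast
      linarith
    · rw [dif_neg hQ]
      simp only [Prog.expect, Option.elim]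
      positivity

open Classical in
theorem plane_good (p : Par d) (f : Pt d O → ℝ) (g : ℕ) (x : Pt d O) :
    (plane p (g + 1) x).expect f (fun o => o.elim 0 fun a =>
      if a ∈ p.Q0 x.1 (f x) ∧ GoodPl p f g x a then 0 else 1) ≤ p.T1 * (7 / 8) ^ p.R1 := by
  rw [plane, Prog.expect_query]
  exact loop_good p (plane p g) f (p.thr g) x.1 (f x) p.T1 (p.Q0 x.1 (f x))

/-- The hypotheses for the soundness. -/
structure Par.Hyp (p : Par d) (Gt : ℕ) (lam : ℝ) : Prop where
  hP : MidClosed p.P
  hPne : p.P.Nonempty
  hlam0 : 0 ≤ lam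
  hlam : lam ≤ cc d
  hR : (1 - lam) ^ p.R ≤ 1 / 8
  hT : (1 - cc d ^ 2) ^ p.T * p.P.card ≤ 1 / 8
  hη : p.T * (p.T1 * (7 / 8 : ℝ) ^ p.R1) ≤ 1 / 16
  hτ : 0 ≤ p.τ
  hK : 1 ≤ p.K
  htop : p.P.card < p.K ^ Gt

/-- `y` is lost in a run. -/
noncomputable def lossV (p : Par d) (f : Pt d O → ℝ) (g : ℕ) (lam : ℝ) (y x : Pt d O)
    (a : Fin d → ℤ) : ℝ := by
  classical
  exact V p (plane p g) f (pl p.h x.1 (f x) a) (p.thr g) lam
    (fun B => if y.1 ∉ B ∧ B.card < p.thr g then 1 else 0) p.T p.P

/-- `y` survives a run. -/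
noncomputable def survV (p : Par d) (f : Pt d O → ℝ) (g : ℕ) (lam : ℝ) (y x : Pt d O)
    (a : Fin d → ℤ) : ℝ := by
  classical
  exact V p (plane p g) f (pl p.h x.1 (f x) a) (p.thr g) lam
    (fun B => if y.1 ∈ B ∧ B.card < p.thr g then 1 else 0) p.T p.P

theorem Par.one_le_thr (p : Par d) (g : ℕ) : 1 ≤ p.thr g := Nat.le_add_left 1 _

theorem surv_add_loss {p : Par d} {Gt : ℕ} {lam : ℝ} (H : p.Hyp Gt lam) (f : Pt d O → ℝ) (g : ℕ)
    (y x : Pt d O) (a : Fin d → ℤ) (hgood : GoodPl p f g x a) :
    5 / 8 ≤ survV p f g lam y x a + lossV p f g lam y x a := by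
  classical
  have hlam1 : lam ≤ 1 := H.hlam.trans ((cc_le d).trans (by norm_num))
  have h1 := okp_le p (plane p g) f (pl p.h x.1 (f x) a) (p.thr g) lam (p.one_le_thr g) H.hlam0
    hlam1 p.T p.P
  have h2 := H.hR
  have h3 := V_unterminated p (plane p g) f (p.thr g) lam (p.one_le_thr g) H.hlam
    (isAff_pl p.h x.1 (f x) a) p.T p.P H.hP
  have h4 := H.hT
  have h5 : V p (plane p g) f (pl p.h x.1 (f x) a) (p.thr g) lam (fun _ => 1) p.T p.P
      ≤ V p (plane p g) f (pl p.h x.1 (f x) a) (p.thr g) lam
          (fun B => ((if y.1 ∈ B ∧ B.card < p.thr g then 1 else 0)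
            + (if y.1 ∉ B ∧ B.card < p.thr g then 1 else 0))
            + (if p.thr g ≤ B.card then 1 else 0)) p.T p.P := by
    refine V_mono _ _ _ _ _ _ (fun B => ?_) _ _
    by_cases h6 : p.thr g ≤ B.card
    · rw [if_pos h6]
      have : (0 : ℝ) ≤ (if y.1 ∈ B ∧ B.card < p.thr g then 1 else 0) := by
        split_ifs <;> norm_num
      have : (0 : ℝ) ≤ (if y.1 ∉ B ∧ B.card < p.thr g then 1 else 0) := by
        split_ifs <;> norm_num
      linarith
    · rw [if_neg h6]
      by_cases h7 : y.1 ∈ B
      · rw [if_pos ⟨h7, not_le.1 h6⟩, if_neg (by tauto)]; norm_num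
      · rw [if_neg (by tauto), if_pos ⟨h7, not_le.1 h6⟩]; norm_num
  rw [V_add, V_add] at h5
  unfold GoodPl at hgood
  unfold survV lossV
  linarith

end Pool.Agent.H702.CT
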