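import Pool.Agent.H702.CT.Sound

set_option autoImplicit false
set_option linter.unusedSectionVars false

/-!
# Soundness: descent over the generations
-/

namespace Pool.Agent.H702.CT

open Finset

variable {d : ℕ} {O : Type} [Fintype O] [Nonempty O]

/-- The plane through `(x, f x)` with slope `a` exceeds `f y + θ` at `y`. -/
def Exc (p : Par d) (f : Pt d O → ℝ) (θ : ℝ) (y x : Pt d O) (a : Fin d → ℤ) : Prop :=
  f y + θ < pl p.h x.1 (f x) a y.1

open Classical in
/-- The expected number of points whose plane is good and exceeds `f y + θ` at `y`, with weights. -/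
noncomputable def wsum (p : Par d) (f : Pt d O → ℝ) (g : ℕ) (θ : ℝ) (y : Pt d O)
    (W : Pt d O → (Fin d → ℤ) → ℝ) : ℝ :=
  ∑ w ∈ p.P ×ˢ (univ : Finset O), (plane p (g + 1) w).expect f fun o => o.elim 0 fun a =>
    if GoodPl p f g w a ∧ Exc p f θ y w a then W w a else 0

/-- One step of a loss. -/
theorem stp_loss (p : Par d) (f : Pt d O → ℝ) (g : ℕ) (θ : ℝ) (y x : Pt d O)
    (a : Fin d → ℤ) (hexc : Exc p f (θ + p.τ) y x a) (B : Finset (Fin d → ℤ))
    (hBP : B ⊆ p.P) (hB : p.thr (g + 1) ≤ B.card) (hy : y.1 ∈ B) :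
    stp p (plane p (g + 1)) f (pl p.h x.1 (f x) a) B
      (fun B' => by classical exact if y.1 ∉ B' then 1 else 0)
      ≤ wsum p f g θ y (fun _ _ => 1) / (p.thr (g + 1) * Fintype.card O)
        + p.T1 * (7 / 8) ^ p.R1 := by
  classical
  have hOpos : (0 : ℝ) < Fintype.card O := by exact_mod_cast Fintype.card_pos
  have hthr : (0 : ℝ) < p.thr (g + 1) := by exact_mod_cast p.one_le_thr (g + 1)
  have hBne : B.Nonempty := ⟨_, hy⟩
  set S := B ×ˢ (univ : Finset O) with hS
  have hSpos : (0 : ℝ) < S.card := by exact_mod_cast (nonempty_prod (O := O) hBne).card_pos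
  have hScard : (S.card : ℝ) = B.card * Fintype.card O := by
    rw [hS, card_product, card_univ]; push_cast; ring
  unfold stp
  rw [← hS, div_le_iff₀ hSpos]
  have h1 : ∀ w ∈ S, ((plane p (g + 1) w).expect f fun o => o.elim 0 fun a' =>
      if y.1 ∉ cut p f (pl p.h x.1 (f x) a) B w a' then (1 : ℝ) else 0)
      ≤ ((plane p (g + 1) w).expect f fun o => o.elim 0 fun a' =>
        if GoodPl p f g w a' ∧ Exc p f θ y w a' then (1 : ℝ) else 0)
        + p.T1 * (7 / 8) ^ p.R1 := by
    intro w _
    refine le_trans ?_ (add_le_add_right (plane_good p f g w) _)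
    rw [← Prog.expect_add]
    refine Prog.expect_mono _ _ fun o => ?_
    cases o with
    | none => simp
    | some a' =>
      simp only [Option.elim]
      by_cases h2 : y.1 ∈ cut p f (pl p.h x.1 (f x) a) B w a'
      · rw [if_neg (not_not.2 h2)]
        split_ifs <;> norm_num
      · rw [if_pos h2]
        have hex : Exc p f θ y w a' := by
          unfold cut at h2
          have h3 : ¬ pl p.h w.1 (f w) a' y.1 < pl p.h x.1 (f x) a y.1 - p.τ := by
            intro h4
            exact h2 (mem_filter.2 ⟨hy, h4⟩)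
          unfold Exc at hexc ⊢
          linarith
        by_cases h3 : GoodPl p f g w a'
        · rw [if_pos ⟨h3, hex⟩]
          split_ifs <;> norm_num
        · rw [if_neg (fun h => h3 h.1), if_neg (fun h => h3 h.2)]
          norm_num
  refine (sum_le_sum h1).trans ?_
  rw [sum_add_distrib, sum_const, nsmul_eq_mul]
  have h2 : ∑ w ∈ S, ((plane p (g + 1) w).expect f fun o => o.elim 0 fun a' =>
        if GoodPl p f g w a' ∧ Exc p f θ y w a' then (1 : ℝ) else 0)
      ≤ wsum p f g θ y (fun _ _ => 1) := by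
    refine sum_le_sum_of_subset_of_nonneg (product_subset_product_left hBP) fun w _ _ => ?_
    refine Prog.expect_nonneg _ _ fun o => ?_
    cases o with
    | none => exact le_refl _
    | some a' => simp only [Option.elim]; split_ifs <;> norm_num
  have hw0 : 0 ≤ wsum p f g θ y (fun _ _ => 1) := by
    refine sum_nonneg fun w _ => Prog.expect_nonneg _ _ fun o => ?_
    cases o with
    | none => exact le_refl _
    | some a' => simp only [Option.elim]; split_ifs <;> norm_num
  have h3 : wsum p f g θ y (fun _ _ => 1)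
      ≤ wsum p f g θ y (fun _ _ => 1) / (p.thr (g + 1) * Fintype.card O) * S.card := by
    rw [div_mul_eq_mul_div, le_div_iff₀ (by positivity)]
    have h4 : (p.thr (g + 1) : ℝ) * Fintype.card O ≤ S.card := by
      rw [hScard]
      have : (p.thr (g + 1) : ℝ) ≤ B.card := by exact_mod_cast hB
      gcongr
    gcongr
  calc _ ≤ wsum p f g θ y (fun _ _ => 1) + S.card * (p.T1 * (7 / 8) ^ p.R1) := by
        exact add_le_add_left h2 _
    _ ≤ wsum p f g θ y (fun _ _ => 1) / (p.thr (g + 1) * Fintype.card O) * S.card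
        + S.card * (p.T1 * (7 / 8) ^ p.R1) := by linarith
    _ = _ := by ring

theorem loss_le (p : Par d) (f : Pt d O → ℝ) (g : ℕ) (lam θ : ℝ) (y x : Pt d O)
    (a : Fin d → ℤ) (hexc : Exc p f (θ + p.τ) y x a) (hy : y.1 ∈ p.P) :
    lossV p f (g + 1) lam y x a ≤ p.T *
      (wsum p f g θ y (fun _ _ => 1) / (p.thr (g + 1) * Fintype.card O)
        + p.T1 * (7 / 8) ^ p.R1) := by
  classical
  have hw0 : 0 ≤ wsum p f g θ y (fun _ _ => 1) := by
    refine sum_nonneg fun w _ => Prog.expect_nonneg _ _ fun o => ?_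
    cases o with
    | none => exact le_refl _
    | some a' => simp only [Option.elim]; split_ifs <;> norm_num
  have h := V_drop p (plane p (g + 1)) f (ℓ := pl p.h x.1 (f x) a) (p.thr (g + 1)) lam y
    (x := wsum p f g θ y (fun _ _ => 1) / (p.thr (g + 1) * Fintype.card O)
        + p.T1 * (7 / 8) ^ p.R1) (by positivity) p.P
    (fun B hBP hB hyB => by
      have := stp_loss p f g θ y x a hexc B hBP hB hyB
      convert this using 3)
    p.T p.P (Subset.refl _) hy
  unfold lossV
  convert h using 3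

theorem loss_zero (p : Par d) (f : Pt d O → ℝ) (lam : ℝ) (y x : Pt d O)
    (a : Fin d → ℤ) (hy : y.1 ∈ p.P) : lossV p f 0 lam y x a = 0 := by
  classical
  have hthr : p.P.card < p.thr 0 := by simp [Par.thr]
  unfold lossV
  cases p.T with
  | zero =>
    rw [V]
    split_ifs with h1 h2
    · exact absurd hy h2.1
    · rfl
    · rfl
  | succ t =>
    rw [V]
    split_ifs with h1 h2
    · exact absurd hy h2.1
    · rfl
    · rfl

theorem surv_top_le {p : Par d} {Gt : ℕ} {lam : ℝ} (H : p.Hyp Gt lam) (f : Pt d O → ℝ)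
    (y x : Pt d O) (a : Fin d → ℤ) : survV p f Gt lam y x a ≤ 0 := by
  classical
  have hthr : p.thr Gt = 1 := by
    unfold Par.thr
    rw [Nat.div_eq_of_lt H.htop]
  unfold survV
  have h1 := V_mono p (plane p Gt) f (pl p.h x.1 (f x) a) (p.thr Gt) lam
    (ψ := fun B => if y.1 ∈ B ∧ B.card < p.thr Gt then 1 else 0) (ψ' := fun _ => 0 * 1)
    (fun B => by
      rw [hthr]
      split_ifs with h
      · have : 0 < B.card := card_pos.2 ⟨_, h.1⟩
        omega
      · simp) p.T p.P
  rw [V_mul, zero_mul] at h1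
  exact h1

open Classical in
/-- The weights. -/
noncomputable def psie (thr : ℕ) (y : Pt d O) (B : Finset (Fin d → ℤ)) : ℝ :=
  if y.1 ∈ B ∧ B.card < thr then 1 / ((B.card : ℝ) * Fintype.card O) else 0

theorem psie_nonneg (thr : ℕ) (y : Pt d O) (B : Finset (Fin d → ℤ)) : 0 ≤ psie thr y B := by
  unfold psie; split_ifs <;> positivity

/-- The value of the weights. -/
noncomputable def Wt (p : Par d) (f : Pt d O → ℝ) (g : ℕ) (lam : ℝ) (y w : Pt d O)
    (a : Fin d → ℤ) : ℝ :=
  V p (plane p g) f (pl p.h w.1 (f w) a) (p.thr g) lam (psie (p.thr g) y) p.T p.P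

theorem Wt_nonneg (p : Par d) (f : Pt d O → ℝ) (g : ℕ) (lam : ℝ) (y w : Pt d O)
    (a : Fin d → ℤ) : 0 ≤ Wt p f g lam y w a := V_nonneg _ _ _ _ _ _ (psie_nonneg _ _) _ _

theorem surv_le_Wt (p : Par d) (f : Pt d O → ℝ) (g : ℕ) (lam : ℝ) (y w : Pt d O)
    (a : Fin d → ℤ) (hK : 1 ≤ p.K) : survV p f g lam y w a ≤
      (p.K * (p.thr (g + 1) * Fintype.card O)) * Wt p f g lam y w a := by
  classical
  have hOpos : (0 : ℝ) < Fintype.card O := by exact_mod_cast Fintype.card_pos
  unfold Wt survV
  rw [← V_mul]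
  refine V_mono _ _ _ _ _ _ (fun B => ?_) _ _
  unfold psie
  split_ifs with h
  · have hBpos : (0 : ℝ) < B.card := by exact_mod_cast card_pos.2 ⟨_, h.1⟩
    have h1 : B.card ≤ p.K * p.thr (g + 1) := by
      have h2 : p.thr (g + 1) = (p.P.card / p.K ^ g) / p.K + 1 := by
        unfold Par.thr
        rw [pow_succ, Nat.div_div_eq_div_mul]
      have h3 : B.card ≤ p.P.card / p.K ^ g := by
        have := h.2
        unfold Par.thr at this
        omega
      rw [h2]
      have h4 := Nat.lt_mul_div_succ (p.P.card / p.K ^ g) (show 0 < p.K by omega)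
      omega
    have h2 : (B.card : ℝ) ≤ p.K * p.thr (g + 1) := by exact_mod_cast h1
    rw [mul_one_div, le_div_iff₀ (by positivity), one_mul, ← mul_assoc]
    gcongr
  · rw [mul_zero]

/-- **The key inequality at the generation where the descent stops.** -/
theorem key_ge {p : Par d} {Gt : ℕ} {lam : ℝ} (H : p.Hyp Gt lam) (f : Pt d O → ℝ) (g : ℕ)
    (θ : ℝ) (y : Pt d O) (hy : y.1 ∈ p.P)
    (h1 : ∃ x a, GoodPl p f (g + 1) x a ∧ Exc p f (θ + p.τ) y x a ∧
      5 / 16 ≤ lossV p f (g + 1) lam y x a)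
    (h2 : ¬ ∃ x a, GoodPl p f g x a ∧ Exc p f θ y x a ∧ 5 / 16 ≤ lossV p f g lam y x a) :
    5 / 64 ≤ p.K * p.T * wsum p f g θ y (Wt p f g lam y) := by
  classical
  have hOpos : (0 : ℝ) < Fintype.card O := by exact_mod_cast Fintype.card_pos
  have hthr : (0 : ℝ) < p.thr (g + 1) := by exact_mod_cast p.one_le_thr (g + 1)
  set N : ℝ := p.thr (g + 1) * Fintype.card O with hN
  have hNpos : 0 < N := by positivity
  obtain ⟨x, a, -, hexc, hloss⟩ := h1
  have h3 := loss_le p f g lam θ y x a hexc hy
  have h4 := H.hη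
  set β := wsum p f g θ y (fun _ _ => 1) with hβ
  have h5 : 1 / 4 ≤ p.T * (β / N) := by
    rw [mul_add] at h3
    linarith
  have h6 : 5 / 16 * β ≤ p.K * N * wsum p f g θ y (Wt p f g lam y) := by
    rw [hβ]
    unfold wsum
    rw [mul_sum, mul_sum]
    refine sum_le_sum fun w _ => ?_
    rw [← Prog.expect_mul, ← Prog.expect_mul]
    refine Prog.expect_mono _ _ fun o => ?_
    cases o with
    | none => simp
    | some a' =>
      simp only [Option.elim]
      split_ifs with h7
      · have h8 := surv_add_loss H f g y w a' h7.1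
        have h9 : lossV p f g lam y w a' < 5 / 16 := by
          by_contra h10
          exact h2 ⟨w, a', h7.1, h7.2, not_lt.1 h10⟩
        have h10 := surv_le_Wt p f g lam y w a' H.hK
        rw [← hN] at h10
        linarith
      · simp
  have h7 : p.T * (β / N) * (5 / 16) ≤ p.K * p.T * wsum p f g θ y (Wt p f g lam y) := by
    have h8 : 5 / 16 * β / N ≤ p.K * wsum p f g θ y (Wt p f g lam y) := by
      rw [div_le_iff₀ hNpos]
      linarith
    have h9 : (0 : ℝ) ≤ p.T := by positivity
    calc (p.T : ℝ) * (β / N) * (5 / 16) = p.T * (5 / 16 * β / N) := by ring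
      _ ≤ p.T * (p.K * wsum p f g θ y (Wt p f g lam y)) := by gcongr
      _ = _ := by ring
  linarith

/-- The sum of the weights. -/
theorem sum_wsum_le {p : Par d} (f : Pt d O → ℝ) (g : ℕ) (θ lam : ℝ) (hlam : 0 ≤ lam)
    (hθ : p.τ ≤ θ) :
    ∑ y ∈ p.P ×ˢ (univ : Finset O), wsum p f g θ y (Wt p f g lam y)
      ≤ (p.P ×ˢ (univ : Finset O)).card * lam := by
  classical
  have hOpos : (0 : ℝ) < Fintype.card O := by exact_mod_cast Fintype.card_pos
  unfold wsum
  rw [sum_comm, ← nsmul_eq_mul]
  refine sum_le_card_nsmul _ _ _ fun w _ => ?_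
  rw [← Prog.expect_sum]
  refine Prog.expect_le _ _ fun o => ?_
  cases o with
  | none => simp [hlam]
  | some a =>
    simp only [Option.elim]
    have h1 : ∀ y ∈ p.P ×ˢ (univ : Finset O),
        (if GoodPl p f g w a ∧ Exc p f θ y w a then Wt p f g lam y w a else 0)
        ≤ (if Exc p f θ y w a then 1 else 0) * Wt p f g lam y w a := by
      intro y _
      have := Wt_nonneg p f g lam y w a
      split_ifs with h2 h3 h3
      · rw [one_mul]
      · exact absurd h2.2 h3
      · rw [one_mul]; exact this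
      · rw [zero_mul]
    refine (sum_le_sum h1).trans ?_
    have h2 : ∑ y ∈ p.P ×ˢ (univ : Finset O),
        (if Exc p f θ y w a then 1 else 0) * Wt p f g lam y w a
        = V p (plane p g) f (pl p.h w.1 (f w) a) (p.thr g) lam
          (fun B => ∑ y ∈ p.P ×ˢ (univ : Finset O),
            (if Exc p f θ y w a then 1 else 0) * psie (p.thr g) y B) p.T p.P := by
      rw [V_sum]
      refine sum_congr rfl fun y _ => ?_
      rw [V_mul]
      rfl
    rw [h2]
    refine V_le_lam _ _ _ _ _ _ hlam (fun B => ?_) _ _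
    -- the sum of the weights at a set
    unfold pr prS
    set F := (B ×ˢ (univ : Finset O)).filter fun x => f x + p.τ < pl p.h w.1 (f w) a x.1 with hF
    have hcard : ((B ×ˢ (univ : Finset O)).card : ℝ) = B.card * Fintype.card O := by
      rw [card_product, card_univ]; push_cast; ring
    have h3 : ∀ y ∈ p.P ×ˢ (univ : Finset O),
        (if Exc p f θ y w a then 1 else 0) * psie (p.thr g) y B
        ≤ if y ∈ F then 1 / ((B.card : ℝ) * Fintype.card O) else 0 := by
      intro y _
      by_cases h4 : Exc p f θ y w a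
      · rw [if_pos h4, one_mul]
        unfold psie
        by_cases h5 : y.1 ∈ B ∧ B.card < p.thr g
        · rw [if_pos h5, if_pos]
          rw [hF, mem_filter, mem_product]
          refine ⟨⟨h5.1, mem_univ _⟩, ?_⟩
          unfold Exc at h4
          linarith
        · rw [if_neg h5]
          split_ifs <;> positivity
      · rw [if_neg h4, zero_mul]
        split_ifs <;> positivity
    refine (sum_le_sum h3).trans ?_
    rw [← sum_filter, sum_const, nsmul_eq_mul, mul_one_div, hcard]
    have h6 : (((p.P ×ˢ (univ : Finset O)).filter fun y => y ∈ F).card : ℝ) ≤ F.card := by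
      have : ((p.P ×ˢ (univ : Finset O)).filter fun y => y ∈ F).card ≤ F.card :=
        card_le_card fun y hy => (mem_filter.1 hy).2
      exact_mod_cast this
    have h7 : (F.card : ℝ) / (B.card * Fintype.card O) =
        (#{x ∈ B ×ˢ (univ : Finset O) | f x + p.τ < pl p.h w.1 (f w) a x.1} : ℝ)
          / (B.card * Fintype.card O) := by
      rw [hF]
    have h8 : (((p.P ×ˢ (univ : Finset O)).filter fun y => y ∈ F).card : ℝ)
        / (B.card * Fintype.card O) ≤ (F.card : ℝ) / (B.card * Fintype.card O) := by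
      gcongr
    convert h8 using 2

open Classical in
/-- **Soundness.** Few points are exceeded by more than `θ` by a good plane of the top
generation. -/
theorem card_exceeded_le {p : Par d} {Gt : ℕ} {lam : ℝ} (H : p.Hyp Gt lam) (f : Pt d O → ℝ)
    (θ : ℝ) (hθ : p.τ ≤ θ) :
    (((p.P ×ˢ (univ : Finset O)).filter fun y => ∃ x a, GoodPl p f Gt x a ∧
      Exc p f (θ + Gt * p.τ) y x a).card : ℝ) * (5 / 64)
      ≤ p.K * p.T * (Gt * ((p.P ×ˢ (univ : Finset O)).card * lam)) := by
  set Y := (p.P ×ˢ (univ : Finset O)).filter fun y => ∃ x a, GoodPl p f Gt x a ∧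
      Exc p f (θ + Gt * p.τ) y x a with hY
  set Φ : ℕ → Pt d O → ℝ := fun g y => wsum p f g (θ + g * p.τ) y (Wt p f g lam y) with hΦ
  have hΦ0 : ∀ g y, 0 ≤ Φ g y := by
    intro g y
    refine sum_nonneg fun w _ => Prog.expect_nonneg _ _ fun o => ?_
    cases o with
    | none => exact le_refl _
    | some a' => simp only [Option.elim]; split_ifs; exacts [Wt_nonneg _ _ _ _ _ _ _, le_refl _]
  have h1 : ∀ y ∈ Y, 5 / 64 ≤ p.K * p.T * ∑ g ∈ range Gt, Φ g y := by
    intro y hy
    have hy' := mem_filter.1 hy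
    have hyP : y.1 ∈ p.P := (mem_product.1 hy'.1).1
    obtain ⟨x, a, hgood, hexc⟩ := hy'.2
    set C : ℕ → Prop := fun g => ∃ x a, GoodPl p f g x a ∧ Exc p f (θ + g * p.τ) y x a ∧
      5 / 16 ≤ lossV p f g lam y x a with hC
    have hCt : C Gt := by
      refine ⟨x, a, hgood, hexc, ?_⟩
      have h2 := surv_add_loss H f Gt y x a hgood
      have h3 := surv_top_le H f y x a
      linarith
    have hC0 : ¬ C 0 := by
      rintro ⟨x', a', -, -, h4⟩
      rw [loss_zero p f lam y x' a' hyP] at h4
      norm_num at h4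
    have h5 : ∃ g, g < Gt ∧ C (g + 1) ∧ ¬ C g := by
      by_contra hcon
      push Not at hcon
      have h6 : ∀ g, g ≤ Gt → ¬ C g := by
        intro g
        induction g with
        | zero => intro _; exact hC0
        | succ g ih =>
          intro hg hCg
          exact ih (by omega) (hcon g (by omega) hCg)
      exact h6 Gt le_rfl hCt
    obtain ⟨g, hg, hCg1, hCg⟩ := h5
    have h6 := key_ge H f g (θ + g * p.τ) y hyP (by
      obtain ⟨x', a', h7, h8, h9⟩ := hCg1
      refine ⟨x', a', h7, ?_, h9⟩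
      have : θ + g * p.τ + p.τ = θ + ((g + 1 : ℕ) : ℝ) * p.τ := by push_cast; ring
      rw [this]
      exact h8) hCg
    refine h6.trans ?_
    have h7 : Φ g y ≤ ∑ g ∈ range Gt, Φ g y :=
      single_le_sum (f := fun g => Φ g y) (fun i _ => hΦ0 i y) (mem_range.2 hg)
    have h8 : (0 : ℝ) ≤ p.K * p.T := by positivity
    exact mul_le_mul_of_nonneg_left h7 h8
  have h2 : (Y.card : ℝ) * (5 / 64) ≤ ∑ y ∈ Y, (p.K * p.T * ∑ g ∈ range Gt, Φ g y) := by
    rw [← nsmul_eq_mul]
    exact card_nsmul_le_sum _ _ _ h1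
  refine h2.trans ?_
  rw [← mul_sum]
  have h3 : ∑ y ∈ Y, ∑ g ∈ range Gt, Φ g y
      ≤ Gt * ((p.P ×ˢ (univ : Finset O)).card * lam) := by
    calc ∑ y ∈ Y, ∑ g ∈ range Gt, Φ g y
        ≤ ∑ y ∈ p.P ×ˢ (univ : Finset O), ∑ g ∈ range Gt, Φ g y :=
          sum_le_sum_of_subset_of_nonneg (filter_subset _ _) fun y _ _ =>
            sum_nonneg fun g _ => hΦ0 g y
      _ = ∑ g ∈ range Gt, ∑ y ∈ p.P ×ˢ (univ : Finset O), Φ g y := sum_comm
      _ ≤ ∑ g ∈ range Gt, ((p.P ×ˢ (univ : Finset O)).card : ℝ) * lam := by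
          refine sum_le_sum fun g _ => ?_
          refine sum_wsum_le f g (θ + g * p.τ) lam H.hlam0 ?_
          have := H.hτ
          have : (0 : ℝ) ≤ g * p.τ := by positivity
          linarith
      _ = _ := by rw [sum_const, card_range, nsmul_eq_mul]
  gcongr

end Pool.Agent.H702.CT
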