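import Pool.Agent.H702.CT.Core

set_option autoImplicit false
set_option linter.unusedSectionVars false

/-!
# The analysis of a run
-/

namespace Pool.Agent.H702.CT

open Finset

variable {d : ℕ} {O : Type} [Fintype O] [Nonempty O]

/-- The indicator of the outcome `ok`. -/
def okI {X : Type} : Out X → ℝ
  | .ok => 1
  | .bot => 0
  | .viol _ _ => 0

theorem okI_nonneg {X : Type} (o : Out X) : 0 ≤ okI o := by cases o <;> simp [okI]

theorem okI_le {X : Type} (o : Out X) : okI o ≤ 1 := by cases o <;> simp [okI]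

open Classical in
/-- The proportion of failing points of `S`. -/
noncomputable def prS (f : Pt d O → ℝ) (τ : ℝ) (ℓ : (Fin d → ℤ) → ℝ) (S : Finset (Pt d O)) : ℝ :=
  ((S.filter fun x => f x + τ < ℓ x.1).card : ℝ) / (S.card : ℝ)

/-- The proportion of failing points over `A`. -/
noncomputable def pr (f : Pt d O → ℝ) (τ : ℝ) (ℓ : (Fin d → ℤ) → ℝ) (A : Finset (Fin d → ℤ)) : ℝ :=
  prS f τ ℓ (A ×ˢ (univ : Finset O))

theorem prS_nonneg (f : Pt d O → ℝ) (τ : ℝ) (ℓ : (Fin d → ℤ) → ℝ) (S : Finset (Pt d O)) :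
    0 ≤ prS f τ ℓ S := by unfold prS; positivity

theorem prS_le_one (f : Pt d O → ℝ) (τ : ℝ) (ℓ : (Fin d → ℤ) → ℝ) (S : Finset (Pt d O)) :
    prS f τ ℓ S ≤ 1 := by
  classical
  unfold prS
  refine div_le_one_of_le₀ ?_ (by positivity)
  exact_mod_cast card_le_card (filter_subset _ _)

theorem expect_check (f : Pt d O → ℝ) (τ : ℝ) (ℓ : (Fin d → ℤ) → ℝ) (S : Finset (Pt d O))
    (hS : S.Nonempty) (r : ℕ) :
    (check τ ℓ S hS r).expect f okI = (1 - prS f τ ℓ S) ^ r := by
  classical
  induction r with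
  | zero => simp [check, Prog.expect, okI]
  | succ r ih =>
    rw [check, Prog.expect_bind, Prog.expect_unif]
    have hpos : (0 : ℝ) < S.card := by exact_mod_cast hS.card_pos
    have h1 : ∀ u ∈ S, (Prog.query u fun v =>
          if v + τ < ℓ u.1 then Prog.ret (Out.viol u v) else check τ ℓ S hS r).expect f okI
        = (1 - (if f u + τ < ℓ u.1 then 1 else 0)) * (1 - prS f τ ℓ S) ^ r := by
      intro u _
      rw [Prog.expect_query]
      split_ifs with h
      · simp [Prog.expect, okI]
      · rw [ih]; ring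
    rw [sum_congr rfl h1, ← sum_mul, sum_sub_distrib, pow_succ]
    have h2 : ∑ x ∈ S, (if f x + τ < ℓ x.1 then (1 : ℝ) else 0)
        = ((S.filter fun x => f x + τ < ℓ x.1).card : ℝ) := by
      rw [sum_boole]
    rw [h2]
    have h3 : (∑ x ∈ S, (1 : ℝ)) = S.card := by simp
    rw [h3]
    have h4 : prS f τ ℓ S = ((S.filter fun x => f x + τ < ℓ x.1).card : ℝ) / S.card := rfl
    have h5 : ((S.card : ℝ) - ((S.filter fun x => f x + τ < ℓ x.1).card : ℝ)) / S.card
        = 1 - prS f τ ℓ S := by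
      rw [h4]; field_simp
    rw [mul_comm, mul_div_assoc, h5]

open Classical in
/-- The next set. -/
noncomputable def cut (p : Par d) (f : Pt d O → ℝ) (ℓ : (Fin d → ℤ) → ℝ)
    (A : Finset (Fin d → ℤ)) (w : Pt d O) (a : Fin d → ℤ) : Finset (Fin d → ℤ) :=
  A.filter fun v => pl p.h w.1 (f w) a v < ℓ v - p.τ

/-- The expectation of `G` at the next set. -/
noncomputable def stp (p : Par d) (PL : Pt d O → Prog (Pt d O) (Option (Fin d → ℤ)))
    (f : Pt d O → ℝ) (ℓ : (Fin d → ℤ) → ℝ) (A : Finset (Fin d → ℤ))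
    (G : Finset (Fin d → ℤ) → ℝ) : ℝ :=
  (∑ w ∈ A ×ˢ (univ : Finset O), (PL w).expect f fun o => o.elim 0 fun a =>
    G (cut p f ℓ A w a)) / ((A ×ˢ (univ : Finset O)).card : ℝ)

open Classical in
/-- The value of the terminal set, if all proportions are at most `lam`. -/
noncomputable def V (p : Par d) (PL : Pt d O → Prog (Pt d O) (Option (Fin d → ℤ)))
    (f : Pt d O → ℝ) (ℓ : (Fin d → ℤ) → ℝ) (thr : ℕ) (lam : ℝ) (ψ : Finset (Fin d → ℤ) → ℝ) :
    ℕ → Finset (Fin d → ℤ) → ℝ
  | 0, A => if pr f p.τ ℓ A ≤ lam then ψ A else 0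
  | t + 1, A => if pr f p.τ ℓ A ≤ lam then
      (if A.card < thr then ψ A else stp p PL f ℓ A (V p PL f ℓ thr lam ψ t)) else 0

section

variable (p : Par d) (PL : Pt d O → Prog (Pt d O) (Option (Fin d → ℤ)))
  (f : Pt d O → ℝ) (ℓ : (Fin d → ℤ) → ℝ) (thr : ℕ) (lam : ℝ)

theorem stp_mono {A : Finset (Fin d → ℤ)} {G G' : Finset (Fin d → ℤ) → ℝ}
    (h : ∀ w ∈ A ×ˢ (univ : Finset O), ∀ a, G (cut p f ℓ A w a) ≤ G' (cut p f ℓ A w a)) :
    stp p PL f ℓ A G ≤ stp p PL f ℓ A G' := by
  unfold stp
  gcongr with w hw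
  refine Prog.expect_mono _ _ fun o => ?_
  cases o with
  | none => exact le_refl _
  | some a => exact h w hw a

theorem stp_add (A : Finset (Fin d → ℤ)) (G G' : Finset (Fin d → ℤ) → ℝ) :
    stp p PL f ℓ A (fun B => G B + G' B) = stp p PL f ℓ A G + stp p PL f ℓ A G' := by
  unfold stp
  rw [← add_div, ← sum_add_distrib]
  congr 1
  refine sum_congr rfl fun w _ => ?_
  rw [← Prog.expect_add]
  congr 1
  funext o
  cases o <;> simp

theorem stp_mul (A : Finset (Fin d → ℤ)) (r : ℝ) (G : Finset (Fin d → ℤ) → ℝ) :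
    stp p PL f ℓ A (fun B => r * G B) = r * stp p PL f ℓ A G := by
  unfold stp
  rw [← mul_div_assoc, mul_sum]
  congr 1
  refine sum_congr rfl fun w _ => ?_
  rw [← Prog.expect_mul]
  congr 1
  funext o
  cases o <;> simp

theorem stp_le_const {A : Finset (Fin d → ℤ)} {r : ℝ} (hr : 0 ≤ r) {G : Finset (Fin d → ℤ) → ℝ}
    (h : ∀ w ∈ A ×ˢ (univ : Finset O), ∀ a, G (cut p f ℓ A w a) ≤ r) :
    stp p PL f ℓ A G ≤ r := by
  unfold stp
  refine div_le_of_le_mul₀ (by positivity) hr ?_
  refine (sum_le_card_nsmul _ _ r fun w hw => ?_).trans ?_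
  · refine Prog.expect_le _ _ fun o => ?_
    cases o with
    | none => exact hr
    | some a => exact h w hw a
  · rw [nsmul_eq_mul, mul_comm]

theorem stp_nonneg {A : Finset (Fin d → ℤ)} {G : Finset (Fin d → ℤ) → ℝ}
    (h : ∀ w ∈ A ×ˢ (univ : Finset O), ∀ a, 0 ≤ G (cut p f ℓ A w a)) :
    0 ≤ stp p PL f ℓ A G := by
  unfold stp
  refine div_nonneg (sum_nonneg fun w hw => ?_) (by positivity)
  refine Prog.expect_nonneg _ _ fun o => ?_
  cases o with
  | none => exact le_refl _
  | some a => exact h w hw a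

theorem V_nonneg {ψ : Finset (Fin d → ℤ) → ℝ} (hψ : ∀ A, 0 ≤ ψ A) (t : ℕ) :
    ∀ A, 0 ≤ V p PL f ℓ thr lam ψ t A := by
  induction t with
  | zero => intro A; rw [V]; split_ifs; exacts [hψ A, le_refl _]
  | succ t ih =>
    intro A
    rw [V]
    split_ifs
    · exact hψ A
    · exact stp_nonneg _ _ _ _ fun w _ a => ih _
    · exact le_refl _

theorem V_mono {ψ ψ' : Finset (Fin d → ℤ) → ℝ} (h : ∀ A, ψ A ≤ ψ' A) (t : ℕ) :
    ∀ A, V p PL f ℓ thr lam ψ t A ≤ V p PL f ℓ thr lam ψ' t A := by
  induction t with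
  | zero => intro A; rw [V, V]; split_ifs; exacts [h A, le_refl _]
  | succ t ih =>
    intro A
    rw [V, V]
    split_ifs
    · exact h A
    · exact stp_mono _ _ _ _ fun w _ a => ih _
    · exact le_refl _

theorem V_add (ψ ψ' : Finset (Fin d → ℤ) → ℝ) (t : ℕ) :
    ∀ A, V p PL f ℓ thr lam (fun B => ψ B + ψ' B) t A
      = V p PL f ℓ thr lam ψ t A + V p PL f ℓ thr lam ψ' t A := by
  induction t with
  | zero => intro A; rw [V, V, V]; split_ifs; exacts [rfl, (add_zero 0).symm]
  | succ t ih =>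
    intro A
    rw [V, V, V]
    split_ifs
    · rfl
    · rw [← stp_add]
      congr 1
      funext B
      exact ih B
    · exact (add_zero 0).symm

theorem V_mul (r : ℝ) (ψ : Finset (Fin d → ℤ) → ℝ) (t : ℕ) :
    ∀ A, V p PL f ℓ thr lam (fun B => r * ψ B) t A = r * V p PL f ℓ thr lam ψ t A := by
  induction t with
  | zero => intro A; rw [V, V]; split_ifs; exacts [rfl, (mul_zero r).symm]
  | succ t ih =>
    intro A
    rw [V, V]
    split_ifs
    · rfl
    · rw [← stp_mul]
      congr 1
      funext B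
      exact ih B
    · exact (mul_zero r).symm

theorem V_sum {ι : Type} (s : Finset ι) (ψ : ι → Finset (Fin d → ℤ) → ℝ) (t : ℕ)
    (A : Finset (Fin d → ℤ)) : V p PL f ℓ thr lam (fun B => ∑ i ∈ s, ψ i B) t A
      = ∑ i ∈ s, V p PL f ℓ thr lam (ψ i) t A := by
  classical
  induction s using Finset.induction_on with
  | empty =>
    simp only [sum_empty]
    have := V_mul p PL f ℓ thr lam 0 (fun _ => 0) t A
    simpa using this
  | insert i s hi ih =>
    simp only [sum_insert hi]
    rw [V_add, ih]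

/-- Values are at most `lam` if the terminal values are at most the proportions. -/
theorem V_le_lam (hlam : 0 ≤ lam) {ψ : Finset (Fin d → ℤ) → ℝ}
    (h : ∀ A, ψ A ≤ pr f p.τ ℓ A) (t : ℕ) : ∀ A, V p PL f ℓ thr lam ψ t A ≤ lam := by
  induction t with
  | zero =>
    intro A; rw [V]; split_ifs with h1
    · exact (h A).trans h1
    · exact hlam
  | succ t ih =>
    intro A
    rw [V]
    split_ifs with h1 h2
    · exact (h A).trans h1
    · exact stp_le_const _ _ _ _ hlam fun w _ a => ih _
    · exact hlam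

theorem V_le_one {ψ : Finset (Fin d → ℤ) → ℝ} (h : ∀ A, ψ A ≤ 1) (t : ℕ) :
    ∀ A, V p PL f ℓ thr lam ψ t A ≤ 1 := by
  induction t with
  | zero =>
    intro A; rw [V]; split_ifs with h1
    · exact h A
    · exact zero_le_one
  | succ t ih =>
    intro A
    rw [V]
    split_ifs with h1 h2
    · exact h A
    · exact stp_le_const _ _ _ _ zero_le_one fun w _ a => ih _
    · exact zero_le_one

/-- The probability of the outcome `ok`. -/
noncomputable def okp (t : ℕ) (A : Finset (Fin d → ℤ)) : ℝ := (run p PL thr ℓ t A).expect f okI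

theorem okp_nonneg (t : ℕ) (A : Finset (Fin d → ℤ)) : 0 ≤ okp p PL f ℓ thr t A :=
  Prog.expect_nonneg _ _ okI_nonneg

theorem okp_le_one (t : ℕ) (A : Finset (Fin d → ℤ)) : okp p PL f ℓ thr t A ≤ 1 :=
  Prog.expect_le _ _ okI_le

theorem okp_zero {A : Finset (Fin d → ℤ)} (hA : (A ×ˢ (univ : Finset O)).Nonempty) :
    okp p PL f ℓ thr 0 A = (1 - pr f p.τ ℓ A) ^ p.R := by
  rw [okp, run, dif_pos hA, expect_check]
  rfl

open Classical in
theorem okp_succ (t : ℕ) {A : Finset (Fin d → ℤ)} (hA : (A ×ˢ (univ : Finset O)).Nonempty) :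
    okp p PL f ℓ thr (t + 1) A = (1 - pr f p.τ ℓ A) ^ p.R *
      (if A.card < thr then 1 else stp p PL f ℓ A (okp p PL f ℓ thr t)) := by
  rw [okp, run, dif_pos hA, Prog.expect_bind]
  set r : ℝ := if A.card < thr then 1 else stp p PL f ℓ A (okp p PL f ℓ thr t) with hr
  have h1 : ∀ o : Out (Pt d O), (match o with
        | Out.ok => if A.card < thr then Prog.ret Out.ok else
            (Prog.unif (A ×ˢ (univ : Finset O)) hA).bind fun w => Prog.query w fun c =>
              (PL w).bind fun o' => match o' with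
              | none => Prog.ret Out.bot
              | some a => run p PL thr ℓ t (A.filter fun v => pl p.h w.1 c a v < ℓ v - p.τ)
        | Out.bot => Prog.ret Out.bot
        | Out.viol u v => Prog.ret (Out.viol u v) : Prog (Pt d O) (Out (Pt d O))).expect f okI
      = r * okI o := by
    intro o
    cases o with
    | ok =>
      simp only [okI, mul_one]
      by_cases hc : A.card < thr
      · rw [if_pos hc, hr, if_pos hc]; rfl
      · rw [if_neg hc, hr, if_neg hc, Prog.expect_bind, Prog.expect_unif, stp]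
        congr 1
        refine sum_congr rfl fun w _ => ?_
        rw [Prog.expect_query, Prog.expect_bind]
        congr 1
        funext o'
        cases o' with
        | none => rfl
        | some a => rfl
    | bot => simp [Prog.expect, okI]
    | viol u v => simp [Prog.expect, okI]
  have h2 : (fun o : Out (Pt d O) => (match o with
        | Out.ok => if A.card < thr then Prog.ret Out.ok else
            (Prog.unif (A ×ˢ (univ : Finset O)) hA).bind fun w => Prog.query w fun c =>
              (PL w).bind fun o' => match o' with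
              | none => Prog.ret Out.bot
              | some a => run p PL thr ℓ t (A.filter fun v => pl p.h w.1 c a v < ℓ v - p.τ)
        | Out.bot => Prog.ret Out.bot
        | Out.viol u v => Prog.ret (Out.viol u v) : Prog (Pt d O) (Out (Pt d O))).expect f okI)
      = fun o => r * okI o := funext h1
  refine (congrArg _ h2).trans ?_
  rw [Prog.expect_mul, expect_check, mul_comm]
  rfl

end

end Pool.Agent.H702.CT
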