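import Pool.Agent.H702.CT.Val

set_option autoImplicit false
set_option linter.unusedSectionVars false

/-!
# The analysis of a run: progress, acceptance, loss of a point
-/

namespace Pool.Agent.H702.CT

open Finset

variable {d : ℕ} {O : Type} [Fintype O] [Nonempty O]

variable (p : Par d) (PL : Pt d O → Prog (Pt d O) (Option (Fin d → ℤ)))
  (f : Pt d O → ℝ) (ℓ : (Fin d → ℤ) → ℝ) (thr : ℕ) (lam : ℝ)

theorem pr_empty (τ : ℝ) : pr f τ ℓ ∅ = 0 := by
  simp [pr, prS]

theorem pr_nonneg (τ : ℝ) (A : Finset (Fin d → ℤ)) : 0 ≤ pr f τ ℓ A := prS_nonneg _ _ _ _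

theorem pr_le_one (τ : ℝ) (A : Finset (Fin d → ℤ)) : pr f τ ℓ A ≤ 1 := prS_le_one _ _ _ _

theorem nonempty_prod {A : Finset (Fin d → ℤ)} (hA : A.Nonempty) :
    (A ×ˢ (univ : Finset O)).Nonempty := hA.product univ_nonempty

/-- Acceptance of a run implies that all the proportions are small. -/
theorem okp_le (hthr : 1 ≤ thr) (h0 : 0 ≤ lam) (h1 : lam ≤ 1) (t : ℕ) :
    ∀ A, okp p PL f ℓ thr t A ≤ V p PL f ℓ thr lam (fun _ => 1) t A + (1 - lam) ^ p.R := by
  have hpow : 0 ≤ (1 - lam) ^ p.R := by
    have : 0 ≤ 1 - lam := by linarith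
    positivity
  have hb : ∀ A, lam < pr f p.τ ℓ A → (1 - pr f p.τ ℓ A) ^ p.R ≤ (1 - lam) ^ p.R := by
    intro A hA
    have := pr_le_one f ℓ p.τ A
    exact pow_le_pow_left₀ (by linarith) (by linarith) _
  have hc : ∀ A, (1 - pr f p.τ ℓ A) ^ p.R ≤ 1 := by
    intro A
    have := pr_le_one f ℓ p.τ A
    have := pr_nonneg f ℓ p.τ A
    exact pow_le_one₀ (by linarith) (by linarith)
  have hc0 : ∀ A, 0 ≤ (1 - pr f p.τ ℓ A) ^ p.R := by
    intro A
    have := pr_le_one f ℓ p.τ A
    have : 0 ≤ 1 - pr f p.τ ℓ A := by linarith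
    positivity
  induction t with
  | zero =>
    intro A
    rcases A.eq_empty_or_nonempty with hA | hA
    · subst hA
      rw [V, pr_empty, if_pos h0]
      have := okp_le_one p PL f ℓ thr 0 ∅
      linarith
    · rw [okp_zero _ _ _ _ _ (nonempty_prod hA), V]
      split_ifs with h
      · have := hc A; linarith
      · have := hb A (not_le.1 h); linarith
  | succ t ih =>
    intro A
    rcases A.eq_empty_or_nonempty with hA | hA
    · subst hA
      rw [V, pr_empty, if_pos h0, if_pos (by rw [card_empty]; omega)]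
      have := okp_le_one p PL f ℓ thr (t + 1) ∅
      linarith
    · rw [okp_succ _ _ _ _ _ _ (nonempty_prod hA), V]
      have hs : stp p PL f ℓ A (okp p PL f ℓ thr t) ≤ 1 :=
        stp_le_const _ _ _ _ zero_le_one fun w _ a => okp_le_one _ _ _ _ _ _ _
      by_cases h : pr f p.τ ℓ A ≤ lam
      · rw [if_pos h]
        by_cases h2 : A.card < thr
        · rw [if_pos h2, if_pos h2, mul_one]
          have := hc A
          linarith
        · rw [if_neg h2, if_neg h2]
          have hs0 : 0 ≤ stp p PL f ℓ A (okp p PL f ℓ thr t) :=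
            stp_nonneg _ _ _ _ fun w _ a => okp_nonneg _ _ _ _ _ _ _
          have h3 : (1 - pr f p.τ ℓ A) ^ p.R * stp p PL f ℓ A (okp p PL f ℓ thr t)
              ≤ stp p PL f ℓ A (okp p PL f ℓ thr t) := by
            have := hc A
            nlinarith
          have h4 : stp p PL f ℓ A (okp p PL f ℓ thr t) ≤
              stp p PL f ℓ A (fun B => V p PL f ℓ thr lam (fun _ => 1) t B + (1 - lam) ^ p.R) :=
            stp_mono _ _ _ _ fun w _ a => ih _
          rw [stp_add] at h4
          have h5 : stp p PL f ℓ A (fun _ => (1 - lam) ^ p.R) ≤ (1 - lam) ^ p.R :=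
            stp_le_const _ _ _ _ hpow fun w _ a => le_refl _
          linarith
      · rw [if_neg h]
        have h3 := hb A (not_le.1 h)
        have h4 := hc0 A
        by_cases h2 : A.card < thr
        · rw [if_pos h2, mul_one]; linarith
        · rw [if_neg h2]
          have hs0 : 0 ≤ stp p PL f ℓ A (okp p PL f ℓ thr t) :=
            stp_nonneg _ _ _ _ fun w _ a => okp_nonneg _ _ _ _ _ _ _
          nlinarith

variable {ℓ}

theorem midClosed_cut {A : Finset (Fin d → ℤ)} (hA : MidClosed A) (hℓ : IsAff ℓ) (w : Pt d O)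
    (a : Fin d → ℤ) : MidClosed (cut p f ℓ A w a) := by
  classical
  have h1 : cut p f ℓ A w a = A.filter fun v => pl p.h w.1 (f w) a v - ℓ v < - p.τ := by
    unfold cut
    refine filter_congr fun v _ => ?_
    constructor <;> intro h <;> linarith
  rw [h1]
  exact hA.filter_lt ((isAff_pl _ _ _ _).sub hℓ) _

theorem card_cut_le (A : Finset (Fin d → ℤ)) (w : Pt d O)
    (a : Fin d → ℤ) : (cut p f ℓ A w a).card ≤ A.card := by
  classical
  exact card_le_card (filter_subset _ _)

/-- A cut at a deep point that does not fail removes a proportion of the set. -/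
theorem card_cut_deep {A : Finset (Fin d → ℤ)} (hℓ : IsAff ℓ) (w : Pt d O)
    (a : Fin d → ℤ) (hw : Deep A w.1) (hf : ¬ f w + p.τ < ℓ w.1) :
    ((cut p f ℓ A w a).card : ℝ) ≤ (1 - cc d) * A.card := by
  classical
  have h1 := hw.2 (fun v => pl p.h w.1 (f w) a v - ℓ v + p.τ)
    (((isAff_pl _ _ _ _).sub hℓ).add_const _) (by simp only [pl_self]; linarith)
  have h2 : (cut p f ℓ A w a).card + (A.filter fun v => 0 ≤ pl p.h w.1 (f w) a v - ℓ v + p.τ).card
      = A.card := by
    have h3 : cut p f ℓ A w a = A.filter fun v => ¬ 0 ≤ pl p.h w.1 (f w) a v - ℓ v + p.τ := by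
      unfold cut
      refine filter_congr fun v _ => ?_
      rw [not_le]
      constructor <;> intro h <;> linarith
    rw [h3, add_comm, card_filter_add_card_filter_not]
  have h3 : ((cut p f ℓ A w a).card : ℝ)
      + ((A.filter fun v => 0 ≤ pl p.h w.1 (f w) a v - ℓ v + p.τ).card : ℝ) = A.card := by
    exact_mod_cast h2
  have h4 : cc d * A.card ≤
      ((A.filter fun v => 0 ≤ pl p.h w.1 (f w) a v - ℓ v + p.τ).card : ℝ) := by
    convert h1 using 2
  linarith

/-- **Progress.** -/
theorem stp_card_le {A : Finset (Fin d → ℤ)} (hA : MidClosed A) (hne : A.Nonempty)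
    (hℓ : IsAff ℓ) (hpr : pr f p.τ ℓ A ≤ cc d) :
    stp p PL f ℓ A (fun B => (B.card : ℝ)) ≤ (1 - cc d ^ 2) * A.card := by
  classical
  set S := A ×ˢ (univ : Finset O) with hS
  have hSne : S.Nonempty := nonempty_prod hne
  have hSpos : (0 : ℝ) < S.card := by exact_mod_cast hSne.card_pos
  have hcc := cc_pos d
  set N : ℝ := (A.card : ℝ) with hN
  -- the good points
  set Dp := A.filter fun w => Deep A w with hDp
  have hDS : (Dp ×ˢ (univ : Finset O)) ⊆ S := product_subset_product_left (filter_subset _ _)
  set B1 := (Dp ×ˢ (univ : Finset O)).filter fun w => ¬ f w + p.τ < ℓ w.1 with hB1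
  have hB1S : B1 ⊆ S := (filter_subset _ _).trans hDS
  have hcardDp : 2 * cc d * A.card ≤ (Dp.card : ℝ) := by
    have := card_deep hA
    convert this using 2
  have hScard : (S.card : ℝ) = A.card * Fintype.card O := by
    rw [hS, card_product, card_univ]; push_cast; ring
  have hDcard : ((Dp ×ˢ (univ : Finset O)).card : ℝ) = Dp.card * Fintype.card O := by
    rw [card_product, card_univ]; push_cast; ring
  have hfail : (((Dp ×ˢ (univ : Finset O)).filter fun w => f w + p.τ < ℓ w.1).card : ℝ)
      ≤ cc d * S.card := by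
    have h1 : ((Dp ×ˢ (univ : Finset O)).filter fun w => f w + p.τ < ℓ w.1).card
        ≤ (S.filter fun w => f w + p.τ < ℓ w.1).card :=
      card_le_card (filter_subset_filter _ hDS)
    have h2 : ((S.filter fun w => f w + p.τ < ℓ w.1).card : ℝ) ≤ cc d * S.card := by
      have h3 : ((S.filter fun w => f w + p.τ < ℓ w.1).card : ℝ) / S.card ≤ cc d := hpr
      rwa [div_le_iff₀ hSpos] at h3
    have h3 : (((Dp ×ˢ (univ : Finset O)).filter fun w => f w + p.τ < ℓ w.1).card : ℝ)
        ≤ ((S.filter fun w => f w + p.τ < ℓ w.1).card : ℝ) := by exact_mod_cast h1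
    linarith
  have hB1card : cc d * S.card ≤ (B1.card : ℝ) := by
    have h1 : ((Dp ×ˢ (univ : Finset O)).filter fun w => f w + p.τ < ℓ w.1).card + B1.card
        = (Dp ×ˢ (univ : Finset O)).card := card_filter_add_card_filter_not _
    have h2 : (((Dp ×ˢ (univ : Finset O)).filter fun w => f w + p.τ < ℓ w.1).card : ℝ)
        + (B1.card : ℝ) = ((Dp ×ˢ (univ : Finset O)).card : ℝ) := by exact_mod_cast h1
    have h3 : 2 * (cc d * S.card) ≤ ((Dp ×ˢ (univ : Finset O)).card : ℝ) := by
      rw [hDcard, hScard]
      have h4 : (0 : ℝ) ≤ Fintype.card O := by positivity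
      nlinarith
    linarith
  -- the sum
  unfold stp
  rw [← hS, div_le_iff₀ hSpos]
  have h1 : ∀ w ∈ S, ((PL w).expect f fun o => o.elim 0 fun a => ((cut p f ℓ A w a).card : ℝ))
      ≤ N - (if w ∈ B1 then cc d * N else 0) := by
    intro w hw
    split_ifs with hwB
    · refine Prog.expect_le _ _ fun o => ?_
      have hwB' := mem_filter.1 hwB
      have hdeep : Deep A w.1 := (mem_filter.1 (mem_product.1 hwB'.1).1).2
      cases o with
      | none =>
        simp only [Option.elim]
        have := cc_le d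
        have : 0 ≤ N := by positivity
        nlinarith
      | some a =>
        have := card_cut_deep p f hℓ w a hdeep hwB'.2
        simp only [Option.elim]
        linarith
    · refine Prog.expect_le _ _ fun o => ?_
      cases o with
      | none => simp only [Option.elim]; have : 0 ≤ N := by positivity
                linarith
      | some a =>
        have : ((cut p f ℓ A w a).card : ℝ) ≤ A.card := by exact_mod_cast card_cut_le p f A w a
        simp only [Option.elim]
        linarith
  refine (sum_le_sum h1).trans ?_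
  rw [sum_sub_distrib, sum_const, nsmul_eq_mul]
  have h2 : ∑ w ∈ S, (if w ∈ B1 then cc d * N else 0) = B1.card * (cc d * N) := by
    rw [← sum_filter, sum_const, nsmul_eq_mul]
    congr 3
    ext w
    simp only [mem_filter]
    exact ⟨fun h => h.2, fun h => ⟨hB1S h, h⟩⟩
  rw [h2]
  have h3 : 0 ≤ N := by positivity
  have h4 : cc d * S.card * (cc d * N) ≤ B1.card * (cc d * N) := by gcongr
  calc (S.card : ℝ) * N - B1.card * (cc d * N) ≤ S.card * N - cc d * S.card * (cc d * N) := by
        linarith
    _ = (1 - cc d ^ 2) * N * S.card := by ring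

/-- Runs which do not terminate are rare. -/
theorem V_unterminated (hthr : 1 ≤ thr) (hlam : lam ≤ cc d) (hℓ : IsAff ℓ) (t : ℕ) :
    ∀ A, MidClosed A → V p PL f ℓ thr lam (fun B => if thr ≤ B.card then 1 else 0) t A
      ≤ (1 - cc d ^ 2) ^ t * A.card := by
  classical
  have hc : 0 ≤ 1 - cc d ^ 2 := by
    have := cc_pos d
    have := cc_le d
    nlinarith
  have hbase : ∀ A : Finset (Fin d → ℤ), (if thr ≤ A.card then (1 : ℝ) else 0) ≤ A.card := by
    intro A
    split_ifs with h
    · exact_mod_cast hthr.trans h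
    · positivity
  induction t with
  | zero =>
    intro A hA
    rw [V]
    split_ifs with h1
    · simp only [pow_zero, one_mul]; exact_mod_cast hthr.trans (by assumption)
    · simp
    · positivity
  | succ t ih =>
    intro A hA
    rw [V]
    split_ifs with h1 h2 h3
    · omega
    · positivity
    · rcases A.eq_empty_or_nonempty with h0 | h0
      · subst h0
        simp only [card_empty] at h2
        omega
      · calc stp p PL f ℓ A (V p PL f ℓ thr lam (fun B => if thr ≤ B.card then 1 else 0) t)
            ≤ stp p PL f ℓ A (fun B => (1 - cc d ^ 2) ^ t * (B.card : ℝ)) :=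
              stp_mono _ _ _ _ fun w _ a => ih _ (midClosed_cut p f hA hℓ w a)
          _ = (1 - cc d ^ 2) ^ t * stp p PL f ℓ A (fun B => (B.card : ℝ)) := stp_mul _ _ _ _ _ _ _
          _ ≤ (1 - cc d ^ 2) ^ t * ((1 - cc d ^ 2) * A.card) := by
              gcongr
              exact stp_card_le p PL f hA h0 hℓ (h1.trans hlam)
          _ = (1 - cc d ^ 2) ^ (t + 1) * A.card := by ring
    · positivity

theorem cut_subset (A : Finset (Fin d → ℤ)) (w : Pt d O)
    (a : Fin d → ℤ) : cut p f ℓ A w a ⊆ A := filter_subset _ _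

/-- The probability that a point `y` is lost. -/
theorem V_drop (y : Pt d O) {x : ℝ} (hx0 : 0 ≤ x) (P : Finset (Fin d → ℤ))
    (hx : ∀ B : Finset (Fin d → ℤ), B ⊆ P → thr ≤ B.card → y.1 ∈ B →
      stp p PL f ℓ B (fun B' => if y.1 ∉ B' then 1 else 0) ≤ x) (t : ℕ) :
    ∀ A : Finset (Fin d → ℤ), A ⊆ P → y.1 ∈ A →
      V p PL f ℓ thr lam (fun B => if y.1 ∉ B ∧ B.card < thr then 1 else 0) t A ≤ t * x := by
  classical
  induction t with
  | zero =>
    intro A hAP hA
    rw [V]
    split_ifs with h1 h2
    · exact absurd hA h2.1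
    · simp
    · simp
  | succ t ih =>
    intro A hAP hA
    have hpos : 0 ≤ ((t + 1 : ℕ) : ℝ) * x := by positivity
    rw [V]
    split_ifs with h1 h2 h3
    · exact absurd hA h3.1
    · exact hpos
    · have hle : stp p PL f ℓ A
          (V p PL f ℓ thr lam (fun B => if y.1 ∉ B ∧ B.card < thr then 1 else 0) t)
          ≤ stp p PL f ℓ A (fun B' => (if y.1 ∉ B' then 1 else 0) + t * x) := by
        refine stp_mono _ _ _ _ fun w _ a => ?_
        by_cases h3 : y.1 ∈ cut p f ℓ A w a
        · rw [if_neg (not_not.2 h3)]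
          have := ih _ ((cut_subset p f A w a).trans hAP) h3
          linarith
        · rw [if_pos h3]
          have h4 : V p PL f ℓ thr lam (fun B => if y.1 ∉ B ∧ B.card < thr then 1 else 0) t
              (cut p f ℓ A w a) ≤ 1 := by
            refine V_le_one _ _ _ _ _ _ (fun B => ?_) _ _
            split_ifs <;> norm_num
          have h5 : 0 ≤ (t : ℝ) * x := by positivity
          linarith
      refine hle.trans ?_
      rw [stp_add]
      have h3 := hx A hAP (not_lt.1 h2) hA
      have h4 : stp p PL f ℓ A (fun _ => (t : ℝ) * x) ≤ t * x :=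
        stp_le_const _ _ _ _ (by positivity) fun w _ a => le_refl _
      push_cast
      linarith
    · exact hpos

end Pool.Agent.H702.CT
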